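import Mathlib

/-!
Bilinear forms on the polynomial ring `K[X]`: existence and uniqueness of a form with
prescribed symmetric part and prescribed symmetric part of its shift.
-/

open Polynomial

namespace Pool.Agent.Lib.MP_610b40_an

section forms

variable {K : Type*} [Field K]

/-- multiplication by `X` -/
noncomputable def mulX (K : Type*) [Field K] : K[X] →ₗ[K] K[X] := LinearMap.mulLeft K (X : K[X])

@[simp] lemma mulX_apply (F : K[X]) : mulX K F = X * F := rfl

lemma form_ext {α β : K[X] →ₗ[K] K[X] →ₗ[K] K}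
    (h : ∀ i l : ℕ, α (X ^ i) (X ^ l) = β (X ^ i) (X ^ l)) : α = β := by
  refine Polynomial.lhom_ext' fun i => ?_
  refine LinearMap.ext_ring ?_
  refine Polynomial.lhom_ext' fun l => ?_
  refine LinearMap.ext_ring ?_
  have := h i l
  simpa [← Polynomial.X_pow_eq_monomial] using this

/-- the form with a given matrix on the monomials -/
noncomputable def ofMatrix (m : ℕ → ℕ → K) : K[X] →ₗ[K] K[X] →ₗ[K] K :=
  (Polynomial.basisMonomials K).constr K
    (fun i => (Polynomial.basisMonomials K).constr K (fun l => m i l))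

lemma ofMatrix_apply (m : ℕ → ℕ → K) (i l : ℕ) : ofMatrix m (X ^ i) (X ^ l) = m i l := by
  have e : ∀ i : ℕ, (X : K[X]) ^ i = Polynomial.basisMonomials K i := by
    intro i; simp [Polynomial.X_pow_eq_monomial]
  unfold ofMatrix
  rw [e i, e l, Module.Basis.constr_basis, Module.Basis.constr_basis]

lemma exists_form (h2 : (2 : K) ≠ 0) (g P : K[X] →ₗ[K] K[X] →ₗ[K] K)
    (hg : ∀ F G, g F G = g G F) (hP : ∀ F G, P F G = P G F) :
    ∃ α : K[X] →ₗ[K] K[X] →ₗ[K] K, (∀ F G, α F G + α G F = g F G) ∧
      (∀ F G, α (X * F) G + α (X * G) F = P F G) := by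
  classical
  set S : ℕ → ℕ → K := fun i l =>
    P (X ^ i) (X ^ l) - (g (X ^ (i + 1)) (X ^ l) + g (X ^ i) (X ^ (l + 1))) / 2 with hS
  have hSs : ∀ i l, S i l = S l i := by
    intro i l
    simp only [hS]
    rw [hP (X ^ i) (X ^ l), hg (X ^ (i + 1)) (X ^ l), hg (X ^ i) (X ^ (l + 1))]
    ring
  set om : ℕ → ℕ → K := fun i l =>
    (∑ s ∈ Finset.range i, S s (i + l - 1 - s)) - ∑ s ∈ Finset.range l, S s (i + l - 1 - s)
    with hom
  have homs : ∀ i l, om i l = - om l i := by
    intro i l
    simp only [hom]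
    rw [add_comm l i]
    ring
  have hom1 : ∀ i l, om (i + 1) l - om i (l + 1) = 2 * S i l := by
    intro i l
    simp only [hom]
    have e1 : ∀ s, i + 1 + l - 1 - s = i + l - s := by intro s; omega
    have e2 : ∀ s, i + (l + 1) - 1 - s = i + l - s := by intro s; omega
    simp only [e1, e2]
    rw [Finset.sum_range_succ _ i, Finset.sum_range_succ _ l]
    have e3 : i + l - i = l := by omega
    have e4 : i + l - l = i := by omega
    rw [e3, e4, hSs l i]
    ring
  set m : ℕ → ℕ → K := fun i l => g (X ^ i) (X ^ l) / 2 + om i l / 2 with hm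
  have key1 : ofMatrix m + (ofMatrix m).flip = g := by
    apply form_ext
    intro i l
    simp only [LinearMap.add_apply, LinearMap.flip_apply, ofMatrix_apply, hm]
    rw [homs l i, hg (X ^ l) (X ^ i)]
    field_simp
    ring
  have key2 : (ofMatrix m).comp (mulX K) + ((ofMatrix m).comp (mulX K)).flip = P := by
    apply form_ext
    intro i l
    simp only [LinearMap.add_apply, LinearMap.flip_apply, LinearMap.comp_apply, mulX_apply]
    rw [← pow_succ', ← pow_succ', ofMatrix_apply, ofMatrix_apply]
    simp only [hm]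
    have h3 := hom1 i l
    rw [homs (l + 1) i]
    have h4 : om (i + 1) l = 2 * S i l + om i (l + 1) := by rw [← h3]; ring
    rw [h4, hg (X ^ (l + 1)) (X ^ i)]
    simp only [hS]
    field_simp
    ring
  refine ⟨ofMatrix m, fun F G => ?_, fun F G => ?_⟩
  · have := congrArg (fun f => f F G) key1
    simpa using this
  · have := congrArg (fun f => f F G) key2
    simpa using this

lemma form_eq_zero (h2 : (2 : K) ≠ 0) (D : K[X] →ₗ[K] K[X] →ₗ[K] K)
    (h : ∀ F G, D F G + D G F = 0) (h' : ∀ F G, D (X * F) G + D (X * G) F = 0) : D = 0 := by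
  have mv : ∀ F G, D (X * F) G = D F (X * G) := by
    intro F G
    have h3 := h' F G
    have h4 := h (X * G) F
    linear_combination h3 - h4
  have mv' : ∀ (i : ℕ) F G, D (X ^ i * F) G = D F (X ^ i * G) := by
    intro i
    induction i with
    | zero => intro F G; simp
    | succ i ih =>
      intro F G
      rw [pow_succ, mul_assoc, ih, mv, ← mul_assoc, ← pow_succ', pow_succ]
  apply form_ext
  intro i l
  have e1 : D (X ^ i) (X ^ l) = D 1 (X ^ (i + l)) := by
    have := mv' i 1 (X ^ l)
    rw [mul_one, ← pow_add] at this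
    exact this
  have e2 : D 1 (X ^ (i + l)) = D (X ^ (i + l)) 1 := by
    have := mv' (i + l) 1 1
    rw [mul_one] at this
    exact this.symm
  have e3 := h 1 (X ^ (i + l))
  rw [e1]
  have : (2 : K) * D 1 (X ^ (i + l)) = 0 := by
    rw [← e2] at e3
    linear_combination e3
  simpa [h2] using this

end forms

end Pool.Agent.Lib.MP_610b40_an
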