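import Mathlib

/-!
Abstract polynomial data of the flip dynamics: centres `phi`, circumcentres `psi`,
offsets `cc`, in terms of polynomials in the operator `A - 1`, `A` the double circumcentre map.
-/

open Polynomial

namespace Pool.Agent.Lib.MP_610b40_an

structure PD (K V : Type*) [Field K] [AddCommGroup V] [Module K V]
    (B : LinearMap.BilinForm K V) (n d : ℕ) [NeZero n] where
  M : V
  M0 : V
  w : ZMod n → V
  nn : ZMod n → V
  phi : ZMod n → K[X] →ₗ[K] V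
  psi : ZMod n → K[X] →ₗ[K] V
  cc : ZMod n → K[X] →ₗ[K] K
  lam : ZMod n → K[X] →ₗ[K] K
  th : ZMod n → K[X] →ₗ[K] K
  E : Submodule K (ZMod n → K)
  hMM : B M M = 0
  hM0M0 : B M0 M0 = 0
  hMM0 : B M M0 = 1
  hwM : ∀ j, B (w j) M = 0
  hwM0 : ∀ j, B (w j) M0 = 0
  hww : ∀ j, B (w j) (w j) = 0
  phiM : ∀ a F, B (phi a F) M = 0
  phiM0 : ∀ a F, B (phi a F) M0 = 0
  psiM : ∀ a F, B (psi a F) M = 0
  psiM0 : ∀ a F, B (psi a F) M0 = 0
  phi_w : ∀ a F, ∀ i : ℕ, i < d → B (phi a F) (w (a + (i : ZMod n))) = cc (a + (i : ZMod n)) F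
  psi_w : ∀ j F, B (psi j F) (w j) = cc j ((X + 1) * F)
  phi_edge : ∀ a F, phi (a + 1) F = phi a F + lam a F • nn a
  psi_edge : ∀ j F, psi j F = psi (j - 1) F + th j F • w j
  psi_nn : ∀ a F, ∀ i : ℕ, i < d →
    2 * B (psi (a + (i : ZMod n)) F) (nn a) = B (phi a F + phi (a + 1) F) (nn a)
  const_phi : ∀ F e, B e M = 0 → B e M0 = 0 → (∀ j, cc j F = B e (w j)) → ∀ a, phi a F = e
  const_psi : ∀ F e, B e M = 0 → B e M0 = 0 → (∀ j, cc j F = B e (w j)) → ∀ j, psi j F = e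
  finrankE : Module.finrank K E = d
  memE : ∀ f, f ∈ E ↔ ∃ e, B e M = 0 ∧ B e M0 = 0 ∧ ∀ j, f j = B e (w j)
  orth : ∀ F G, ∑ j, cc j F * th j G = 0
  orthE : ∀ f ∈ E, ∀ G, ∑ j, f j * th j G = 0

end Pool.Agent.Lib.MP_610b40_an
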