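import Mathlib
import Pool.Agent.Lib.MP_610b40_an.PD
import Pool.Agent.Lib.MP_610b40_an.Forms

/-!
The two families of (nonsymmetric) bilinear forms `α a`, `β j` on `K[X]` attached to the
polynomial data: `⟨phi a F, psi j G⟩ = α a F G + β j F G` for adjacent `a`, `j`.
-/

open Polynomial

namespace Pool.Agent.Lib.MP_610b40_an

variable {K V : Type*} [Field K] [AddCommGroup V] [Module K V]
    {B : LinearMap.BilinForm K V} {n d : ℕ} [NeZero n]

/-- narrow adjacency -/
def NAdj (d : ℕ) (a j : ZMod n) : Prop := ∃ i : ℕ, i < d ∧ j = a + (i : ZMod n)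

/-- multiplication by `X + 1` -/
noncomputable def mul1 (K : Type*) [Field K] : K[X] →ₗ[K] K[X] :=
  LinearMap.mulLeft K ((X : K[X]) + 1)

@[simp] lemma mul1_apply (F : K[X]) : mul1 K F = (X + 1) * F := rfl

namespace PD

variable (D : PD K V B n d)

/-- Gram form of the centres -/
noncomputable def gF (a : ZMod n) : K[X] →ₗ[K] K[X] →ₗ[K] K := B.compl₁₂ (D.phi a) (D.phi a)

lemma gF_apply (a : ZMod n) (F G : K[X]) : D.gF a F G = B (D.phi a F) (D.phi a G) := rfl

/-- the form `Psi` -/
noncomputable def Psi (a j : ZMod n) : K[X] →ₗ[K] K[X] →ₗ[K] K :=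
  B.compl₁₂ (D.phi a ∘ₗ mul1 K) (D.psi j) + (B.compl₁₂ (D.phi a ∘ₗ mul1 K) (D.psi j)).flip
    - B.compl₁₂ (D.psi j) (D.psi j)

lemma Psi_apply (a j : ZMod n) (F G : K[X]) : D.Psi a j F G =
    B (D.phi a ((X + 1) * F)) (D.psi j G) + B (D.phi a ((X + 1) * G)) (D.psi j F)
      - B (D.psi j F) (D.psi j G) := rfl

lemma phi_w' {a j : ZMod n} (h : NAdj d a j) (F : K[X]) :
    B (D.phi a F) (D.w j) = D.cc j F := by
  obtain ⟨i, hi, rfl⟩ := h
  exact D.phi_w a F i hi

lemma psi_nn' {a j : ZMod n} (h : NAdj d a j) (F : K[X]) :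
    2 * B (D.psi j F) (D.nn a) = B (D.phi a F + D.phi (a + 1) F) (D.nn a) := by
  obtain ⟨i, hi, rfl⟩ := h
  exact D.psi_nn a F i hi

lemma psi_w' (_hs : ∀ u v, B u v = B v u) (j : ZMod n) (F : K[X]) :
    B (D.psi (j - 1) F) (D.w j) = D.cc j ((X + 1) * F) := by
  have h1 := D.psi_edge j F
  have h2 := D.psi_w j F
  rw [h1, map_add, LinearMap.add_apply, map_smul, LinearMap.smul_apply, D.hww] at h2
  simpa using h2

lemma Psi_step (hs : ∀ u v, B u v = B v u) {a j : ZMod n} (h : NAdj d a j) :
    D.Psi a j = D.Psi a (j - 1) := by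
  apply LinearMap.ext; intro F
  apply LinearMap.ext; intro G
  rw [Psi_apply, Psi_apply, D.psi_edge j F, D.psi_edge j G]
  have e1 := D.phi_w' h ((X + 1) * F)
  have e2 := D.phi_w' h ((X + 1) * G)
  have e3 := D.psi_w' hs j F
  have e4 := D.psi_w' hs j G
  simp only [map_add, LinearMap.add_apply, map_smul, LinearMap.smul_apply, smul_eq_mul, D.hww]
  rw [hs (D.w j) (D.psi (j - 1) G), e1, e2, e3, e4]
  ring

lemma Psi_narrow (hs : ∀ u v, B u v = B v u) (a : ZMod n) (i : ℕ) (hi : i < d) :
    D.Psi a (a + (i : ZMod n)) = D.Psi a (a - 1) := by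
  induction i with
  | zero => simpa using D.Psi_step hs (a := a) (j := a) ⟨0, hi, by simp⟩
  | succ i ih =>
    rw [← ih (by omega), D.Psi_step hs (a := a) (j := a + ((i + 1 : ℕ) : ZMod n)) ⟨i + 1, hi, rfl⟩]
    congr 1
    push_cast; ring

lemma Psi_narrow' (hs : ∀ u v, B u v = B v u) {a j : ZMod n} (h : NAdj d a j) :
    D.Psi a j = D.Psi a (a - 1) := by
  obtain ⟨i, hi, rfl⟩ := h
  exact D.Psi_narrow hs a i hi

/-- `j` is wide-adjacent to `a + 1` if narrow adjacent to `a` -/
lemma Psi_narrow_succ (hs : ∀ u v, B u v = B v u) {a j : ZMod n} (h : NAdj d a j) :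
    D.Psi (a + 1) j = D.Psi (a + 1) a := by
  obtain ⟨i, hi, rfl⟩ := h
  have h0 : (a + 1 - 1 : ZMod n) = a := by ring
  rcases i with _ | i
  · simp
  · have := D.Psi_narrow hs (a + 1) i (by omega)
    rw [h0] at this
    rw [← this]
    congr 1
    push_cast; ring

end PD

theorem exists_ab (h2 : (2 : K) ≠ 0) (hs : ∀ u v, B u v = B v u) (hd : 1 ≤ d)
    (D : PD K V B n d) :
    ∃ α β : ZMod n → K[X] →ₗ[K] K[X] →ₗ[K] K,
      (∀ a j, (a = j + 1 ∨ NAdj d a j) → ∀ F G,
        B (D.phi a F) (D.psi j G) = α a F G + β j F G) ∧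
      (∀ a F G, α a F G + α a G F = B (D.phi a F) (D.phi a G)) ∧
      (∀ j F G, β j ((X + 1) * F) G + β j ((X + 1) * G) F = B (D.psi j F) (D.psi j G)) ∧
      (∀ a F, D.lam a F = 0 → ∀ G, α (a + 1) F G = α a F G) := by
  have ex : ∀ a : ZMod n, ∃ α : K[X] →ₗ[K] K[X] →ₗ[K] K,
      (∀ F G, α F G + α G F = D.gF a F G) ∧
      (∀ F G, α (X * F) G + α (X * G) F = (D.Psi a (a - 1) - D.gF a) F G) := by
    intro a
    apply exists_form h2
    · intro F G; rw [D.gF_apply, D.gF_apply, hs]
    · intro F G
      rw [LinearMap.sub_apply, LinearMap.sub_apply, LinearMap.sub_apply, LinearMap.sub_apply,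
        D.gF_apply, D.gF_apply, D.Psi_apply, D.Psi_apply, hs (D.phi a F), hs (D.psi (a - 1) F)]
      ring
  choose α hα1 hα2 using ex
  have adj0 : ∀ a : ZMod n, NAdj d a a := fun a => ⟨0, by omega, by simp⟩
  -- shifted identity
  have hα3 : ∀ a F G, α a ((X + 1) * F) G + α a ((X + 1) * G) F = D.Psi a (a - 1) F G := by
    intro a F G
    have e1 := hα1 a F G
    have e2 := hα2 a F G
    rw [LinearMap.sub_apply, LinearMap.sub_apply] at e2
    rw [add_mul, add_mul, one_mul, one_mul, map_add, map_add, LinearMap.add_apply,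
      LinearMap.add_apply]
    linear_combination e1 + e2
  -- update rule
  have hα4 : ∀ a j, NAdj d a j → ∀ F G,
      α (a + 1) F G = α a F G + D.lam a F * B (D.nn a) (D.psi j G) := by
    intro a j haj
    set η : K[X] →ₗ[K] K := (B (D.nn a)) ∘ₗ (D.psi j) with hη
    have hη' : ∀ G, η G = B (D.nn a) (D.psi j G) := fun G => rfl
    set R : K[X] →ₗ[K] K[X] →ₗ[K] K := (LinearMap.toSpanSingleton K _ η) ∘ₗ (D.lam a) with hR
    have hR' : ∀ F G, R F G = D.lam a F * η G := by
      intro F G; simp [hR]
    have hz : α (a + 1) - α a - R = 0 := by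
      apply form_eq_zero h2
      · intro F G
        have e1 := hα1 (a + 1) F G
        have e2 := hα1 a F G
        rw [D.gF_apply, D.phi_edge, D.phi_edge] at e1
        rw [D.gF_apply] at e2
        simp only [LinearMap.sub_apply, hR', hη']
        simp only [map_add, LinearMap.add_apply, map_smul, LinearMap.smul_apply,
          smul_eq_mul] at e1
        have e3 := D.psi_nn' haj F
        have e4 := D.psi_nn' haj G
        rw [D.phi_edge] at e3 e4
        simp only [map_add, LinearMap.add_apply, map_smul, LinearMap.smul_apply,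
          smul_eq_mul] at e3 e4
        rw [hs (D.nn a) (D.psi j G), hs (D.nn a) (D.psi j F)]
        rw [hs (D.nn a) (D.phi a G)] at e1
        have key : (2 : K) * (α (a + 1) F G - α a F G - D.lam a F * B (D.psi j G) (D.nn a) +
          (α (a + 1) G F - α a G F - D.lam a G * B (D.psi j F) (D.nn a))) = 0 := by
          linear_combination 2 * e1 - 2 * e2 - D.lam a F * e4 - D.lam a G * e3
        simpa [h2] using key
      · intro F G
        have e1 := hα2 (a + 1) F G
        have e2 := hα2 a F G
        have e5 := hα1 (a + 1) F G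
        have e6 := hα1 a F G
        have p1 : D.Psi (a + 1) (a + 1 - 1) = D.Psi (a + 1) j := by
          rw [D.Psi_narrow_succ hs haj]; congr 1; ring
        have p2 : D.Psi a (a - 1) = D.Psi a j := (D.Psi_narrow' hs haj).symm
        rw [p1] at e1
        rw [p2] at e2
        simp only [LinearMap.sub_apply] at e1 e2
        rw [← e5] at e1
        rw [← e6] at e2
        simp only [LinearMap.sub_apply, hR', hη']
        rw [D.Psi_apply, D.phi_edge, D.phi_edge] at e1
        rw [D.Psi_apply] at e2
        simp only [map_add, LinearMap.add_apply, map_smul, LinearMap.smul_apply,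
          smul_eq_mul] at e1
        have l1 : D.lam a ((X + 1) * F) = D.lam a (X * F) + D.lam a F := by
          rw [add_mul, one_mul, map_add]
        have l2 : D.lam a ((X + 1) * G) = D.lam a (X * G) + D.lam a G := by
          rw [add_mul, one_mul, map_add]
        rw [l1, l2] at e1
        -- use first part again
        have e7 := hα1 (a + 1) F G
        have e8 := hα1 a F G
        rw [D.gF_apply, D.phi_edge, D.phi_edge] at e7
        rw [D.gF_apply] at e8
        simp only [map_add, LinearMap.add_apply, map_smul, LinearMap.smul_apply,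
          smul_eq_mul] at e7
        have e3 := D.psi_nn' haj F
        have e4 := D.psi_nn' haj G
        rw [D.phi_edge] at e3 e4
        simp only [map_add, LinearMap.add_apply, map_smul, LinearMap.smul_apply,
          smul_eq_mul] at e3 e4
        rw [hs (D.nn a) (D.psi j G), hs (D.nn a) (D.psi j F)]
        rw [hs (D.nn a) (D.psi j G), hs (D.nn a) (D.psi j F)] at e1
        rw [hs (D.nn a) (D.phi a G)] at e7
        have key : (2 : K) * (α (a + 1) (X * F) G - α a (X * F) G -
            D.lam a (X * F) * B (D.psi j G) (D.nn a) +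
          (α (a + 1) (X * G) F - α a (X * G) F -
            D.lam a (X * G) * B (D.psi j F) (D.nn a))) = 0 := by
          linear_combination 2 * e1 - 2 * e2 - 2 * e7 + 2 * e8 + D.lam a F * e4 + D.lam a G * e3
        simpa [h2] using key
    intro F G
    have := congrArg (fun f => f F G) hz
    simp only [LinearMap.sub_apply, hR', hη', LinearMap.zero_apply] at this
    linear_combination this
  set β : ZMod n → K[X] →ₗ[K] K[X] →ₗ[K] K :=
    fun j => B.compl₁₂ (D.phi j) (D.psi j) - α j with hβ
  have hβ' : ∀ j F G, β j F G = B (D.phi j F) (D.psi j G) - α j F G := fun j F G => rfl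
  have stp : ∀ a j, NAdj d a j → ∀ F G,
      B (D.phi (a + 1) F) (D.psi j G) - α (a + 1) F G =
        B (D.phi a F) (D.psi j G) - α a F G := by
    intro a j haj F G
    rw [D.phi_edge, hα4 a j haj]
    simp only [map_add, LinearMap.add_apply, map_smul, LinearMap.smul_apply, smul_eq_mul]
    ring
  have R1 : ∀ a j, (a = j + 1 ∨ NAdj d a j) → ∀ F G,
        B (D.phi a F) (D.psi j G) = α a F G + β j F G := by
    intro a j h F G
    rcases h with rfl | ⟨i, hi, rfl⟩
    · rw [hβ']
      linear_combination stp j j (adj0 j) F G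
    · rw [hβ']
      have : ∀ i : ℕ, i < d → ∀ a : ZMod n,
          B (D.phi a F) (D.psi (a + (i : ZMod n)) G) - α a F G =
          B (D.phi (a + (i : ZMod n)) F) (D.psi (a + (i : ZMod n)) G) -
            α (a + (i : ZMod n)) F G := by
        intro i
        induction i with
        | zero => intro _ a; simp
        | succ i ih =>
          intro hi a
          have e0 : a + ((i + 1 : ℕ) : ZMod n) = (a + 1) + (i : ZMod n) := by push_cast; ring
          have e1 := stp a (a + ((i + 1 : ℕ) : ZMod n)) ⟨i + 1, hi, rfl⟩ F G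
          have e2 := ih (by omega) (a + 1)
          rw [e0] at e1 ⊢
          rw [← e1, e2]
      have := this i hi a
      linear_combination this
  refine ⟨α, β, R1, ?_, ?_, ?_⟩
  · intro a F G
    rw [hα1, D.gF_apply]
  · intro j F G
    have e1 := R1 j j (Or.inr (adj0 j)) ((X + 1) * F) G
    have e2 := R1 j j (Or.inr (adj0 j)) ((X + 1) * G) F
    have e3 := hα3 j F G
    rw [← D.Psi_narrow' hs (adj0 j), D.Psi_apply] at e3
    linear_combination (-1 : K) * e1 - e2 - e3
  · intro a F hF G
    rw [hα4 a a (adj0 a), hF, zero_mul, add_zero]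

end Pool.Agent.Lib.MP_610b40_an
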