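import Mathlib

set_option autoImplicit false

/-!
# Lines in affine 3-space and Pluecker vectors
-/

namespace Pool.Agent.MP610b40

open Matrix

/-- Points (and vectors) of `ℝ³`. -/
abbrev R3 : Type := Fin 3 → ℝ

/-- The (affine) lines of `ℝ³`. -/
def Line : Type := {ℓ : AffineSubspace ℝ R3 // Module.finrank ℝ ℓ.direction = 1}

/-- Two lines meet if they have a common point. -/
def Meets (ℓ m : Line) : Prop := ∃ x : R3, x ∈ ℓ.1 ∧ x ∈ m.1

theorem Meets.symm {ℓ m : Line} (h : Meets ℓ m) : Meets m ℓ := by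
  obtain ⟨x, hx, hy⟩ := h
  exact ⟨x, hy, hx⟩

/-- The space of Pluecker vectors. -/
abbrev PV : Type := R3 × R3

/-- The Pluecker form. -/
def pB (v w : PV) : ℝ := v.1 ⬝ᵥ w.2 + w.1 ⬝ᵥ v.2

theorem pB_comm (v w : PV) : pB v w = pB w v := by
  unfold pB; ring

theorem pB_add_left (v v' w : PV) : pB (v + v') w = pB v w + pB v' w := by
  simp [pB, add_dotProduct, dotProduct_add]; ring

theorem pB_smul_left (c : ℝ) (v w : PV) : pB (c • v) w = c * pB v w := by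
  simp [pB]; ring

theorem pB_add_right (v w w' : PV) : pB v (w + w') = pB v w + pB v w' := by
  rw [pB_comm, pB_add_left, pB_comm w, pB_comm w']

theorem pB_smul_right (c : ℝ) (v w : PV) : pB v (c • w) = c * pB v w := by
  rw [pB_comm, pB_smul_left, pB_comm w]

/-- The Pluecker form is nondegenerate. -/
theorem pB_nondeg {v : PV} (h : ∀ w, pB v w = 0) : v = 0 := by
  have h1 : ∀ w : R3, v.1 ⬝ᵥ w = 0 := fun w => by
    have := h (0, w); simpa [pB] using this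
  have h2 : ∀ w : R3, w ⬝ᵥ v.2 = 0 := fun w => by
    have := h (w, 0); simpa [pB] using this
  refine Prod.ext ?_ ?_
  · exact dotProduct_eq_zero _ h1
  · exact dotProduct_eq_zero _ (fun w => by rw [dotProduct_comm]; exact h2 w)

/-- Every line has the form `p + ℝ u`. -/
theorem Line.exists_rep (ℓ : Line) : ∃ p u : R3, u ≠ 0 ∧
    ∀ x, x ∈ ℓ.1 ↔ ∃ t : ℝ, x = p + t • u := by
  obtain ⟨⟨u, hu⟩, hu0, hspan⟩ := finrank_eq_one_iff'.1 ℓ.2
  have hne : (ℓ.1 : Set R3).Nonempty := by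
    by_contra hcon
    rw [Set.not_nonempty_iff_eq_empty] at hcon
    have : ℓ.1 = ⊥ := by
      ext x; simp [← SetLike.mem_coe, hcon]
    have h1 := ℓ.2
    rw [this, AffineSubspace.direction_bot, finrank_bot] at h1
    exact absurd h1 (by norm_num)
  obtain ⟨p, hp⟩ := hne
  refine ⟨p, u, fun h => hu0 (by ext1; exact h), fun x => ⟨fun hx => ?_, ?_⟩⟩
  · have hxp : x -ᵥ p ∈ ℓ.1.direction := AffineSubspace.vsub_mem_direction hx hp
    obtain ⟨c, hc⟩ := hspan ⟨x -ᵥ p, hxp⟩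
    refine ⟨c, ?_⟩
    have := congrArg Subtype.val hc
    simp only [SetLike.val_smul, vsub_eq_sub] at this
    rw [this]; abel
  · rintro ⟨t, rfl⟩
    have := AffineSubspace.vadd_mem_of_mem_direction (Submodule.smul_mem _ t hu) hp
    simpa [add_comm] using this

/-- A point of the line. -/
noncomputable def Line.pt (ℓ : Line) : R3 := ℓ.exists_rep.choose

/-- A direction vector of the line. -/
noncomputable def Line.dir (ℓ : Line) : R3 := ℓ.exists_rep.choose_spec.choose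

theorem Line.dir_ne (ℓ : Line) : ℓ.dir ≠ 0 := ℓ.exists_rep.choose_spec.choose_spec.1

theorem Line.mem_iff (ℓ : Line) (x : R3) : x ∈ ℓ.1 ↔ ∃ t : ℝ, x = ℓ.pt + t • ℓ.dir :=
  ℓ.exists_rep.choose_spec.choose_spec.2 x

/-- The Pluecker vector of a line. -/
noncomputable def Line.pl (ℓ : Line) : PV := (ℓ.dir, ℓ.pt ⨯₃ ℓ.dir)

theorem Line.pl_isotropic (ℓ : Line) : pB ℓ.pl ℓ.pl = 0 := by
  simp [pB, Line.pl, dot_cross_self]

theorem Line.pl_ne (ℓ : Line) : ℓ.pl ≠ 0 := fun h => ℓ.dir_ne (congrArg Prod.fst h)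

theorem Line.ext' {ℓ m : Line} (h : ∀ x, x ∈ ℓ.1 ↔ x ∈ m.1) : ℓ = m := by
  apply Subtype.ext
  exact AffineSubspace.ext h

/-- The line through `p` with direction `u ≠ 0`. -/
def mkLine (p u : R3) (hu : u ≠ 0) : Line :=
  ⟨AffineSubspace.mk' p (Submodule.span ℝ {u}), by
    rw [AffineSubspace.direction_mk']; exact finrank_span_singleton hu⟩

theorem mem_mkLine (p u : R3) (hu : u ≠ 0) (x : R3) :
    x ∈ (mkLine p u hu).1 ↔ ∃ t : ℝ, x = p + t • u := by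
  unfold mkLine
  rw [AffineSubspace.mem_mk', Submodule.mem_span_singleton]
  constructor
  · rintro ⟨t, ht⟩
    exact ⟨t, by rw [ht]; simp⟩
  · rintro ⟨t, rfl⟩
    exact ⟨t, by simp⟩

theorem cross_smul_dir (p u : R3) (t : ℝ) : (p + t • u) ⨯₃ u = p ⨯₃ u := by
  simp [cross_self]

/-- Parallel vectors. -/
theorem exists_smul_of_cross_eq_zero {u v : R3} (hu : u ≠ 0) (h : u ⨯₃ v = 0) :
    ∃ c : ℝ, v = c • u := by
  have hN : u ⬝ᵥ u ≠ 0 := fun h0 => hu (dotProduct_self_eq_zero.1 h0)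
  refine ⟨(u ⬝ᵥ v) / (u ⬝ᵥ u), ?_⟩
  have h0 := congrFun h 0
  have h1 := congrFun h 1
  have h2 := congrFun h 2
  simp only [cross_apply, Pi.zero_apply, cons_val_zero, cons_val_one, cons_val] at h0 h1 h2
  ext i
  simp only [dotProduct, Fin.sum_univ_three, Pi.smul_apply, smul_eq_mul] at hN ⊢
  rw [div_mul_eq_mul_div, eq_div_iff hN]
  fin_cases i
  · simp; linear_combination (-u 1) * h2 + (u 2) * h1
  · simp; linear_combination (u 0) * h2 - (u 2) * h0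
  · simp; linear_combination (u 1) * h0 - (u 0) * h1

/-- Two lines with proportional direction that have a common point are equal. -/
theorem eq_of_cross_eq_zero {ℓ m : Line} (h : ℓ.dir ⨯₃ m.dir = 0) (hm : Meets ℓ m) : ℓ = m := by
  obtain ⟨c, hc⟩ := exists_smul_of_cross_eq_zero ℓ.dir_ne h
  have hc0 : c ≠ 0 := fun h0 => m.dir_ne (by rw [hc, h0, zero_smul])
  obtain ⟨x, hx, hy⟩ := hm
  obtain ⟨s, hs⟩ := (ℓ.mem_iff x).1 hx
  obtain ⟨t, ht⟩ := (m.mem_iff x).1 hy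
  apply Line.ext'
  intro y
  rw [ℓ.mem_iff, m.mem_iff]
  have hp : ℓ.pt = m.pt + (t * c - s) • ℓ.dir := by
    have : ℓ.pt + s • ℓ.dir = m.pt + t • m.dir := hs.symm.trans ht
    rw [hc] at this
    rw [eq_sub_of_add_eq this, smul_smul, sub_smul]; abel
  constructor
  · rintro ⟨r, rfl⟩
    refine ⟨(t * c - s + r) / c, ?_⟩
    rw [hc, smul_smul, div_mul_cancel₀ _ hc0, add_smul, hp]; abel
  · rintro ⟨r, rfl⟩
    refine ⟨r * c - (t * c - s), ?_⟩
    rw [hc, smul_smul, hp, sub_smul (r * c)]; abel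

/-- Lines that meet have orthogonal Pluecker vectors. -/
theorem pB_eq_zero_of_meets {ℓ m : Line} (h : Meets ℓ m) : pB ℓ.pl m.pl = 0 := by
  obtain ⟨x, hx, hy⟩ := h
  obtain ⟨s, hs⟩ := (ℓ.mem_iff x).1 hx
  obtain ⟨t, ht⟩ := (m.mem_iff x).1 hy
  have h1 : ℓ.pt ⨯₃ ℓ.dir = x ⨯₃ ℓ.dir := by rw [hs, cross_smul_dir]
  have h2 : m.pt ⨯₃ m.dir = x ⨯₃ m.dir := by rw [ht, cross_smul_dir]
  simp only [pB, Line.pl]
  rw [h1, h2]
  simp only [dotProduct, Fin.sum_univ_three, cross_apply, cons_val_zero, cons_val_one, cons_val]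
  ring

/-- Non-parallel lines with orthogonal Pluecker vectors meet. -/
theorem meets_of_pB_eq_zero {ℓ m : Line} (h : pB ℓ.pl m.pl = 0) (hd : ℓ.dir ⨯₃ m.dir ≠ 0) :
    Meets ℓ m := by
  set u := ℓ.dir with hu
  set v := m.dir with hv
  set p := ℓ.pt with hp
  set q := m.pt with hq
  set N := u ⨯₃ v with hN
  have hNN : N ⬝ᵥ N ≠ 0 := fun h0 => hd (dotProduct_self_eq_zero.1 h0)
  have hw : (q - p) ⬝ᵥ N = 0 := by
    have h' : u ⬝ᵥ (q ⨯₃ v) + v ⬝ᵥ (p ⨯₃ u) = 0 := h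
    rw [hN]
    simp only [dotProduct, Fin.sum_univ_three, cross_apply, cons_val_zero, cons_val_one,
      cons_val, Pi.sub_apply] at h' ⊢
    linear_combination -h'
  set s := (((q - p) ⨯₃ v) ⬝ᵥ N) / (N ⬝ᵥ N) with hs
  set t := (((q - p) ⨯₃ u) ⬝ᵥ N) / (N ⬝ᵥ N) with ht
  have key : p + s • u = q + t • v := by
    have h1 : (N ⬝ᵥ N) • (q - p) = (((q - p) ⨯₃ v) ⬝ᵥ N) • u - (((q - p) ⨯₃ u) ⬝ᵥ N) • v := by
      have h2 : (N ⬝ᵥ N) • (q - p) = (((q - p) ⨯₃ v) ⬝ᵥ N) • u - (((q - p) ⨯₃ u) ⬝ᵥ N) • v +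
          ((q - p) ⬝ᵥ N) • N := by
        rw [hN]
        ext i
        simp only [dotProduct, Fin.sum_univ_three, cross_apply, cons_val_zero, cons_val_one,
          cons_val, Pi.sub_apply, Pi.smul_apply, Pi.add_apply, smul_eq_mul]
        fin_cases i <;> simp <;> ring
      rw [h2, hw, zero_smul, add_zero]
    have h3 : q - p = s • u - t • v := by
      have : q - p = (N ⬝ᵥ N)⁻¹ • ((N ⬝ᵥ N) • (q - p)) := by
        rw [smul_smul, inv_mul_cancel₀ hNN, one_smul]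
      rw [this, h1, smul_sub, smul_smul, smul_smul, hs, ht]
      congr 2 <;> ring
    have h4 : q = p + (s • u - t • v) := by rw [← h3]; abel
    rw [h4]; abel
  exact ⟨p + s • u, (ℓ.mem_iff _).2 ⟨s, rfl⟩, (m.mem_iff _).2 ⟨t, key⟩⟩

/-- Lines with proportional Pluecker vectors are equal. -/
theorem eq_of_pl_smul {ℓ m : Line} {c : ℝ} (h : m.pl = c • ℓ.pl) : ℓ = m := by
  have h1 : m.dir = c • ℓ.dir := congrArg Prod.fst h
  have h2 : m.pt ⨯₃ m.dir = c • (ℓ.pt ⨯₃ ℓ.dir) := congrArg Prod.snd h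
  have hc0 : c ≠ 0 := fun h0 => m.dir_ne (by rw [h1, h0, zero_smul])
  have h3 : ℓ.dir ⨯₃ (m.pt - ℓ.pt) = 0 := by
    have h4 : c • ((m.pt - ℓ.pt) ⨯₃ ℓ.dir) = 0 := by
      rw [map_sub, LinearMap.sub_apply, smul_sub, ← h2, h1, map_smul, sub_self]
    have h5 := (smul_eq_zero.1 h4).resolve_left hc0
    rw [← cross_anticomm, h5, neg_zero]
  obtain ⟨r, hr⟩ := exists_smul_of_cross_eq_zero ℓ.dir_ne h3
  apply eq_of_cross_eq_zero
  · rw [h1, map_smul, cross_self, smul_zero]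
  · refine ⟨m.pt, (ℓ.mem_iff _).2 ⟨r, ?_⟩, (m.mem_iff _).2 ⟨0, by simp⟩⟩
    rw [← hr]; abel

/-- Every isotropic vector with nonzero first component is the Pluecker vector of a line, up to
a scalar. -/
theorem exists_line {v : PV} (hv : v.1 ≠ 0) (hi : pB v v = 0) :
    ∃ (ℓ : Line) (c : ℝ), c ≠ 0 ∧ v = c • ℓ.pl := by
  have hN : v.1 ⬝ᵥ v.1 ≠ 0 := fun h0 => hv (dotProduct_self_eq_zero.1 h0)
  have hi' : v.1 ⬝ᵥ v.2 = 0 := by
    have : v.1 ⬝ᵥ v.2 + v.1 ⬝ᵥ v.2 = 0 := hi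
    linarith
  set p : R3 := (v.1 ⬝ᵥ v.1)⁻¹ • (v.1 ⨯₃ v.2) with hp
  have hpc : p ⨯₃ v.1 = v.2 := by
    have h1 : (v.1 ⨯₃ v.2) ⨯₃ v.1 = (v.1 ⬝ᵥ v.1) • v.2 - (v.1 ⬝ᵥ v.2) • v.1 := by
      ext i
      simp only [dotProduct, Fin.sum_univ_three, cross_apply, cons_val_zero, cons_val_one,
          cons_val, Pi.sub_apply, Pi.smul_apply, smul_eq_mul]
      fin_cases i <;> simp <;> ring
    rw [hp, map_smul, LinearMap.smul_apply, h1, hi', zero_smul, sub_zero, smul_smul,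
      inv_mul_cancel₀ hN, one_smul]
  set ℓ := mkLine p v.1 hv with hℓ
  have hdir : ∃ c : ℝ, c ≠ 0 ∧ v.1 = c • ℓ.dir := by
    have h0 : ℓ.pt ∈ ℓ.1 := (ℓ.mem_iff _).2 ⟨0, by simp⟩
    have h1 : ℓ.pt + ℓ.dir ∈ ℓ.1 := (ℓ.mem_iff _).2 ⟨1, by simp⟩
    obtain ⟨s, hs⟩ := (mem_mkLine p v.1 hv _).1 h0
    obtain ⟨t, ht⟩ := (mem_mkLine p v.1 hv _).1 h1
    have h2 : ℓ.dir = (t - s) • v.1 := by
      have : ℓ.dir = (ℓ.pt + ℓ.dir) - ℓ.pt := by abel
      rw [this, ht, hs, sub_smul]; abel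
    have h3 : t - s ≠ 0 := fun h0 => ℓ.dir_ne (by rw [h2, h0, zero_smul])
    exact ⟨(t - s)⁻¹, inv_ne_zero h3, by rw [h2, smul_smul, inv_mul_cancel₀ h3, one_smul]⟩
  obtain ⟨c, hc0, hc⟩ := hdir
  refine ⟨ℓ, c, hc0, Prod.ext hc ?_⟩
  have h0 : ℓ.pt ∈ ℓ.1 := (ℓ.mem_iff _).2 ⟨0, by simp⟩
  obtain ⟨s, hs⟩ := (mem_mkLine p v.1 hv _).1 h0
  show v.2 = c • (ℓ.pt ⨯₃ ℓ.dir)
  rw [← map_smul, ← hc, hs, cross_smul_dir, hpc]

end Pool.Agent.MP610b40
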