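import Pool.Agent.Lib.MP_610b40_an.Defs

/-!
# Schubert flips: rows, and the extreme band entries
-/

namespace Pool.Agent.Lib.MP_610b40_an

open Module

universe u

variable {F : Type u} [Field F]

/-- Rows `z 0, ..., z T` of the flip dynamics.  Even rows are the `x`-type rows. -/
structure Rows {V : Type u} [AddCommGroup V] [Module F V] (C : LinearMap.BilinForm F V)
    (n d T : ℕ) (z : ℕ → ZMod n → V) : Prop where
  iso : ∀ t ≤ T, ∀ a, C (z t a) (z t a) = 0
  orthE : ∀ t < T, Even t → ∀ a, ∀ j : ℕ, j < d → C (z t a) (z (t + 1) (a + (j : ZMod n))) = 0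
  orthO : ∀ t < T, Odd t → ∀ b, ∀ j : ℕ, j < d → C (z t b) (z (t + 1) (b - (j : ZMod n))) = 0
  ne : ∀ t, 1 ≤ t → t < T → ∀ a, C (z (t - 1) a) (z (t + 1) a) ≠ 0
  perpO : ∀ t, 1 ≤ t → t < T → Odd t → ∀ a v,
    (∀ j : ℕ, j < d → C v (z t (a + (j : ZMod n))) = 0) →
    ∃ α β : F, v = α • z (t - 1) a + β • z (t + 1) a
  perpE : ∀ t, 1 ≤ t → t < T → Even t → ∀ b v,
    (∀ j : ℕ, j < d → C v (z t (b - (j : ZMod n))) = 0) →
    ∃ α β : F, v = α • z (t - 1) b + β • z (t + 1) b

/-- If the vectors orthogonal to `d` vectors of a space of dimension `d + 2` are combinations of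
two vectors, no two of the `d` vectors are proportional. -/
theorem no_prop {V : Type u} [AddCommGroup V] [Module F V] [FiniteDimensional F V]
    {C : LinearMap.BilinForm F V} {d : ℕ} (hV : finrank F V = d + 2) {s : ℕ → V} {p q : V}
    (hperp : ∀ v, (∀ j : ℕ, j < d → C v (s j) = 0) → ∃ α β : F, v = α • p + β • q)
    {i0 i1 : ℕ} (h0 : i0 < d) (h1 : i1 < d) (h01 : i0 ≠ i1) (c : F) (hc : s i1 = c • s i0) :
    False := by
  classical
  let ψ : V →ₗ[F] ({j : Fin d // j ≠ ⟨i1, h1⟩} → F) :=
    LinearMap.pi fun j => C.flip (s j.1)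
  have hψ : ∀ v j, ψ v j = C v (s j.1) := fun v j => rfl
  have hker : LinearMap.ker ψ ≤ Submodule.span F {p, q} := by
    intro v hv
    rw [LinearMap.mem_ker] at hv
    have hv' : ∀ j : Fin d, j ≠ ⟨i1, h1⟩ → C v (s j) = 0 := by
      intro j hj
      have := congrFun hv ⟨j, hj⟩
      simpa [hψ] using this
    obtain ⟨α, β, rfl⟩ := hperp v (by
      intro j hj
      by_cases hj1 : j = i1
      · subst hj1
        have := hv' ⟨i0, h0⟩ (by
          intro h
          exact h01 (congrArg Fin.val h))
        rw [hc, map_smul]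
        simp only [smul_eq_mul]
        simp only at this
        rw [this, mul_zero]
      · exact hv' ⟨j, hj⟩ (by
          intro h
          exact hj1 (congrArg Fin.val h)))
    exact Submodule.add_mem _ (Submodule.smul_mem _ _ (Submodule.subset_span (by simp)))
      (Submodule.smul_mem _ _ (Submodule.subset_span (by simp)))
  have e1 : finrank F (LinearMap.ker ψ) ≤ 2 := by
    refine (Submodule.finrank_mono hker).trans ?_
    have := finrank_span_finset_le_card (R := F) ({p, q} : Finset V)
    refine le_trans (le_of_eq ?_) (this.trans (Finset.card_le_two))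
    rw [Set.finrank, Finset.coe_pair]
  have e2 := LinearMap.finrank_range_add_finrank_ker ψ
  have e3 : finrank F (LinearMap.range ψ) ≤ d - 1 := by
    refine (Submodule.finrank_le _).trans ?_
    rw [Module.finrank_pi, Fintype.card_subtype_compl]
    simp
  omega

theorem Rows.ind {V : Type u} [AddCommGroup V] [Module F V] [FiniteDimensional F V]
    {C : LinearMap.BilinForm F V} {n d T : ℕ} (hd : 2 ≤ d)
    (hV : finrank F V = d + 2) {z : ℕ → ZMod n → V} (R : Rows C n d T z) :
    ∀ t, 1 ≤ t → t < T → ∀ a, ∀ c : F, z t (a + 1) ≠ c • z t a := by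
  intro t h1 hT a c hc
  rcases Nat.even_or_odd t with ht | ht
  · refine no_prop (C := C) hV (s := fun j => z t (a + 1 - (j : ZMod n)))
      (R.perpE t h1 hT ht (a + 1)) (i0 := 1) (i1 := 0) (by omega) (by omega) (by omega) c ?_
    simpa using hc
  · refine no_prop (C := C) hV (s := fun j => z t (a + (j : ZMod n)))
      (R.perpO t h1 hT ht a) (i0 := 0) (i1 := 1) (by omega) (by omega) (by omega) c ?_
    simpa using hc

/-- An isotropic vector of a hyperbolic plane is proportional to one of the two basis vectors. -/
theorem zero_or_zero (h2 : (2 : F) ≠ 0) {V : Type u} [AddCommGroup V] [Module F V]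
    {C : LinearMap.BilinForm F V} (hC : ∀ u v, C u v = C v u) {p q y : V} (hp : C p p = 0)
    (hq : C q q = 0) (hpq : C p q ≠ 0) (hy : C y y = 0) {α β : F} (h : y = α • p + β • q) :
    α = 0 ∨ β = 0 := by
  rw [h] at hy
  simp only [map_add, map_smul, LinearMap.add_apply, LinearMap.smul_apply, smul_eq_mul, hp, hq,
    hC q p] at hy
  have : (2 * C p q) * (α * β) = 0 := by linear_combination hy
  rcases mul_eq_zero.1 this with h | h
  · exact absurd h (mul_ne_zero h2 hpq)
  · exact mul_eq_zero.1 h

/-- The core of the induction step. -/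
theorem ext_step (h2 : (2 : F) ≠ 0) {V : Type u} [AddCommGroup V] [Module F V]
    {C : LinearMap.BilinForm F V} (hC : ∀ u v, C u v = C v u) {p q y w : V} (hp : C p p = 0)
    (hq : C q q = 0) (hpq : C p q ≠ 0) (hy : C y y = 0) (hy0 : y ≠ 0)
    (hyq : ∀ c : F, y ≠ c • q) (hw : C y w = 0) (hpw : C p w ≠ 0 ∨ ∀ c : F, y ≠ c • p)
    (h : ∃ α β : F, y = α • p + β • q) : False := by
  obtain ⟨α, β, h⟩ := h
  rcases zero_or_zero h2 hC hp hq hpq hy h with h0 | h0
  · rw [h0, zero_smul, zero_add] at h
    exact hyq β h
  · rw [h0, zero_smul, add_zero] at h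
    rcases hpw with hpw | hpw
    · rw [h, map_smul, LinearMap.smul_apply, smul_eq_mul] at hw
      rcases mul_eq_zero.1 hw with h3 | h3
      · rw [h3, zero_smul] at h
        exact hy0 h
      · exact hpw h3
    · exact hpw α h

theorem Rows.ext (h2 : (2 : F) ≠ 0) {V : Type u} [AddCommGroup V] [Module F V]
    [FiniteDimensional F V]
    {C : LinearMap.BilinForm F V} (hC : ∀ u v, C u v = C v u) {n d T : ℕ} (hd : 2 ≤ d)
    (hV : finrank F V = d + 2) {z : ℕ → ZMod n → V} (R : Rows C n d T z)
    {M : V} (h0 : ∀ a, z 0 a = M) :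
    (∀ t, 1 ≤ t → t + 1 < T → Even t → ∀ a,
      C (z t a) (z (t + 1) (a + (d : ZMod n))) ≠ 0 ∧ C (z t a) (z (t + 1) (a - 1)) ≠ 0) ∧
    (∀ t, 1 ≤ t → t + 1 < T → Odd t → ∀ b,
      C (z t b) (z (t + 1) (b - (d : ZMod n))) ≠ 0 ∧ C (z t b) (z (t + 1) (b + 1)) ≠ 0) := by
  have hind := R.ind hd hV
  have hind2 : ∀ t, 1 ≤ t → t < T → ∀ a, ∀ c : F, z t a ≠ c • z t (a + 1) := by
    intro t ht1 htT a c hc
    have hz : z t a ≠ 0 := by
      intro hz
      rcases Nat.eq_zero_or_pos (t - 1) with h | h
      · have : t = 1 := by omega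
        subst this
        have h01 := hind 1 le_rfl htT (a - 1) 0
        rw [zero_smul, sub_add_cancel] at h01
        exact h01 hz
      · have h01 := hind t ht1 htT (a - 1) 0
        rw [zero_smul, sub_add_cancel] at h01
        exact h01 hz
    have hc0 : c ≠ 0 := fun h => hz (by rw [hc, h, zero_smul])
    apply hind t ht1 htT a c⁻¹
    rw [hc, smul_smul, inv_mul_cancel₀ hc0, one_smul]
  have hne0 : ∀ t, 1 ≤ t → t < T → ∀ a, z (t + 1) a ≠ 0 := by
    intro t ht1 htT a hz
    apply R.ne t ht1 htT a
    rw [hz, map_zero]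
  -- row 2 is not proportional to `M`
  have hM : ∀ a b : ZMod n, 1 < T → ∀ c : F, z 2 a ≠ c • z 0 b := by
    intro a b hT c hc
    have h1 := R.ne 1 le_rfl hT a
    simp only [Nat.sub_self] at h1
    apply h1
    show C (z 0 a) (z 2 a) = 0
    rw [hc, map_smul, h0, h0, ← h0 a, R.iso 0 (Nat.zero_le _), smul_zero]
  suffices H : ∀ t, 1 ≤ t → t + 1 < T →
      ((Even t → ∀ a, C (z t a) (z (t + 1) (a + (d : ZMod n))) ≠ 0 ∧
        C (z t a) (z (t + 1) (a - 1)) ≠ 0) ∧
      (Odd t → ∀ b, C (z t b) (z (t + 1) (b - (d : ZMod n))) ≠ 0 ∧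
        C (z t b) (z (t + 1) (b + 1)) ≠ 0)) by
    exact ⟨fun t h1 hT ht => (H t h1 hT).1 ht, fun t h1 hT ht => (H t h1 hT).2 ht⟩
  intro t
  induction t with
  | zero => intro h; omega
  | succ t ih =>
    intro _ hT
    have hdc : ((d - 1 : ℕ) : ZMod n) = (d : ZMod n) - 1 := by
      rw [Nat.cast_sub (by omega), Nat.cast_one]
    constructor
    · -- `t + 1` even
      intro hev a
      have hodd : Odd t := by
        rcases Nat.even_or_odd t with h | h
        · exact absurd hev (Nat.not_even_iff_odd.2 h.add_one)
        · exact h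
      have ht1 : 1 ≤ t := hodd.pos
      obtain ⟨-, ih2⟩ := ih ht1 (by omega)
      constructor
      · intro hcon
        refine ext_step h2 hC (p := z t (a + (d : ZMod n) - 1))
          (q := z (t + 2) (a + (d : ZMod n) - 1)) (y := z (t + 2) (a + (d : ZMod n)))
          (w := z (t + 1) (a + (d : ZMod n))) (R.iso t (by omega) _)
          (R.iso (t + 2) (by omega) _) (R.ne (t + 1) (by omega) (by omega) _)
          (R.iso (t + 2) (by omega) _) (hne0 (t + 1) (by omega) (by omega) _) ?_ ?_ (Or.inl ?_) ?_
        · intro c hc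
          refine hind (t + 2) (by omega) (by omega) (a + (d : ZMod n) - 1) c ?_
          rw [sub_add_cancel]; exact hc
        · rw [hC]
          have := R.orthE (t + 1) (by omega) hev (a + (d : ZMod n)) 0 (by omega)
          simpa using this
        · have := (ih2 hodd (a + (d : ZMod n) - 1)).2
          rwa [sub_add_cancel] at this
        · refine R.perpE (t + 1) (by omega) (by omega) hev _ _ ?_
          intro j hj
          rw [hC]
          rcases Nat.lt_or_ge (j + 1) d with hj' | hj'
          · have := R.orthE (t + 1) (by omega) hev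
              (a + (d : ZMod n) - 1 - (j : ZMod n)) (j + 1) hj'
            have e : a + (d : ZMod n) - 1 - (j : ZMod n) + ((j + 1 : ℕ) : ZMod n) =
                a + (d : ZMod n) := by push_cast; ring
            rwa [e] at this
          · have ej : j = d - 1 := by omega
            have e : a + (d : ZMod n) - 1 - (j : ZMod n) = a := by
              rw [ej, hdc]; ring
            rw [e]; exact hcon
      · intro hcon
        refine ext_step h2 hC (p := z t a) (q := z (t + 2) a) (y := z (t + 2) (a - 1))
          (w := z (t + 1) (a - (d : ZMod n))) (R.iso t (by omega) _)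
          (R.iso (t + 2) (by omega) _) (R.ne (t + 1) (by omega) (by omega) _)
          (R.iso (t + 2) (by omega) _) (hne0 (t + 1) (by omega) (by omega) _) ?_ ?_ (Or.inl ?_) ?_
        · intro c hc
          refine hind2 (t + 2) (by omega) (by omega) (a - 1) c ?_
          rw [sub_add_cancel]; exact hc
        · rw [hC]
          have := R.orthE (t + 1) (by omega) hev (a - (d : ZMod n)) (d - 1) (by omega)
          have e : a - (d : ZMod n) + ((d - 1 : ℕ) : ZMod n) = a - 1 := by rw [hdc]; ring
          rwa [e] at this
        · exact (ih2 hodd a).1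
        · refine R.perpE (t + 1) (by omega) (by omega) hev _ _ ?_
          intro j hj
          rw [hC]
          rcases Nat.eq_zero_or_pos j with rfl | hj'
          · simpa using hcon
          · have := R.orthE (t + 1) (by omega) hev (a - (j : ZMod n)) (j - 1) (by omega)
            have e : a - (j : ZMod n) + ((j - 1 : ℕ) : ZMod n) = a - 1 := by
              rw [Nat.cast_sub hj', Nat.cast_one]; ring
            rwa [e] at this
    · -- `t + 1` odd
      intro hod b
      have hprev : ∀ b' : ZMod n, (t = 0 → ∀ c : F, ∀ a : ZMod n, z (t + 2) a ≠ c • z t b') := by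
        intro b' ht c a
        subst ht
        exact hM _ _ (by omega) c
      have hev : Even t := by
        rcases Nat.even_or_odd t with h | h
        · exact h
        · exact absurd hod (Nat.not_odd_iff_even.2 h.add_one)
      constructor
      · intro hcon
        refine ext_step h2 hC (p := z t (b - (d : ZMod n) + 1))
          (q := z (t + 2) (b - (d : ZMod n) + 1)) (y := z (t + 2) (b - (d : ZMod n)))
          (w := z (t + 1) (b - (d : ZMod n))) (R.iso t (by omega) _)
          (R.iso (t + 2) (by omega) _) (R.ne (t + 1) (by omega) (by omega) _)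
          (R.iso (t + 2) (by omega) _) (hne0 (t + 1) (by omega) (by omega) _) ?_ ?_ ?_ ?_
        · intro c hc
          exact hind2 (t + 2) (by omega) (by omega) (b - (d : ZMod n)) c hc
        · rw [hC]
          have := R.orthO (t + 1) (by omega) hod (b - (d : ZMod n)) 0 (by omega)
          simpa using this
        · rcases Nat.eq_zero_or_pos t with ht | ht
          · exact Or.inr fun c => hprev _ ht c _
          · left
            have := ((ih ht (by omega)).1 hev (b - (d : ZMod n) + 1)).2
            rwa [add_sub_cancel_right] at this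
        · refine R.perpO (t + 1) (by omega) (by omega) hod _ _ ?_
          intro j hj
          rw [hC]
          rcases Nat.lt_or_ge (j + 1) d with hj' | hj'
          · have := R.orthO (t + 1) (by omega) hod
              (b - (d : ZMod n) + 1 + (j : ZMod n)) (j + 1) hj'
            have e : b - (d : ZMod n) + 1 + (j : ZMod n) - ((j + 1 : ℕ) : ZMod n) =
                b - (d : ZMod n) := by push_cast; ring
            rwa [e] at this
          · have ej : j = d - 1 := by omega
            have e : b - (d : ZMod n) + 1 + (j : ZMod n) = b := by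
              rw [ej, hdc]; ring
            rw [e]; exact hcon
      · intro hcon
        refine ext_step h2 hC (p := z t b) (q := z (t + 2) b) (y := z (t + 2) (b + 1))
          (w := z (t + 1) (b + (d : ZMod n))) (R.iso t (by omega) _)
          (R.iso (t + 2) (by omega) _) (R.ne (t + 1) (by omega) (by omega) _)
          (R.iso (t + 2) (by omega) _) (hne0 (t + 1) (by omega) (by omega) _) ?_ ?_ ?_ ?_
        · intro c hc
          exact hind (t + 2) (by omega) (by omega) b c hc
        · rw [hC]
          have := R.orthO (t + 1) (by omega) hod (b + (d : ZMod n)) (d - 1) (by omega)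
          have e : b + (d : ZMod n) - ((d - 1 : ℕ) : ZMod n) = b + 1 := by rw [hdc]; ring
          rwa [e] at this
        · rcases Nat.eq_zero_or_pos t with ht | ht
          · exact Or.inr fun c => hprev _ ht c _
          · left
            exact ((ih ht (by omega)).1 hev b).1
        · refine R.perpO (t + 1) (by omega) (by omega) hod _ _ ?_
          intro j hj
          rw [hC]
          rcases Nat.eq_zero_or_pos j with rfl | hj'
          · simpa using hcon
          · have := R.orthO (t + 1) (by omega) hod (b + (j : ZMod n)) (j - 1) (by omega)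
            have e : b + (j : ZMod n) - ((j - 1 : ℕ) : ZMod n) = b + 1 := by
              rw [Nat.cast_sub hj', Nat.cast_one]; ring
            rwa [e] at this

end Pool.Agent.Lib.MP_610b40_an
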