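import Pool.Agent.Lib.MP_610b40_an.Transversals
import Pool.Agent.Lib.MP_610b40_an.Ext

set_option autoImplicit false

/-!
# From Schubert flips of lines to the rows of the flip dynamics
-/

namespace Pool.Agent.MP610b40

open Matrix Module Pool.Agent.Lib.MP_610b40_an

universe u

/-- The set of common transversals of `L (i - 3)`, `L (i - 1)`, `L (i + 1)`, `L (i + 3)`. -/
def transversals {m : ℕ} (L : ZMod m → Line) (i : ZMod m) : Set Line :=
  {T | Meets T (L (i - 3)) ∧ Meets T (L (i - 1)) ∧ Meets T (L (i + 1)) ∧ Meets T (L (i + 3))}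

/-- The configurations of the problem: `L i` meets `L (i - 3)`, `L (i - 1)`, `L (i + 1)` and
`L (i + 3)` for every `i`. -/
def InX {m : ℕ} (L : ZMod m → Line) : Prop := ∀ i, L i ∈ transversals L i

/-- The Schubert flip of `L` at `i` is defined and replaces `L i` by `T`: the four lines
`L (i ± 1)`, `L (i ± 3)` have exactly two common transversals, and `T` is the one which is
not `L i`. -/
def IsFlip {m : ℕ} (L : ZMod m → Line) (i : ZMod m) (T : Line) : Prop :=
  (transversals L i).ncard = 2 ∧ T ∈ transversals L i ∧ T ≠ L i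

/-- `L'` is obtained from `L` by flipping simultaneously all lines whose index is in the class
`P` (all these flips being defined). -/
def FlipClass {m : ℕ} (P : ZMod m → Prop) (L L' : ZMod m → Line) : Prop :=
  ∀ i, (P i → IsFlip L i (L' i)) ∧ (¬ P i → L' i = L i)

/-- The Pluecker form as a bilinear form. -/
def plForm : LinearMap.BilinForm ℝ PV :=
  LinearMap.mk₂ ℝ pB pB_add_left pB_smul_left pB_add_right pB_smul_right

theorem plForm_apply (u v : PV) : plForm u v = pB u v := rfl

theorem plForm_comm (u v : PV) : plForm u v = plForm v u := pB_comm u v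

theorem plForm_nondeg (v : PV) (h : ∀ u, plForm v u = 0) : v = 0 := pB_nondeg h

theorem finrank_PV : finrank ℝ PV = 4 + 2 := by
  rw [Module.finrank_prod, Module.finrank_fin_fun]

/-- Doubling, `ZMod n → ZMod (2 n)`. -/
def dbl (n : ℕ) : ZMod n →+ ZMod (2 * n) :=
  ZMod.lift n ⟨zmultiplesHom (ZMod (2 * n)) 2, by
    simp only [zmultiplesHom_apply, natCast_zsmul, nsmul_eq_mul]
    have h : ((2 * n : ℕ) : ZMod (2 * n)) = 0 := ZMod.natCast_self _
    rw [Nat.cast_mul] at h
    exact (mul_comm _ _).trans h⟩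

theorem dbl_natCast (n j : ℕ) : dbl n (j : ZMod n) = 2 * (j : ZMod (2 * n)) := by
  have h : dbl n (((j : ℕ) : ℤ) : ZMod n) = _ := ZMod.lift_coe n _ _
  rw [Int.cast_natCast] at h
  rw [h]
  simp [mul_comm]

theorem exists_dbl (n : ℕ) [NeZero n] (i : ZMod (2 * n)) (hi : Even i) : ∃ a, i = dbl n a := by
  obtain ⟨r, hr⟩ := hi
  refine ⟨((r.val : ℕ) : ZMod n), ?_⟩
  rw [dbl_natCast, ZMod.natCast_zmod_val, hr]; ring

theorem even_dbl (n : ℕ) [NeZero n] (a : ZMod n) : Even (dbl n a) := by
  have : a = ((a.val : ℕ) : ZMod n) := by rw [ZMod.natCast_zmod_val]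
  rw [this, dbl_natCast]
  exact even_two_mul _

theorem not_even_one (n : ℕ) : ¬ Even (1 : ZMod (2 * n)) := by
  rintro ⟨r, hr⟩
  have h2 : (2 : ℕ) ∣ 2 * n := ⟨n, rfl⟩
  have := congrArg (ZMod.castHom h2 (ZMod 2)) hr
  rw [map_one, map_add] at this
  generalize ZMod.castHom h2 (ZMod 2) r = x at this
  revert x; decide

theorem not_even_iff {n : ℕ} (hn : n ≠ 0) (i : ZMod (2 * n)) : ¬ Even i ↔ Even (i + 1) := by
  have : NeZero n := ⟨hn⟩
  constructor
  · intro h
    have hi : i = ((i.val : ℕ) : ZMod (2 * n)) := by rw [ZMod.natCast_zmod_val]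
    rcases Nat.even_or_odd i.val with ⟨r, hr⟩ | ⟨r, hr⟩
    · exfalso
      apply h
      rw [hi, hr]
      exact ⟨r, by push_cast; ring⟩
    · rw [hi, hr]
      exact ⟨r + 1, by push_cast; ring⟩
  · intro h h'
    exact not_even_one n (by simpa using h.sub h')

theorem even_add_one_iff {n : ℕ} (hn : n ≠ 0) (i : ZMod (2 * n)) : Even (i + 1) ↔ ¬ Even i :=
  (not_even_iff hn i).symm

theorem even_sub_one_iff {n : ℕ} (hn : n ≠ 0) (i : ZMod (2 * n)) : Even (i - 1) ↔ ¬ Even i := by
  have h := even_add_one_iff hn (i - 1)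
  rw [sub_add_cancel] at h
  tauto

theorem even_add_three_iff {n : ℕ} (hn : n ≠ 0) (i : ZMod (2 * n)) :
    Even (i + 3) ↔ ¬ Even i := by
  have h : i + 3 = i + 1 + 1 + 1 := by ring
  rw [h, even_add_one_iff hn, even_add_one_iff hn, even_add_one_iff hn]
  tauto

theorem even_sub_three_iff {n : ℕ} (hn : n ≠ 0) (i : ZMod (2 * n)) :
    Even (i - 3) ↔ ¬ Even i := by
  have h : i - 3 = i - 1 - 1 - 1 := by ring
  rw [h, even_sub_one_iff hn, even_sub_one_iff hn, even_sub_one_iff hn]
  tauto

/-- A flip of one parity class preserves the set `X`. -/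
theorem InX.flip {n : ℕ} (hn : n ≠ 0) {q : Prop} {L L' : ZMod (2 * n) → Line} (_h : InX L)
    (hf : FlipClass (fun i => (Even i ↔ q)) L L') : InX L' := by
  intro i
  by_cases hi : (Even i ↔ q)
  · obtain ⟨-, ⟨h1, h2, h3, h4⟩, -⟩ := (hf i).1 hi
    refine ⟨?_, ?_, ?_, ?_⟩
    · rw [(hf (i - 3)).2 (by beta_reduce; rw [even_sub_three_iff hn]; tauto)]; exact h1
    · rw [(hf (i - 1)).2 (by beta_reduce; rw [even_sub_one_iff hn]; tauto)]; exact h2
    · rw [(hf (i + 1)).2 (by beta_reduce; rw [even_add_one_iff hn]; tauto)]; exact h3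
    · rw [(hf (i + 3)).2 (by beta_reduce; rw [even_add_three_iff hn]; tauto)]; exact h4
  · rw [(hf i).2 hi]
    refine ⟨?_, ?_, ?_, ?_⟩
    · obtain ⟨-, ⟨-, -, -, h4⟩, -⟩ := (hf (i - 3)).1 (by beta_reduce; rw [even_sub_three_iff hn]; tauto)
      rw [sub_add_cancel] at h4
      exact h4.symm
    · obtain ⟨-, ⟨-, -, h3, -⟩, -⟩ := (hf (i - 1)).1 (by beta_reduce; rw [even_sub_one_iff hn]; tauto)
      rw [sub_add_cancel] at h3
      exact h3.symm
    · obtain ⟨-, ⟨-, h2, -, -⟩, -⟩ := (hf (i + 1)).1 (by beta_reduce; rw [even_add_one_iff hn]; tauto)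
      rw [add_sub_cancel_right] at h2
      exact h2.symm
    · obtain ⟨-, ⟨h1, -, -, -⟩, -⟩ := (hf (i + 3)).1 (by beta_reduce; rw [even_add_three_iff hn]; tauto)
      rw [add_sub_cancel_right] at h1
      exact h1.symm

/-- The flip data at one line. -/
theorem IsFlip.spec {m : ℕ} {L : ZMod m → Line} (h : InX L) {i : ZMod m} {T : Line}
    (hf : IsFlip L i T) :
    pB (L i).pl T.pl ≠ 0 ∧ ∀ v : PV, pB v (L (i - 3)).pl = 0 → pB v (L (i - 1)).pl = 0 →
      pB v (L (i + 1)).pl = 0 → pB v (L (i + 3)).pl = 0 →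
      ∃ a b : ℝ, v = a • (L i).pl + b • T.pl := by
  obtain ⟨hc, hT, hne⟩ := hf
  have hall : ∀ S ∈ transversals L i, S = L i ∨ S = T := by
    obtain ⟨x, y, hxy, hS⟩ := Set.ncard_eq_two.1 hc
    have h1 := h i
    rw [hS] at h1 hT ⊢
    simp only [Set.mem_insert_iff, Set.mem_singleton_iff] at h1 hT ⊢
    intro S hS'
    rcases h1 with h1 | h1 <;> rcases hT with h2 | h2
    · exact absurd (h2.trans h1.symm) hne
    · rw [h1, h2]; exact hS'
    · rw [h1, h2]; exact hS'.symm
    · exact absurd (h2.trans h1.symm) hne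
  let A : Fin 4 → Line := ![L (i - 3), L (i - 1), L (i + 1), L (i + 3)]
  have hA : ∀ S : Line, (∀ k, Meets S (A k)) ↔ S ∈ transversals L i := by
    intro S
    constructor
    · intro hS
      exact ⟨hS 0, hS 1, hS 2, hS 3⟩
    · rintro ⟨h1, h2, h3, h4⟩ k
      fin_cases k
      · exact h1
      · exact h2
      · exact h3
      · exact h4
  have hA1 := (hA (L i)).2 (h i)
  have hA2 := (hA T).2 hT
  have hA3 : ∀ S : Line, (∀ k, Meets S (A k)) → S = L i ∨ S = T :=
    fun S hS => hall S ((hA S).1 hS)
  refine ⟨pB_ne_zero_of_two A (L i) T hne.symm hA1 hA2 hA3, fun v h1 h2 h3 h4 => ?_⟩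
  refine exists_combination_of_two A (L i) T hne.symm hA1 hA2 hA3 v (fun k => ?_)
  fin_cases k
  · exact h1
  · exact h2
  · exact h3
  · exact h4

/-- The index of the line represented by the `a`-th vector of the row `t`. -/
def idx (n t : ℕ) (a : ZMod n) : ZMod (2 * n) := if Even t then dbl n a else dbl n a - 3

theorem idx_even {n t : ℕ} (h : Even t) (a : ZMod n) : idx n t a = dbl n a := by
  rw [idx, if_pos h]

theorem idx_odd {n t : ℕ} (h : ¬ Even t) (a : ZMod n) : idx n t a = dbl n a - 3 := by
  rw [idx, if_neg h]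

theorem even_idx {n : ℕ} (hn : n ≠ 0) (t : ℕ) (a : ZMod n) : Even (idx n t a) ↔ Even t := by
  have : NeZero n := ⟨hn⟩
  by_cases h : Even t
  · rw [idx_even h]
    simp [even_dbl, h]
  · rw [idx_odd h, even_sub_three_iff hn]
    simp [even_dbl, h]

/-- The rows. -/
noncomputable def row {n : ℕ} (L : ℕ → ZMod (2 * n) → Line) (t : ℕ) (a : ZMod n) : PV :=
  (L (t - 1) (idx n t a)).pl

theorem rows_of_flips {n N : ℕ} (hn : n ≠ 0) (L : ℕ → ZMod (2 * n) → Line) (hX : InX (L 0))
    (hstep : ∀ s < N, FlipClass (fun i => (Even i ↔ Even s)) (L s) (L (s + 1))) :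
    Rows plForm n 4 (N + 1) (row L) := by
  -- all the configurations are in `X`
  have hIn : ∀ t ≤ N, InX (L t) := by
    intro t
    induction t with
    | zero => intro _; exact hX
    | succ t ih => intro ht; exact (ih (by omega)).flip hn (hstep t (by omega))
  -- the lines of the row `t` do not move in step `t`
  have hst : ∀ t ≤ N, ∀ a, L (t - 1) (idx n t a) = L t (idx n t a) := by
    intro t ht a
    rcases Nat.eq_zero_or_pos t with rfl | h0
    · rfl
    · have h1 := (hstep (t - 1) (by omega) (idx n t a)).2 (by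
        beta_reduce
        rw [even_idx hn]
        have : Even t ↔ ¬ Even (t - 1) := by
          rw [Nat.even_sub h0]; simp
        tauto)
      rw [Nat.sub_add_cancel h0] at h1
      exact h1.symm
  have hrow : ∀ t ≤ N, ∀ a, row L t a = (L t (idx n t a)).pl := by
    intro t ht a
    rw [row, hst t ht a]
  have hrow' : ∀ t a, row L (t + 1) a = (L t (idx n (t + 1) a)).pl := fun t a => rfl
  have hflip : ∀ t, t < N → ∀ a, IsFlip (L t) (idx n t a) (L (t + 1) (idx n t a)) :=
    fun t ht a => (hstep t ht _).1 (even_idx hn t a)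
  have hidx2 : ∀ t a, idx n (t + 2) a = idx n t a := by
    intro t a
    unfold idx
    have : Even (t + 2) ↔ Even t := by
      rw [Nat.even_add]; simp
    simp only [this]
  have hmeetE : ∀ t, Even t → ∀ (a : ZMod n) (j : ℕ), j < 4 →
      idx n (t + 1) (a + (j : ZMod n)) = idx n t a + (2 * (j : ZMod (2 * n)) - 3) := by
    intro t ht a j _
    rw [idx_even ht, idx_odd (by rw [Nat.even_add_one]; tauto), map_add, dbl_natCast]
    ring
  have hmeetO : ∀ t, ¬ Even t → ∀ (a : ZMod n) (j : ℕ), j < 4 →
      idx n (t + 1) (a - (j : ZMod n)) = idx n t a + (3 - 2 * (j : ZMod (2 * n))) := by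
    intro t ht a j _
    rw [idx_odd ht, idx_even (by rw [Nat.even_add_one]; tauto), map_sub, dbl_natCast]
    ring
  have hcases : ∀ j : ℕ, j < 4 → j = 0 ∨ j = 1 ∨ j = 2 ∨ j = 3 := by intro j hj; omega
  constructor
  · intro t _ a
    exact Line.pl_isotropic _
  · intro t ht he a j hj
    rw [hrow t (by omega), hrow', hmeetE t he a j hj, plForm_apply]
    apply pB_eq_zero_of_meets
    obtain ⟨h1, h2, h3, h4⟩ := hIn t (by omega) (idx n t a)
    rcases hcases j hj with rfl | rfl | rfl | rfl
    · convert h1 using 2; push_cast; ring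
    · convert h2 using 2; push_cast; ring
    · convert h3 using 2; push_cast; ring
    · convert h4 using 2; push_cast; ring
  · intro t ht he b j hj
    rw [hrow t (by omega), hrow', hmeetO t (by rwa [Nat.not_even_iff_odd]) b j hj, plForm_apply]
    apply pB_eq_zero_of_meets
    obtain ⟨h1, h2, h3, h4⟩ := hIn t (by omega) (idx n t b)
    rcases hcases j hj with rfl | rfl | rfl | rfl
    · convert h4 using 2; push_cast; ring
    · convert h3 using 2; push_cast; ring
    · convert h2 using 2; push_cast; ring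
    · convert h1 using 2; push_cast; ring
  · intro t h1 hT a
    obtain ⟨s, rfl⟩ : ∃ s, t = s + 1 := ⟨t - 1, by omega⟩
    have h2 := ((hflip s (by omega) a).spec (hIn s (by omega))).1
    rw [Nat.add_sub_cancel, hrow s (by omega), hrow', hidx2]
    exact h2
  · intro t h1 hT ho a v hv
    obtain ⟨s, rfl⟩ : ∃ s, t = s + 1 := ⟨t - 1, by omega⟩
    have hs : Even s := by
      rw [Nat.odd_add_one, Nat.not_odd_iff_even] at ho; exact ho
    have h2 := ((hflip s (by omega) a).spec (hIn s (by omega))).2 v
    rw [Nat.add_sub_cancel, hrow s (by omega), hrow', hidx2]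
    have hv' : ∀ j : ℕ, j < 4 →
        pB v (L s (idx n s a + (2 * (j : ZMod (2 * n)) - 3))).pl = 0 := by
      intro j hj
      have := hv j hj
      rwa [hrow', hmeetE s hs a j hj] at this
    apply h2
    · have := hv' 0 (by omega)
      convert this using 4; push_cast; ring
    · have := hv' 1 (by omega)
      convert this using 4; push_cast; ring
    · have := hv' 2 (by omega)
      convert this using 4; push_cast; ring
    · have := hv' 3 (by omega)
      convert this using 4; push_cast; ring
  · intro t h1 hT he a v hv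
    obtain ⟨s, rfl⟩ : ∃ s, t = s + 1 := ⟨t - 1, by omega⟩
    have hs : ¬ Even s := by
      rw [Nat.even_add_one] at he; exact he
    have h2 := ((hflip s (by omega) a).spec (hIn s (by omega))).2 v
    rw [Nat.add_sub_cancel, hrow s (by omega), hrow', hidx2]
    have hv' : ∀ j : ℕ, j < 4 →
        pB v (L s (idx n s a + (3 - 2 * (j : ZMod (2 * n))))).pl = 0 := by
      intro j hj
      have := hv j hj
      rwa [hrow', hmeetO s hs a j hj] at this
    apply h2
    · have := hv' 3 (by omega)
      convert this using 4; push_cast; ring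
    · have := hv' 2 (by omega)
      convert this using 4; push_cast; ring
    · have := hv' 1 (by omega)
      convert this using 4; push_cast; ring
    · have := hv' 0 (by omega)
      convert this using 4; push_cast; ring

/-- If the vectors orthogonal to `d` vectors of a space of dimension `d + 2` are combinations of
two vectors, the `d` vectors are linearly independent. -/
theorem linearIndependent_of_perp {F V : Type*} [Field F] [AddCommGroup V] [Module F V]
    [FiniteDimensional F V] {C : LinearMap.BilinForm F V} {d : ℕ} (hV : finrank F V = d + 2)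
    {s : Fin d → V} {p q : V}
    (hperp : ∀ v, (∀ j, C v (s j) = 0) → ∃ α β : F, v = α • p + β • q) :
    LinearIndependent F s := by
  classical
  let ψ : V →ₗ[F] (Fin d → F) := LinearMap.pi fun j => C.flip (s j)
  have hψ : ∀ v j, ψ v j = C v (s j) := fun v j => rfl
  have hker : LinearMap.ker ψ ≤ Submodule.span F {p, q} := by
    intro v hv
    rw [LinearMap.mem_ker] at hv
    obtain ⟨α, β, rfl⟩ := hperp v (fun j => congrFun hv j)
    exact Submodule.add_mem _ (Submodule.smul_mem _ _ (Submodule.subset_span (by simp)))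
      (Submodule.smul_mem _ _ (Submodule.subset_span (by simp)))
  have e1 : finrank F (LinearMap.ker ψ) ≤ 2 := by
    refine (Submodule.finrank_mono hker).trans ?_
    have := finrank_span_finset_le_card (R := F) ({p, q} : Finset V)
    refine le_trans (le_of_eq ?_) (this.trans (Finset.card_le_two))
    rw [Set.finrank, Finset.coe_pair]
  have e2 := LinearMap.finrank_range_add_finrank_ker ψ
  have e3 : LinearMap.range ψ = ⊤ := by
    apply Submodule.eq_top_of_finrank_eq
    have := Submodule.finrank_le (LinearMap.range ψ)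
    rw [Module.finrank_fin_fun] at this ⊢
    omega
  rw [Fintype.linearIndependent_iff]
  intro g hg i
  obtain ⟨v, hv⟩ : ∃ v, ψ v = Pi.single i 1 := by
    have : Pi.single i (1 : F) ∈ LinearMap.range ψ := by rw [e3]; trivial
    exact this
  have h1 : C v (∑ j, g j • s j) = 0 := by rw [hg, map_zero]
  rw [map_sum] at h1
  rw [Finset.sum_eq_single i] at h1
  · rw [map_smul, ← hψ, hv] at h1
    simpa using h1
  · intro j _ hj
    rw [map_smul, ← hψ, hv]
    simp [hj]
  · simp

/-- The linear independence of the windows of odd rows. -/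
theorem linInd_odd {F V : Type u} [Field F] [AddCommGroup V] [Module F V]
    [FiniteDimensional F V] {C : LinearMap.BilinForm F V} {n d T : ℕ}
    (hV : finrank F V = d + 2) {z : ℕ → ZMod n → V} (R : Rows C n d T z) (t : ℕ) (ho : Odd t)
    (hT : t < T) (a : ZMod n) :
    LinearIndependent F (fun i : Fin d => z t (a + ((i : ℕ) : ZMod n))) := by
  apply linearIndependent_of_perp (C := C) hV (p := z (t - 1) a) (q := z (t + 1) a)
  intro v hv
  exact R.perpO t ho.pos hT ho a v (fun j hj => hv ⟨j, hj⟩)

/-- The linear independence of the windows of even rows. -/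
theorem linInd_even {F V : Type u} [Field F] [AddCommGroup V] [Module F V]
    [FiniteDimensional F V] {C : LinearMap.BilinForm F V} {n d T : ℕ}
    (hV : finrank F V = d + 2) {z : ℕ → ZMod n → V} (R : Rows C n d T z) (t : ℕ) (he : Even t)
    (h1 : 1 ≤ t) (hT : t < T) (a : ZMod n) :
    LinearIndependent F (fun i : Fin d => z t (a - ((i : ℕ) : ZMod n))) := by
  apply linearIndependent_of_perp (C := C) hV (p := z (t - 1) a) (q := z (t + 1) a)
  intro v hv
  exact R.perpE t h1 hT he a v (fun j hj => hv ⟨j, hj⟩)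

/-- The last step: from proportional Pluecker vectors to equal lines. -/
theorem even_lines_eq {n : ℕ} (hn : n ≠ 0) (L : ZMod (2 * n) → Line) (v : PV)
    (hv : ∀ a : ZMod n, ∃ c : ℝ, v = c • (L (dbl n a)).pl) (hv0 : v ≠ 0) (i j : ZMod (2 * n))
    (hi : Even i) (hj : Even j) : L i = L j := by
  have : NeZero n := ⟨hn⟩
  obtain ⟨a, rfl⟩ := exists_dbl n i hi
  obtain ⟨b, rfl⟩ := exists_dbl n j hj
  obtain ⟨c, hc⟩ := hv a
  obtain ⟨c', hc'⟩ := hv b
  have hc0 : c' ≠ 0 := by
    rintro rfl
    rw [zero_smul] at hc'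
    exact hv0 hc'
  apply eq_of_pl_smul (c := c'⁻¹ * c)
  rw [mul_smul, ← hc, hc', smul_smul, inv_mul_cancel₀ hc0, one_smul]

end Pool.Agent.MP610b40
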