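import Mathlib

set_option autoImplicit false

/-!
Isotropy of the Krylov space.
-/

open Polynomial Module

namespace Pool.Agent.Lib.MP_610b40_an

theorem krylov_isotropic {K W : Type*} [Field K] (h2 : (2 : K) ≠ 0) [AddCommGroup W] [Module K W]
    (S : LinearMap.BilinForm K W) (A : Module.End K W) (h0 : ∀ c, S c c = 0)
    (h1 : ∀ c, S (A c) c = 0) (c0 : W) (F G : K[X]) :
    S (aeval (A - 1) F c0) (aeval (A - 1) G c0) = 0 := by
  have hsk : ∀ c c', S c c' = - S c' c := by
    intro c c'
    have := h0 (c + c')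
    simp only [map_add, LinearMap.add_apply, h0] at this
    linear_combination this
  have hsk1 : ∀ c c', S (A c) c' = - S (A c') c := by
    intro c c'
    have := h1 (c + c')
    simp only [map_add, LinearMap.add_apply, h1] at this
    linear_combination this
  have hadj : ∀ c c', S ((A - 1) c) c' = S c ((A - 1) c') := by
    intro c c'
    simp only [LinearMap.sub_apply, Module.End.one_apply, map_sub]
    rw [hsk1, hsk c (A c')]
  set N := A - 1 with hN
  have hpow : ∀ (i : ℕ) c c', S ((N ^ i) c) c' = S c ((N ^ i) c') := by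
    intro i
    induction i with
    | zero => intro c c'; simp
    | succ i ih =>
      intro c c'
      rw [pow_succ, Module.End.mul_apply, ih, hadj, ← Module.End.mul_apply, ← pow_succ',
        pow_succ]
  have hbase : ∀ m : ℕ, S c0 ((N ^ m) c0) = 0 := by
    intro m
    have e1 := hpow m c0 c0
    rw [hsk ((N ^ m) c0) c0] at e1
    have : (2 : K) * S c0 ((N ^ m) c0) = 0 := by linear_combination -e1
    exact (mul_eq_zero.1 this).resolve_left h2
  have hmono : ∀ i m : ℕ, S ((N ^ i) c0) ((N ^ m) c0) = 0 := by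
    intro i m
    rw [hpow, ← Module.End.mul_apply, ← pow_add]
    exact hbase _
  have hG : ∀ (i : ℕ) (G : K[X]), S ((N ^ i) c0) (aeval N G c0) = 0 := by
    intro i G
    induction G using Polynomial.induction_on' with
    | add p q hp hq => rw [map_add, LinearMap.add_apply, map_add, hp, hq, add_zero]
    | monomial m a =>
      rw [aeval_monomial, Module.End.mul_apply, Module.algebraMap_end_apply, map_smul, hmono,
        smul_zero]
  induction F using Polynomial.induction_on' with
  | add p q hp hq =>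
    rw [map_add, LinearMap.add_apply, map_add, LinearMap.add_apply, hp, hq, add_zero]
  | monomial m a =>
    rw [aeval_monomial, Module.End.mul_apply, Module.algebraMap_end_apply, map_smul,
      LinearMap.smul_apply, hG, smul_zero]

section edges

variable {K V : Type*} [Field K] [AddCommGroup V] [Module K V] {B : LinearMap.BilinForm K V}
  {n : ℕ} [NeZero n] {w nn : ZMod n → V} {P Q : ZMod n → (ZMod n → K) →ₗ[K] V}
  {lam th : ZMod n → (ZMod n → K) →ₗ[K] K}

theorem sum_shift {G : Type*} [AddCommGroup G] (f : ZMod n → G) (b : ZMod n) :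
    ∑ j, f (j + b) = ∑ j, f j :=
  Equiv.sum_comp (Equiv.addRight b) f

/-- The pairing `S (c, c') = ∑ c_j θ_j (c')`. -/
noncomputable def pairS (th : ZMod n → (ZMod n → K) →ₗ[K] K) :
    LinearMap.BilinForm K (ZMod n → K) :=
  ∑ j, (LinearMap.mul K K).compl₁₂ (LinearMap.proj j) (th j)

theorem pairS_apply (c c' : ZMod n → K) : pairS th c c' = ∑ j, c j * th j c' := by
  simp [pairS, LinearMap.sum_apply]

theorem pairS_self (h2 : (2 : K) ≠ 0) (hs : ∀ u v, B u v = B v u)
    (hPw : ∀ a c, B (P a c) (w a) = c a)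
    (hP : ∀ a c, P (a + 1) c = P a c + lam a c • nn a)
    (hQ : ∀ j c, Q j c = Q (j - 1) c + th j c • w j)
    (hQn : ∀ a c, 2 * B (Q a c) (nn a) = B (P a c + P (a + 1) c) (nn a)) (c : ZMod n → K) :
    ∑ j, c j * th j c = 0 := by
  have e1 : ∀ j, c j * th j c = B (P j c) (Q j c) - B (P (j - 1 + 1) c) (Q (j - 1) c) := by
    intro j
    rw [sub_add_cancel, ← map_sub]
    have : Q j c - Q (j - 1) c = th j c • w j := by rw [hQ j c]; abel
    rw [this, map_smul, hPw, smul_eq_mul, mul_comm]
  rw [Finset.sum_congr rfl fun j _ => e1 j, Finset.sum_sub_distrib]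
  have e2 := sum_shift (fun j => B (P (j + 1) c) (Q j c)) (-1)
  simp only [← sub_eq_add_neg] at e2
  rw [e2, ← Finset.sum_sub_distrib]
  have e3 : ∀ j, 2 * (B (P j c) (Q j c) - B (P (j + 1) c) (Q j c)) =
      B (P j c) (P j c) - B (P (j + 1) c) (P (j + 1) c) := by
    intro j
    have h3 := hQn j c
    have h4 : B (P (j + 1) c) (Q j c) = B (P j c) (Q j c) + lam j c * B (Q j c) (nn j) := by
      rw [hP j c, map_add, LinearMap.add_apply, map_smul, LinearMap.smul_apply, smul_eq_mul,
        hs (nn j)]
    have h5 : B (P (j + 1) c) (P (j + 1) c) - B (P j c) (P j c) =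
        lam j c * B (P j c + P (j + 1) c) (nn j) := by
      rw [hP j c]
      simp only [map_add, LinearMap.add_apply, map_smul, LinearMap.smul_apply, smul_eq_mul]
      rw [hs (nn j) (P j c)]
      ring
    linear_combination (-2 : K) * h4 + h5 - (lam j c) * h3
  have e4 : 2 * ∑ j, (B (P j c) (Q j c) - B (P (j + 1) c) (Q j c)) = 0 := by
    rw [Finset.mul_sum, Finset.sum_congr rfl fun j _ => e3 j, Finset.sum_sub_distrib,
      sum_shift (fun j => B (P j c) (P j c)) 1, sub_self]
  exact (mul_eq_zero.1 e4).resolve_left h2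

theorem pairS_A (h2 : (2 : K) ≠ 0) (hs : ∀ u v, B u v = B v u)
    (hww : ∀ j, B (w j) (w j) = 0)
    (hQ : ∀ j c, Q j c = Q (j - 1) c + th j c • w j) (c : ZMod n → K) :
    ∑ j, B (Q j c) (w j) * th j c = 0 := by
  have e1 : ∀ j, 2 * (B (Q j c) (w j) * th j c) =
      B (Q j c) (Q j c) - B (Q (j - 1) c) (Q (j - 1) c) := by
    intro j
    have h1 : B (Q j c) (w j) = B (Q (j - 1) c) (w j) := by
      rw [hQ j c, map_add, LinearMap.add_apply, map_smul, LinearMap.smul_apply, hww, smul_zero,
        add_zero]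
    have h3 : B (Q j c) (Q j c) = B (Q (j - 1) c) (Q (j - 1) c) +
        2 * (th j c * B (Q (j - 1) c) (w j)) := by
      rw [hQ j c]
      simp only [map_add, LinearMap.add_apply, map_smul, LinearMap.smul_apply, smul_eq_mul, hww]
      rw [hs (w j) (Q (j - 1) c)]
      ring
    rw [h3, h1]
    ring
  have e4 : 2 * ∑ j, B (Q j c) (w j) * th j c = 0 := by
    rw [Finset.mul_sum, Finset.sum_congr rfl fun j _ => e1 j, Finset.sum_sub_distrib]
    have e2 := sum_shift (fun j => B (Q j c) (Q j c)) (-1)
    simp only [← sub_eq_add_neg] at e2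
    rw [e2, sub_self]
  exact (mul_eq_zero.1 e4).resolve_left h2

/-- The orthogonality relation `orth` of the polynomial data. -/
theorem orth_of_edges (h2 : (2 : K) ≠ 0) (hs : ∀ u v, B u v = B v u)
    (hww : ∀ j, B (w j) (w j) = 0)
    (hPw : ∀ a c, B (P a c) (w a) = c a)
    (hP : ∀ a c, P (a + 1) c = P a c + lam a c • nn a)
    (hQ : ∀ j c, Q j c = Q (j - 1) c + th j c • w j)
    (hQn : ∀ a c, 2 * B (Q a c) (nn a) = B (P a c + P (a + 1) c) (nn a))
    (A : Module.End K (ZMod n → K)) (hA : ∀ c j, A c j = B (Q j c) (w j)) (c0 : ZMod n → K)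
    (F G : K[X]) :
    ∑ j, (aeval (A - 1) F c0) j * th j (aeval (A - 1) G c0) = 0 := by
  rw [← pairS_apply]
  apply krylov_isotropic h2
  · intro c
    rw [pairS_apply]
    exact pairS_self h2 hs hPw hP hQ hQn c
  · intro c
    rw [pairS_apply]
    simp only [hA]
    exact pairS_A h2 hs hww hQ c

/-- The orthogonality relation `orthE` of the polynomial data. -/
theorem orthE_of_edges (hQ : ∀ j c, Q j c = Q (j - 1) c + th j c • w j) (e : V)
    (c : ZMod n → K) : ∑ j, B e (w j) * th j c = 0 := by
  have e1 : ∀ j, B e (w j) * th j c = B e (Q j c) - B e (Q (j - 1) c) := by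
    intro j
    rw [← map_sub]
    have : Q j c - Q (j - 1) c = th j c • w j := by rw [hQ j c]; abel
    rw [this, map_smul, smul_eq_mul, mul_comm]
  rw [Finset.sum_congr rfl fun j _ => e1 j, Finset.sum_sub_distrib]
  have e2 := sum_shift (fun j => B e (Q j c)) (-1)
  simp only [← sub_eq_add_neg] at e2
  rw [e2, sub_self]

end edges

end Pool.Agent.Lib.MP_610b40_an
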