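import Pool.Agent.Lib.MP_610b40_an.PD
import Pool.Agent.Lib.MP_610b40_an.Orth

set_option autoImplicit false

/-!
Existence of the polynomial data.
-/

open Polynomial Module

namespace Pool.Agent.Lib.MP_610b40_an

section basis

variable {K V : Type*} [Field K] [AddCommGroup V] [Module K V] [FiniteDimensional K V]

/-- evaluation against `d` vectors and `M`, `M0` -/
noncomputable def evMap (B : LinearMap.BilinForm K V) (M M0 : V) {d : ℕ} (s : Fin d → V) :
    V →ₗ[K] (Fin d → K) × K × K :=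
  (LinearMap.pi fun i => B.flip (s i)).prod ((B.flip M).prod (B.flip M0))

omit [FiniteDimensional K V] in
theorem evMap_apply (B : LinearMap.BilinForm K V) (M M0 : V) {d : ℕ} (s : Fin d → V) (v : V) :
    evMap B M M0 s v = (fun i => B v (s i), B v M, B v M0) := rfl

theorem evMap_injective (B : LinearMap.BilinForm K V) (hs : ∀ u v, B u v = B v u)
    (hnd : ∀ v, (∀ u, B v u = 0) → v = 0) {M M0 : V} (hMM : B M M = 0) (hM0 : B M0 M0 = 0)
    (hMM0 : B M M0 = 1) {d : ℕ} (hdim : finrank K V = d + 2) {s : Fin d → V}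
    (hsM : ∀ i, B (s i) M = 0) (hsM0 : ∀ i, B (s i) M0 = 0)
    (hind : ∀ α : Fin d → K, ∑ i, α i • s i = 0 → α = 0) :
    Function.Injective (evMap B M M0 s) := by
  -- the transpose map
  let T : ((Fin d → K) × K × K) →ₗ[K] V :=
    (Fintype.linearCombination K s).coprod
      ((LinearMap.toSpanSingleton K V M).coprod (LinearMap.toSpanSingleton K V M0))
  have hT : ∀ α β γ, T (α, β, γ) = ∑ i, α i • s i + (β • M + γ • M0) := by
    intro α β γ
    simp [T, Fintype.linearCombination_apply]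
  have hTinj : Function.Injective T := by
    rw [← LinearMap.ker_eq_bot, LinearMap.ker_eq_bot']
    rintro ⟨α, β, γ⟩ h
    rw [hT] at h
    have hγ : γ = 0 := by
      have := congrArg (fun v => B v M) h
      simpa [LinearMap.sum_apply, hsM, hMM, hs M0 M, hMM0] using this
    have hβ : β = 0 := by
      have := congrArg (fun v => B v M0) h
      simpa [LinearMap.sum_apply, hsM0, hM0, hMM0] using this
    subst hγ hβ
    rw [zero_smul, zero_smul, add_zero, add_zero] at h
    rw [hind α h]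
    rfl
  have hfin : finrank K ((Fin d → K) × K × K) = finrank K V := by
    rw [Module.finrank_prod, Module.finrank_prod, Module.finrank_fin_fun, hdim]
    simp
  have hTsurj : Function.Surjective T :=
    (LinearMap.injective_iff_surjective_of_finrank_eq_finrank hfin).1 hTinj
  rw [← LinearMap.ker_eq_bot, LinearMap.ker_eq_bot']
  intro v hv
  rw [evMap_apply, Prod.mk_eq_zero, Prod.mk_eq_zero] at hv
  obtain ⟨h1, h2, h3⟩ := hv
  apply hnd
  intro u
  obtain ⟨⟨α, β, γ⟩, rfl⟩ := hTsurj u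
  rw [hT]
  simp only [map_add, map_sum, map_smul, h2, h3, smul_zero, add_zero]
  apply Finset.sum_eq_zero
  intro i _
  rw [congrFun h1 i]
  simp

omit [FiniteDimensional K V] in
theorem exists_solution (B : LinearMap.BilinForm K V) {M M0 : V} {d : ℕ}
    (hdim : finrank K V = d + 2) {s : Fin d → V} (hinj : Function.Injective (evMap B M M0 s))
    {W : Type*} [AddCommGroup W] [Module K W] (R : W →ₗ[K] (Fin d → K)) :
    ∃ P : W →ₗ[K] V, (∀ c, B (P c) M = 0) ∧ (∀ c, B (P c) M0 = 0) ∧
      (∀ c i, B (P c) (s i) = R c i) ∧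
      (∀ c v, B v M = 0 → B v M0 = 0 → (∀ i, B v (s i) = R c i) → P c = v) := by
  have hfin : finrank K V = finrank K ((Fin d → K) × K × K) := by
    rw [Module.finrank_prod, Module.finrank_prod, Module.finrank_fin_fun, hdim]
    simp
  let e : V ≃ₗ[K] ((Fin d → K) × K × K) := LinearEquiv.ofInjectiveOfFinrankEq _ hinj hfin
  have he : ∀ v, e v = evMap B M M0 s v := fun v => rfl
  have hmain : ∀ c, evMap B M M0 s (e.symm (R c, 0, 0)) = (R c, 0, 0) := by
    intro c
    rw [← he, LinearEquiv.apply_symm_apply]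
  refine ⟨e.symm.toLinearMap.comp ((LinearMap.inl K (Fin d → K) (K × K)).comp R),
    ?_, ?_, ?_, ?_⟩
  · intro c
    exact congrArg (fun x => x.2.1) (hmain c)
  · intro c
    exact congrArg (fun x => x.2.2) (hmain c)
  · intro c i
    exact congrFun (congrArg (fun x => x.1) (hmain c)) i
  · intro c v hv1 hv2 hv3
    apply hinj
    refine (hmain c).trans ?_
    rw [evMap_apply, hv1, hv2]
    refine Prod.ext ?_ rfl
    funext i
    exact (hv3 i).symm

end basis

theorem exists_PD {K V : Type*} [Field K] [AddCommGroup V] [Module K V] [FiniteDimensional K V]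
    (h2 : (2 : K) ≠ 0) (B : LinearMap.BilinForm K V) (hs : ∀ u v, B u v = B v u)
    (hnd : ∀ v, (∀ u, B v u = 0) → v = 0) (d n : ℕ) [NeZero n] (hd : 2 ≤ d)
    (hdim : Module.finrank K V = d + 2) (M : V) (hM : B M M = 0) (x1 x2 : ZMod n → V)
    (h1 : ∀ j, B (x1 j) (x1 j) = 0) (h2n : ∀ a, B (x2 a) (x2 a) = 0)
    (h1M : ∀ j, B (x1 j) M = 0)
    (h12 : ∀ a, ∀ i : ℕ, i < d → B (x2 a) (x1 (a + (i : ZMod n))) = 0)
    (hli : ∀ a, LinearIndependent K (fun i : Fin d => x1 (a + ((i : ℕ) : ZMod n))))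
    (hM2 : ∀ a, B M (x2 a) ≠ 0)
    (hdist : ∀ a, ¬ ∃ r : K, x2 (a + 1) = r • x2 a) :
    ∃ D : PD K V B n d, D.M = M ∧ (∀ j, x1 j = D.w j - D.cc j 1 • M) ∧
      (∀ a, ∃ r : K, r ≠ 0 ∧
        x2 a = r • (D.M0 + D.phi a 1 - (B (D.phi a 1) (D.phi a 1) / 2) • M)) := by
  -- the second null vector
  obtain ⟨M0, hM00, hMM0⟩ : ∃ M0, B M0 M0 = 0 ∧ B M M0 = 1 := by
    refine ⟨(B M (x2 0))⁻¹ • x2 0, ?_, ?_⟩
    · simp [h2n]
    · rw [map_smul, smul_eq_mul, inv_mul_cancel₀ (hM2 0)]
  have hM0M : B M0 M = 1 := by rw [hs, hMM0]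
  -- the spheres
  obtain ⟨c0, hc0⟩ : ∃ c0 : ZMod n → K, ∀ j, c0 j = - B (x1 j) M0 := ⟨_, fun j => rfl⟩
  obtain ⟨w, hw⟩ : ∃ w : ZMod n → V, ∀ j, x1 j = w j - c0 j • M :=
    ⟨fun j => x1 j + c0 j • M, fun j => by simp⟩
  have hw' : ∀ j, w j = x1 j + c0 j • M := fun j => by rw [hw j]; simp
  have hwM : ∀ j, B (w j) M = 0 := by
    intro j
    rw [hw' j, map_add, LinearMap.add_apply, map_smul, LinearMap.smul_apply, h1M, hM]
    simp
  have hwM0 : ∀ j, B (w j) M0 = 0 := by
    intro j
    rw [hw' j, map_add, LinearMap.add_apply, map_smul, LinearMap.smul_apply, hMM0, hc0]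
    simp
  have hww : ∀ j, B (w j) (w j) = 0 := by
    intro j
    rw [hw' j]
    simp [h1, h1M, hM, hs M (x1 j)]
  -- the evaluation maps
  have hEv : ∀ a, Function.Injective
      (evMap B M M0 (fun i : Fin d => w (a + ((i : ℕ) : ZMod n)))) := by
    intro a
    refine evMap_injective B hs hnd hM hM00 hMM0 hdim (fun i => hwM _) (fun i => hwM0 _) ?_
    intro α hα
    have hli' := Fintype.linearIndependent_iff.1 (hli a)
    have e1 : ∑ i : Fin d, α i • x1 (a + ((i : ℕ) : ZMod n)) =
        - (∑ i : Fin d, α i * c0 (a + ((i : ℕ) : ZMod n))) • M := by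
      have e2 : ∀ i : Fin d, α i • x1 (a + ((i : ℕ) : ZMod n)) =
          α i • w (a + ((i : ℕ) : ZMod n)) - (α i * c0 (a + ((i : ℕ) : ZMod n))) • M := by
        intro i
        rw [hw, smul_sub, smul_smul]
      rw [Finset.sum_congr rfl fun i _ => e2 i, Finset.sum_sub_distrib, hα, zero_sub,
        ← Finset.sum_smul, neg_smul]
    have e3 : (∑ i : Fin d, α i * c0 (a + ((i : ℕ) : ZMod n))) = 0 := by
      have e4 := congrArg (fun v => B (x2 a) v) e1
      simp only [map_sum, map_smul, smul_eq_mul] at e4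
      rw [Finset.sum_eq_zero (fun i _ => by rw [h12 a i i.2, mul_zero])] at e4
      have e5 := (mul_eq_zero.1 e4.symm).resolve_right (by rw [hs]; exact hM2 a)
      exact neg_eq_zero.1 e5
    rw [e3, neg_zero, zero_smul] at e1
    funext i
    exact hli' α e1 i
  -- the centres
  have hP : ∀ a : ZMod n, ∃ P : (ZMod n → K) →ₗ[K] V,
      (∀ c, B (P c) M = 0) ∧ (∀ c, B (P c) M0 = 0) ∧
      (∀ c, ∀ i : ℕ, i < d → B (P c) (w (a + (i : ZMod n))) = c (a + (i : ZMod n))) ∧
      (∀ c v, B v M = 0 → B v M0 = 0 →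
        (∀ i : ℕ, i < d → B v (w (a + (i : ZMod n))) = c (a + (i : ZMod n))) → P c = v) := by
    intro a
    obtain ⟨P, q1, q2, q3, q4⟩ := exists_solution B hdim (hEv a)
      (LinearMap.funLeft K K (fun i : Fin d => a + ((i : ℕ) : ZMod n)))
    exact ⟨P, q1, q2, fun c i hi => q3 c ⟨i, hi⟩, fun c v a1 a2 a3 => q4 c v a1 a2
      (fun i => a3 i i.2)⟩
  choose P hPM hPM0 hPw hPu using hP
  -- a vector orthogonal to a window and to `M`, `M0` vanishes
  have hz : ∀ a v, B v M = 0 → B v M0 = 0 →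
      (∀ i : ℕ, i < d → B v (w (a + (i : ZMod n))) = 0) → v = 0 := by
    intro a v hv1 hv2 hv3
    rw [← hPu a 0 v hv1 hv2 (fun i hi => by rw [hv3 i hi]; rfl), map_zero]
  -- the vectors of the second row
  have hx2 : ∀ a, x2 a = B M (x2 a) • (M0 + P a c0 - (B (P a c0) (P a c0) / 2) • M) := by
    intro a
    set μ := B M (x2 a) with hμ
    have hμ0 : μ ≠ 0 := hM2 a
    obtain ⟨v, hv⟩ : ∃ v, v = μ⁻¹ • x2 a := ⟨_, rfl⟩
    have hvx : x2 a = μ • v := by rw [hv, smul_smul, mul_inv_cancel₀ hμ0, one_smul]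
    have hvM : B v M = 1 := by
      rw [hv, map_smul, LinearMap.smul_apply, hs, ← hμ, smul_eq_mul, inv_mul_cancel₀ hμ0]
    have hvv : B v v = 0 := by
      rw [hv]; simp [h2n]
    have hvw : ∀ i : ℕ, i < d → B v (w (a + (i : ZMod n))) = c0 (a + (i : ZMod n)) := by
      intro i hi
      have e1 : B v (x1 (a + (i : ZMod n))) = 0 := by
        rw [hv, map_smul, LinearMap.smul_apply, h12 a i hi, smul_zero]
      rw [hw', map_add, map_smul, hvM, e1, zero_add, smul_eq_mul, mul_one]
    have hp : P a c0 = v - M0 - (B v M0) • M := by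
      apply hPu
      · simp [hvM, hM0M, hM]
      · simp [hM00, hMM0]
      · intro i hi
        simp only [map_sub, LinearMap.sub_apply, map_smul, LinearMap.smul_apply]
        rw [hvw i hi, hs M0, hwM0, hs M, hwM]
        simp
    have hv' : v = M0 + P a c0 + (B v M0) • M := by rw [hp]; abel
    have hq : 2 * B v M0 + B (P a c0) (P a c0) = 0 := by
      have e1 : B (M0 + P a c0 + (B v M0) • M) (M0 + P a c0 + (B v M0) • M) = 0 := by
        rw [← hv']; exact hvv
      simp only [map_add, LinearMap.add_apply, map_smul, LinearMap.smul_apply, smul_eq_mul, hM00,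
        hM, hMM0, hM0M, hPM, hPM0, hs M0 (P a c0), hs M (P a c0)] at e1
      linear_combination e1
    have hq' : B v M0 = -(B (P a c0) (P a c0) / 2) := by
      field_simp
      linear_combination hq
    rw [hvx]
    congr 1
    rw [hq', neg_smul, ← sub_eq_add_neg] at hv'
    exact hv'
  -- the edges
  obtain ⟨nn, hnn⟩ : ∃ nn : ZMod n → V, ∀ a, nn a = P (a + 1) c0 - P a c0 :=
    ⟨_, fun a => rfl⟩
  have hnnM : ∀ a, B (nn a) M = 0 := by intro a; rw [hnn]; simp [hPM]
  have hnnM0 : ∀ a, B (nn a) M0 = 0 := by intro a; rw [hnn]; simp [hPM0]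
  have hcast : ∀ (a : ZMod n) (i : ℕ), 1 ≤ i → a + (i : ZMod n) = a + 1 + ((i - 1 : ℕ) : ZMod n) := by
    intro a i hi
    obtain ⟨m, rfl⟩ : ∃ m, i = m + 1 := ⟨i - 1, by omega⟩
    rw [Nat.add_sub_cancel, Nat.cast_add, Nat.cast_one]
    ring
  have hdiff : ∀ a c, ∀ i : ℕ, 1 ≤ i → i < d →
      B (P (a + 1) c - P a c) (w (a + (i : ZMod n))) = 0 := by
    intro a c i hi hid
    rw [map_sub, LinearMap.sub_apply, hPw a c i hid, hcast a i hi, hPw (a + 1) c (i - 1)
      (by omega), sub_self]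
  have hnnw : ∀ a, ∀ i : ℕ, 1 ≤ i → i < d → B (nn a) (w (a + (i : ZMod n))) = 0 := by
    intro a i hi hid
    rw [hnn]
    exact hdiff a c0 i hi hid
  have hnn0 : ∀ a, nn a ≠ 0 := by
    intro a h0
    rw [hnn, sub_eq_zero] at h0
    apply hdist a
    have e1 := hx2 (a + 1)
    rw [h0] at e1
    have e2 := hx2 a
    have e3 := hM2 a
    generalize B M (x2 (a + 1)) = r1 at e1
    generalize B M (x2 a) = r2 at e2 e3
    refine ⟨r1 / r2, ?_⟩
    rw [e1, e2, smul_smul, div_mul_cancel₀ _ e3]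
  have hnnwa : ∀ a, B (nn a) (w a) ≠ 0 := by
    intro a h0
    apply hnn0 a
    apply hz a _ (hnnM a) (hnnM0 a)
    intro i hi
    rcases Nat.eq_zero_or_pos i with rfl | hi0
    · rw [Nat.cast_zero, add_zero]; exact h0
    · exact hnnw a i hi0 hi
  obtain ⟨lam, hlam⟩ : ∃ lam : ZMod n → (ZMod n → K) →ₗ[K] K,
      ∀ a c, P (a + 1) c = P a c + lam a c • nn a := by
    refine ⟨fun a => (B (nn a) (w a))⁻¹ • ((B.flip (w a)).comp (P (a + 1) - P a)), ?_⟩
    intro a c
    obtain ⟨l, hl⟩ : ∃ l, l = (B (nn a) (w a))⁻¹ * B (P (a + 1) c - P a c) (w a) := ⟨_, rfl⟩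
    have hl' : ((B (nn a) (w a))⁻¹ • ((B.flip (w a)).comp (P (a + 1) - P a))) c = l := by
      rw [hl]; rfl
    show P (a + 1) c = P a c + ((B (nn a) (w a))⁻¹ • ((B.flip (w a)).comp (P (a + 1) - P a))) c
      • nn a
    rw [hl']
    have key : P (a + 1) c - P a c - l • nn a = 0 := by
      apply hz a
      · simp [hPM, hnnM]
      · simp [hPM0, hnnM0]
      · intro i hi
        rcases Nat.eq_zero_or_pos i with rfl | hi0
        · rw [Nat.cast_zero, add_zero, map_sub B, LinearMap.sub_apply, map_smul B,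
            LinearMap.smul_apply, smul_eq_mul, hl]
          field_simp [hnnwa a]
          ring
        · rw [map_sub B, LinearMap.sub_apply, map_smul B, LinearMap.smul_apply,
            hdiff a c i hi0 hi, hnnw a i hi0 hi, smul_zero, sub_zero]
    rw [← sub_eq_zero, ← key]
    abel
  -- the circumcentres
  have hnnj : ∀ (j : ZMod n) (i m : ℕ), m < i → i < d →
      B (nn (j - (i : ZMod n))) (w (j - (m : ZMod n))) = 0 := by
    intro j i m hmi hid
    have e1 : j - (m : ZMod n) = j - (i : ZMod n) + ((i - m : ℕ) : ZMod n) := by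
      rw [Nat.cast_sub hmi.le]; ring
    rw [e1]
    exact hnnw _ _ (by omega) (by omega)
  have hEv' : ∀ j, Function.Injective
      (evMap B M M0 (fun i : Fin d => nn (j - ((i : ℕ) : ZMod n)))) := by
    intro j
    refine evMap_injective B hs hnd hM hM00 hMM0 hdim (fun i => hnnM _) (fun i => hnnM0 _) ?_
    intro α hα
    have key : ∀ m : ℕ, ∀ i : Fin d, (i : ℕ) ≤ m → α i = 0 := by
      intro m
      induction m using Nat.strong_induction_on with
      | _ m ih =>
        intro i hi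
        rcases Nat.lt_or_ge (i : ℕ) m with hlt | hge
        · exact ih i hlt i le_rfl
        · have him : (i : ℕ) = m := le_antisymm hi hge
          have e1 := congrArg (fun v => B v (w (j - (m : ZMod n)))) hα
          simp only [map_sum, LinearMap.sum_apply, map_zero, LinearMap.zero_apply] at e1
          rw [Finset.sum_eq_single i] at e1
          · rw [map_smul, LinearMap.smul_apply, smul_eq_mul, him] at e1
            exact (mul_eq_zero.1 e1).resolve_right (hnnwa _)
          · intro i' _ hne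
            rcases Nat.lt_or_ge (i' : ℕ) m with hlt | hge'
            · rw [ih i' hlt i' le_rfl, zero_smul, map_zero, LinearMap.zero_apply]
            · have : m < (i' : ℕ) := by
                rcases Nat.eq_or_lt_of_le hge' with h | h
                · exact absurd (Fin.ext (h.symm.trans him.symm)) hne
                · exact h
              rw [map_smul, LinearMap.smul_apply, hnnj j i' m this i'.2, smul_zero]
          · intro h
            exact absurd (Finset.mem_univ i) h
    funext i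
    exact key i i le_rfl
  have hQ : ∀ j : ZMod n, ∃ Q : (ZMod n → K) →ₗ[K] V,
      (∀ c, B (Q c) M = 0) ∧ (∀ c, B (Q c) M0 = 0) ∧
      (∀ c, ∀ i : ℕ, i < d → 2 * B (Q c) (nn (j - (i : ZMod n))) =
        B (P (j - (i : ZMod n)) c + P (j - (i : ZMod n) + 1) c) (nn (j - (i : ZMod n)))) ∧
      (∀ c v, B v M = 0 → B v M0 = 0 →
        (∀ i : ℕ, i < d → 2 * B v (nn (j - (i : ZMod n))) =
          B (P (j - (i : ZMod n)) c + P (j - (i : ZMod n) + 1) c) (nn (j - (i : ZMod n)))) →
        Q c = v) := by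
    intro j
    obtain ⟨Q, q1, q2, q3, q4⟩ := exists_solution B hdim (hEv' j)
      (LinearMap.pi fun i : Fin d => (2 : K)⁻¹ • ((B.flip (nn (j - ((i : ℕ) : ZMod n)))).comp
        (P (j - ((i : ℕ) : ZMod n)) + P (j - ((i : ℕ) : ZMod n) + 1))))
    have q3' : ∀ c, ∀ i : Fin d, B (Q c) (nn (j - ((i : ℕ) : ZMod n))) = (2 : K)⁻¹ *
        B (P (j - ((i : ℕ) : ZMod n)) c + P (j - ((i : ℕ) : ZMod n) + 1) c)
          (nn (j - ((i : ℕ) : ZMod n))) := q3
    refine ⟨Q, q1, q2, fun c i hi => ?_, fun c v a1 a2 a3 => q4 c v a1 a2 (fun i => ?_)⟩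
    · rw [q3' c ⟨i, hi⟩]
      field_simp
    · show B v (nn (j - ((i : ℕ) : ZMod n))) = (2 : K)⁻¹ *
        B (P (j - ((i : ℕ) : ZMod n)) c + P (j - ((i : ℕ) : ZMod n) + 1) c)
          (nn (j - ((i : ℕ) : ZMod n)))
      rw [← a3 i i.2]
      field_simp
  choose Q hQM hQM0 hQn hQu using hQ
  have hnnself : ∀ j, B (w j) (nn j) ≠ 0 := by
    intro j
    rw [hs]
    exact hnnwa j
  have hz' : ∀ j v, B v M = 0 → B v M0 = 0 →
      (∀ i : ℕ, i < d → B v (nn (j - (i : ZMod n))) = 0) → v = 0 := by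
    intro j v hv1 hv2 hv3
    rw [← hQu j 0 v hv1 hv2 (fun i hi => by rw [hv3 i hi]; simp), map_zero]
  have hcast' : ∀ (j : ZMod n) (i : ℕ), 1 ≤ i →
      j - (i : ZMod n) = j - 1 - ((i - 1 : ℕ) : ZMod n) := by
    intro j i hi
    obtain ⟨m, rfl⟩ : ∃ m, i = m + 1 := ⟨i - 1, by omega⟩
    rw [Nat.add_sub_cancel, Nat.cast_add, Nat.cast_one]
    ring
  have hdiff' : ∀ j c, ∀ i : ℕ, 1 ≤ i → i < d →
      B (Q j c - Q (j - 1) c) (nn (j - (i : ZMod n))) = 0 := by
    intro j c i hi hid
    have e1 := hQn j c i hid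
    have e2 := hQn (j - 1) c (i - 1) (by omega)
    rw [← hcast' j i hi] at e2
    rw [map_sub, LinearMap.sub_apply]
    have e3 : 2 * (B (Q j c) (nn (j - (i : ZMod n))) - B (Q (j - 1) c) (nn (j - (i : ZMod n))))
        = 0 := by rw [mul_sub, e1, e2, sub_self]
    exact (mul_eq_zero.1 e3).resolve_left h2
  obtain ⟨th, hth⟩ : ∃ th : ZMod n → (ZMod n → K) →ₗ[K] K,
      ∀ j c, Q j c = Q (j - 1) c + th j c • w j := by
    refine ⟨fun j => (B (w j) (nn j))⁻¹ • ((B.flip (nn j)).comp (Q j - Q (j - 1))), ?_⟩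
    intro j c
    obtain ⟨l, hl⟩ : ∃ l, l = (B (w j) (nn j))⁻¹ * B (Q j c - Q (j - 1) c) (nn j) := ⟨_, rfl⟩
    have hl' : ((B (w j) (nn j))⁻¹ • ((B.flip (nn j)).comp (Q j - Q (j - 1)))) c = l := by
      rw [hl]; rfl
    show Q j c = Q (j - 1) c + ((B (w j) (nn j))⁻¹ • ((B.flip (nn j)).comp (Q j - Q (j - 1)))) c
      • w j
    rw [hl']
    have key : Q j c - Q (j - 1) c - l • w j = 0 := by
      apply hz' j
      · simp [hQM, hwM]
      · simp [hQM0, hwM0]
      · intro i hi
        rcases Nat.eq_zero_or_pos i with rfl | hi0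
        · rw [Nat.cast_zero, sub_zero, map_sub B, LinearMap.sub_apply, map_smul B,
            LinearMap.smul_apply, smul_eq_mul, hl]
          field_simp [hnnself j]
          ring
        · have e1 : B (w j) (nn (j - (i : ZMod n))) = 0 := by
            rw [hs]
            have := hnnj j i 0 hi0 hi
            rwa [Nat.cast_zero, sub_zero] at this
          rw [map_sub B, LinearMap.sub_apply, map_smul B, LinearMap.smul_apply,
            hdiff' j c i hi0 hi, e1, smul_zero, sub_zero]
    rw [← sub_eq_zero, ← key]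
    abel
  -- the double circumcentre map
  obtain ⟨A, hA⟩ : ∃ A : Module.End K (ZMod n → K), ∀ c j, A c j = B (Q j c) (w j) :=
    ⟨LinearMap.pi fun j => (B.flip (w j)).comp (Q j), fun c j => rfl⟩
  -- polynomials
  obtain ⟨ev, hev⟩ : ∃ ev : K[X] →ₗ[K] (ZMod n → K), ∀ F, ev F = aeval (A - 1) F c0 :=
    ⟨(LinearMap.applyₗ c0).comp (aeval (A - 1)).toLinearMap, fun F => rfl⟩
  have hev1 : ev 1 = c0 := by rw [hev]; simp
  have hevX : ∀ F, ev ((X + 1) * F) = A (ev F) := by
    intro F
    rw [hev, hev, map_mul, Module.End.mul_apply]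
    simp
  -- constant polygons
  obtain ⟨off, ho1, ho2, ho3, ho4⟩ := exists_solution B hdim (hEv 0)
    (LinearMap.id : (Fin d → K) →ₗ[K] (Fin d → K))
  obtain ⟨toE, htoE⟩ : ∃ toE : (Fin d → K) →ₗ[K] (ZMod n → K),
      ∀ c j, toE c j = B (off c) (w j) :=
    ⟨LinearMap.pi fun j => (B.flip (w j)).comp off, fun c j => rfl⟩
  have htoEinj : Function.Injective toE := by
    intro c c' h
    funext i
    have e1 := congrFun h (0 + ((i : ℕ) : ZMod n))
    rw [htoE, htoE, ho3, ho3] at e1
    exact e1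
  have hmemE : ∀ f, f ∈ LinearMap.range toE ↔
      ∃ e, B e M = 0 ∧ B e M0 = 0 ∧ ∀ j, f j = B e (w j) := by
    intro f
    constructor
    · rintro ⟨c, rfl⟩
      exact ⟨off c, ho1 c, ho2 c, fun j => htoE c j⟩
    · rintro ⟨e, he1, he2, he3⟩
      refine ⟨fun i => B e (w (0 + ((i : ℕ) : ZMod n))), ?_⟩
      funext j
      have e1 := ho4 (fun i => B e (w (0 + ((i : ℕ) : ZMod n)))) e he1 he2 (fun i => rfl)
      rw [htoE, he3, e1]
  have hconstP : ∀ c e, B e M = 0 → B e M0 = 0 → (∀ j, c j = B e (w j)) → ∀ a, P a c = e := by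
    intro c e he1 he2 he3 a
    exact hPu a c e he1 he2 (fun i _ => (he3 _).symm)
  have hconstQ : ∀ c e, B e M = 0 → B e M0 = 0 → (∀ j, c j = B e (w j)) → ∀ j, Q j c = e := by
    intro c e he1 he2 he3 j
    apply hQu j c e he1 he2
    intro i _
    rw [hconstP c e he1 he2 he3, hconstP c e he1 he2 he3, map_add, LinearMap.add_apply]
    ring
  refine ⟨{
    M := M
    M0 := M0
    w := w
    nn := nn
    phi := fun a => (P a).comp ev
    psi := fun j => (Q j).comp ev
    cc := fun j => (LinearMap.proj j).comp ev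
    lam := fun a => (lam a).comp ev
    th := fun j => (th j).comp ev
    E := LinearMap.range toE
    hMM := hM
    hM0M0 := hM00
    hMM0 := hMM0
    hwM := hwM
    hwM0 := hwM0
    hww := hww
    phiM := fun a F => hPM a _
    phiM0 := fun a F => hPM0 a _
    psiM := fun a F => hQM a _
    psiM0 := fun a F => hQM0 a _
    phi_w := fun a F i hi => hPw a (ev F) i hi
    psi_w := fun j F => by
      show B (Q j (ev F)) (w j) = ev ((X + 1) * F) j
      rw [hevX, hA]
    phi_edge := fun a F => hlam a (ev F)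
    psi_edge := fun j F => hth j (ev F)
    psi_nn := fun a F i hi => by
      have := hQn (a + (i : ZMod n)) (ev F) i hi
      rw [add_sub_cancel_right] at this
      exact this
    const_phi := fun F e he1 he2 he3 a => hconstP (ev F) e he1 he2 he3 a
    const_psi := fun F e he1 he2 he3 j => hconstQ (ev F) e he1 he2 he3 j
    finrankE := by
      rw [LinearMap.finrank_range_of_inj htoEinj, Module.finrank_fin_fun]
    memE := hmemE
    orth := fun F G => by
      show ∑ j, ev F j * th j (ev G) = 0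
      rw [hev, hev]
      exact orth_of_edges h2 hs hww
        (fun a c => by
          have := hPw a c 0 (by omega)
          rwa [Nat.cast_zero, add_zero] at this) hlam hth
        (fun a c => by
          have := hQn a c 0 (by omega)
          rwa [Nat.cast_zero, sub_zero] at this) A hA c0 F G
    orthE := fun f hf G => by
      obtain ⟨e, -, -, he⟩ := (hmemE f).1 hf
      show ∑ j, f j * th j (ev G) = 0
      simp only [he]
      exact orthE_of_edges hth e (ev G) }, rfl, ?_, ?_⟩
  · intro j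
    show x1 j = w j - ev 1 j • M
    rw [hev1]
    exact hw j
  · intro a
    refine ⟨B M (x2 a), hM2 a, ?_⟩
    show x2 a = B M (x2 a) • (M0 + P a (ev 1) - (B (P a (ev 1)) (P a (ev 1)) / 2) • M)
    rw [hev1]
    exact hx2 a

end Pool.Agent.Lib.MP_610b40_an
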