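import Mathlib
import Pool.Agent.Lib.MP_610b40_an.AB

/-!
Lifts of polynomials to vectors and their inner products.
-/

open Polynomial

namespace Pool.Agent.Lib.MP_610b40_an

variable {K V : Type*} [Field K] [AddCommGroup V] [Module K V]
    {B : LinearMap.BilinForm K V} {n d : ℕ} [NeZero n]

lemma decX (F : K[X]) : F = X * F.divX + C (F.coeff 0) := by
  conv_lhs => rw [← Polynomial.divX_mul_X_add F]
  rw [mul_comm]

lemma dec (ℓ : K[X] →ₗ[K] K) (F : K[X]) : ℓ F = ℓ (X * F.divX) + F.coeff 0 * ℓ 1 := by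
  conv_lhs => rw [decX F]
  rw [map_add, ← mul_one (C (F.coeff 0)), ← Polynomial.smul_eq_C_mul, map_smul, smul_eq_mul]

lemma mem_lt_iff {m : ℕ} {F : K[X]} : F ∈ degreeLT K m ↔ ∀ i, m ≤ i → F.coeff i = 0 := by
  rw [Polynomial.mem_degreeLT, Polynomial.degree_lt_iff_coeff_zero]

lemma divX_mem {m : ℕ} {F : K[X]} (h : F ∈ degreeLT K (m + 1)) : F.divX ∈ degreeLT K m := by
  rw [mem_lt_iff] at h ⊢
  intro i hi
  rw [Polynomial.coeff_divX]
  exact h _ (by omega)

lemma lt_mono {m : ℕ} {F : K[X]} (h : F ∈ degreeLT K m) : F ∈ degreeLT K (m + 1) := by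
  rw [mem_lt_iff] at h ⊢
  intro i hi
  exact h _ (by omega)

lemma divX_mem' {m : ℕ} {F : K[X]} (h : F ∈ degreeLT K m) : F.divX ∈ degreeLT K m :=
  divX_mem (lt_mono h)

lemma X_pow_mem (m : ℕ) : (X : K[X]) ^ m ∈ degreeLT K (m + 1) := by
  rw [mem_lt_iff]
  intro i hi
  rw [Polynomial.coeff_X_pow]
  simp; omega

/-- a functional vanishing in degrees `< m` only sees the `m`-th coefficient -/
lemma top (ℓ : K[X] →ₗ[K] K) {m : ℕ} (h : ∀ G ∈ degreeLT K m, ℓ G = 0) {F : K[X]}
    (hF : F ∈ degreeLT K (m + 1)) : ℓ F = F.coeff m * ℓ (X ^ m) := by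
  have h1 : F - F.coeff m • X ^ m ∈ degreeLT K m := by
    rw [mem_lt_iff] at hF ⊢
    intro i hi
    rw [Polynomial.coeff_sub, Polynomial.coeff_smul, Polynomial.coeff_X_pow]
    rcases eq_or_lt_of_le hi with rfl | hlt
    · simp
    · rw [hF i (by omega)]
      have : i ≠ m := by omega
      simp [this]
  have h2 := h _ h1
  rw [map_sub, map_smul, smul_eq_mul] at h2
  linear_combination h2

/-- solving linear equations for a nondegenerate form -/
lemma solve (b : K[X] →ₗ[K] K[X] →ₗ[K] K) (m : ℕ)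
    (hnd : ∀ F ∈ degreeLT K m, (∀ G ∈ degreeLT K m, b F G = 0) → F = 0)
    (ℓ : K[X] →ₗ[K] K) : ∃ R ∈ degreeLT K m, ∀ G ∈ degreeLT K m, b R G = ℓ G := by
  have : Module.Finite K (degreeLT K m) := Module.Finite.equiv (Polynomial.degreeLTEquiv K m).symm
  let Φ : degreeLT K m →ₗ[K] Module.Dual K (degreeLT K m) :=
    (Module.Dual.transpose (R := K) (degreeLT K m).subtype) ∘ₗ b ∘ₗ (degreeLT K m).subtype
  have hΦ : ∀ F G, Φ F G = b F G := fun F G => rfl
  have hinj : Function.Injective Φ := by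
    rw [injective_iff_map_eq_zero]
    intro F hF
    apply Subtype.ext
    apply hnd F F.2
    intro G hG
    have := congrArg (fun f => f ⟨G, hG⟩) hF
    simpa [hΦ] using this
  have hsurj : Function.Surjective Φ :=
    (LinearMap.injective_iff_surjective_of_finrank_eq_finrank
      (Subspace.dual_finrank_eq (K := K) (V := degreeLT K m)).symm).1 hinj
  obtain ⟨R, hR⟩ := hsurj (ℓ ∘ₗ (degreeLT K m).subtype)
  refine ⟨R, R.2, fun G hG => ?_⟩
  have := congrArg (fun f => f ⟨G, hG⟩) hR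
  simpa [hΦ] using this

namespace PD

variable (D : PD K V B n d) (α β : ZMod n → K[X] →ₗ[K] K[X] →ₗ[K] K)

/-- left lift -/
noncomputable def LL (a : ZMod n) (F : K[X]) : V :=
  F.coeff 0 • D.M0 + D.phi a F - α a F 1 • D.M

/-- right lift -/
noncomputable def RL (j : ZMod n) (G : K[X]) : V :=
  G.coeff 0 • D.M0 + D.psi j G - β j 1 G • D.M

/-- first row -/
noncomputable def Xv (j : ZMod n) : V := D.w j - D.cc j 1 • D.M

section

variable {α β}

lemma LL_RL (hs : ∀ u v, B u v = B v u) {a j : ZMod n} (F G : K[X])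
    (R1 : B (D.phi a F) (D.psi j G) = α a F G + β j F G) :
    B (D.LL α a F) (D.RL β j G) = α a F (X * G.divX) + β j (X * F.divX) G := by
  have e1 := dec (α a F) G
  have e2 := dec ((β j).flip G) F
  simp only [LinearMap.flip_apply] at e2
  unfold LL RL
  simp only [map_add, map_sub, LinearMap.add_apply, LinearMap.sub_apply, map_smul,
    LinearMap.smul_apply, smul_eq_mul, D.hMM, D.hM0M0, D.hMM0, D.phiM, D.phiM0, R1]
  rw [hs D.M0 D.M, hs D.M0 (D.psi j G), hs D.M (D.psi j G), D.psiM, D.psiM0, D.hMM0]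
  linear_combination e1 + e2

lemma LL_LL (hs : ∀ u v, B u v = B v u) {a : ZMod n} (F G : K[X])
    (R2 : α a F G + α a G F = B (D.phi a F) (D.phi a G)) :
    B (D.LL α a F) (D.LL α a G) = α a F (X * G.divX) + α a G (X * F.divX) := by
  have e1 := dec (α a F) G
  have e2 := dec (α a G) F
  unfold LL
  simp only [map_add, map_sub, LinearMap.add_apply, LinearMap.sub_apply, map_smul,
    LinearMap.smul_apply, smul_eq_mul, D.hMM, D.hM0M0, D.hMM0, D.phiM, D.phiM0, ← R2]
  rw [hs D.M0 D.M, hs D.M0 (D.phi a G), hs D.M (D.phi a G), D.phiM, D.phiM0, D.hMM0]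
  linear_combination e1 + e2

lemma RL_RL (hs : ∀ u v, B u v = B v u) {j : ZMod n} (F G : K[X])
    (R3 : β j ((X + 1) * F) G + β j ((X + 1) * G) F = B (D.psi j F) (D.psi j G)) :
    B (D.RL β j F) (D.RL β j G) = β j (X * (F + F.divX)) G + β j (X * (G + G.divX)) F := by
  have e1 := dec ((β j).flip G) F
  have e2 := dec ((β j).flip F) G
  simp only [LinearMap.flip_apply] at e1 e2
  unfold RL
  simp only [map_add, map_sub, LinearMap.add_apply, LinearMap.sub_apply, map_smul,
    LinearMap.smul_apply, smul_eq_mul, D.hMM, D.hM0M0, D.hMM0, D.psiM, D.psiM0, ← R3]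
  rw [hs D.M0 D.M, hs D.M0 (D.psi j G), hs D.M (D.psi j G), D.psiM, D.psiM0, D.hMM0]
  simp only [add_mul, mul_add, one_mul, map_add, LinearMap.add_apply]
  linear_combination e1 + e2

lemma LL_Xv (hs : ∀ u v, B u v = B v u) {a j : ZMod n} (h : NAdj d a j) (F : K[X]) :
    B (D.LL α a F) (D.Xv j) = D.cc j (X * F.divX) := by
  have e1 := dec (D.cc j) F
  unfold LL Xv
  simp only [map_add, map_sub, LinearMap.add_apply, LinearMap.sub_apply, map_smul,
    LinearMap.smul_apply, smul_eq_mul, D.hMM, D.phiM, D.phi_w' h]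
  rw [hs D.M0 (D.w j), hs D.M (D.w j), hs D.M0 D.M, D.hwM, D.hwM0, D.hMM0]
  linear_combination e1

lemma RL_Xv (hs : ∀ u v, B u v = B v u) {j : ZMod n} (G : K[X]) :
    B (D.RL β j G) (D.Xv j) = D.cc j (X * (G + G.divX)) := by
  have e1 := dec (D.cc j) G
  unfold RL Xv
  simp only [map_add, map_sub, LinearMap.add_apply, LinearMap.sub_apply, map_smul,
    LinearMap.smul_apply, smul_eq_mul, D.hMM, D.psiM, D.psi_w]
  rw [hs D.M0 (D.w j), hs D.M (D.w j), hs D.M0 D.M, D.hwM, D.hwM0, D.hMM0]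
  simp only [add_mul, mul_add, one_mul, map_add]
  linear_combination e1

lemma Xv_Xv (hs : ∀ u v, B u v = B v u) (j : ZMod n) : B (D.Xv j) (D.Xv j) = 0 := by
  unfold Xv
  simp only [map_sub, LinearMap.sub_apply, map_smul, LinearMap.smul_apply, smul_eq_mul,
    D.hMM, D.hww, D.hwM]
  rw [hs D.M (D.w j), D.hwM]
  ring

lemma M_RL (j : ZMod n) (hs : ∀ u v, B u v = B v u) : B D.M (D.RL β j 1) = 1 := by
  unfold RL
  simp only [map_add, map_sub, map_smul, smul_eq_mul, D.hMM, D.hMM0]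
  rw [hs D.M (D.psi j 1), D.psiM]
  simp

end

end PD

end Pool.Agent.Lib.MP_610b40_an
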