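import Mathlib
import Pool.Agent.Lib.MP_610b40_an.Lift

/-!
Elements of the left radical of the forms `α a F (X * G)`.
-/

open Polynomial

namespace Pool.Agent.Lib.MP_610b40_an

variable {K V : Type*} [Field K] [AddCommGroup V] [Module K V]
    {B : LinearMap.BilinForm K V} {n d : ℕ} [NeZero n]

namespace PD

variable (D : PD K V B n d)

/-- the polygon of `F` is the constant `e` -/
def Cls (F : K[X]) (e : V) : Prop :=
  B e D.M = 0 ∧ B e D.M0 = 0 ∧ ∀ j, D.cc j F = B e (D.w j)

variable {D}

lemma Cls.phi {F : K[X]} {e : V} (h : D.Cls F e) (a : ZMod n) : D.phi a F = e :=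
  D.const_phi F e h.1 h.2.1 h.2.2 a

lemma Cls.psi {F : K[X]} {e : V} (h : D.Cls F e) (a : ZMod n) : D.psi a F = e :=
  D.const_psi F e h.1 h.2.1 h.2.2 a

lemma Cls.mul1 {F : K[X]} {e : V} (h : D.Cls F e) : D.Cls ((X + 1) * F) e :=
  ⟨h.1, h.2.1, fun j => by rw [← D.psi_w, h.psi]⟩

lemma Cls.add {F G : K[X]} {e e' : V} (h : D.Cls F e) (h' : D.Cls G e') :
    D.Cls (F + G) (e + e') := by
  refine ⟨?_, ?_, fun j => ?_⟩
  · rw [map_add, LinearMap.add_apply, h.1, h'.1, add_zero]
  · rw [map_add, LinearMap.add_apply, h.2.1, h'.2.1, add_zero]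
  · rw [map_add, map_add, LinearMap.add_apply, h.2.2, h'.2.2]

lemma Cls.smul {F : K[X]} {e : V} (c : K) (h : D.Cls F e) : D.Cls (c • F) (c • e) := by
  refine ⟨?_, ?_, fun j => ?_⟩
  · rw [map_smul, LinearMap.smul_apply, h.1, smul_zero]
  · rw [map_smul, LinearMap.smul_apply, h.2.1, smul_zero]
  · rw [map_smul, map_smul, LinearMap.smul_apply, h.2.2]

lemma Cls.mulX {F : K[X]} {e : V} (h : D.Cls F e) : D.Cls (X * F) 0 := by
  have h1 := h.mul1.add (h.smul (-1 : K))
  have e1 : (X + 1) * F + (-1 : K) • F = X * F := by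
    rw [neg_one_smul]; ring
  have e2 : e + (-1 : K) • e = 0 := by rw [neg_one_smul]; abel
  rwa [e1, e2] at h1

lemma Cls.mul {F : K[X]} {e : V} (h : D.Cls F e) (P : K[X]) : ∃ e', D.Cls (P * F) e' := by
  induction P using Polynomial.induction_on' generalizing F e with
  | add P Q hP hQ =>
    obtain ⟨e1, h1⟩ := hP h
    obtain ⟨e2, h2⟩ := hQ h
    exact ⟨e1 + e2, by rw [add_mul]; exact h1.add h2⟩
  | monomial i c =>
    have : ∀ i : ℕ, ∀ {F : K[X]} {e : V}, D.Cls F e → ∃ e', D.Cls (X ^ i * F) e' := by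
      intro i
      induction i with
      | zero => intro F e h; exact ⟨e, by simpa using h⟩
      | succ i ih =>
        intro F e h
        obtain ⟨e', h'⟩ := ih h.mulX
        exact ⟨e', by rw [pow_succ, mul_assoc]; exact h'⟩
    obtain ⟨e', h'⟩ := this i h
    refine ⟨c • e', ?_⟩
    rw [← Polynomial.C_mul_X_pow_eq_monomial, mul_assoc, ← Polynomial.smul_eq_C_mul]
    exact h'.smul c

lemma Cls.mul_zero' {F : K[X]} (h : D.Cls F 0) (P : K[X]) : D.Cls (P * F) 0 := by
  induction P using Polynomial.induction_on' generalizing F with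
  | add P Q hP hQ =>
    have := (hP h).add (hQ h)
    rwa [← add_mul, add_zero] at this
  | monomial i c =>
    have : ∀ i : ℕ, ∀ {F : K[X]}, D.Cls F 0 → D.Cls (X ^ i * F) 0 := by
      intro i
      induction i with
      | zero => intro F h; simpa using h
      | succ i ih =>
        intro F h
        rw [pow_succ, mul_assoc]
        exact ih h.mulX
    have h' := (this i h).smul c
    rw [smul_zero] at h'
    rw [← Polynomial.C_mul_X_pow_eq_monomial, mul_assoc, ← Polynomial.smul_eq_C_mul]
    exact h'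

section

variable {α β : ZMod n → K[X] →ₗ[K] K[X] →ₗ[K] K}

/-- moving a polynomial factor from left to right -/
lemma Cls.move (hs : ∀ u v, B u v = B v u)
    (R1 : ∀ a F G, B (D.phi a F) (D.psi a G) = α a F G + β a F G)
    (R2 : ∀ a F G, α a F G + α a G F = B (D.phi a F) (D.phi a G))
    (R3 : ∀ j F G, β j ((X + 1) * F) G + β j ((X + 1) * G) F = B (D.psi j F) (D.psi j G))
    {F : K[X]} {e : V} (h : D.Cls F e) (P : K[X]) (a : ZMod n) (G : K[X]) :
    α a (P * F) G = α a F (P * G) := by
  have mX : ∀ {F : K[X]} {e : V}, D.Cls F e → ∀ G, α a (X * F) G = α a F (X * G) := by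
    intro F e h G
    have r1 := R1 a ((X + 1) * F) G
    have r2 := R1 a ((X + 1) * G) F
    have r3 := R3 a F G
    have r4 := R2 a F ((X + 1) * G)
    rw [h.mul1.phi] at r1
    rw [h.psi] at r2 r3
    rw [h.phi, hs e] at r4
    have r5 : α a ((X + 1) * F) G = α a F ((X + 1) * G) := by
      linear_combination (-1 : K) * r1 - r2 - r3 - r4
    rw [add_mul, add_mul, one_mul, one_mul, map_add, map_add, LinearMap.add_apply] at r5
    linear_combination r5
  induction P using Polynomial.induction_on' generalizing F e G with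
  | add P Q hP hQ =>
    rw [add_mul, add_mul, map_add, map_add, LinearMap.add_apply, hP h, hQ h]
  | monomial i c =>
    have : ∀ i : ℕ, ∀ {F : K[X]} {e : V}, D.Cls F e → ∀ G,
        α a (X ^ i * F) G = α a F (X ^ i * G) := by
      intro i
      induction i with
      | zero => intro F e _ G; simp
      | succ i ih =>
        intro F e h G
        rw [pow_succ, mul_assoc, ih h.mulX, mX h, ← mul_assoc, ← pow_succ', pow_succ]
    rw [← Polynomial.C_mul_X_pow_eq_monomial, mul_assoc, mul_assoc, ← Polynomial.smul_eq_C_mul,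
      ← Polynomial.smul_eq_C_mul, map_smul, map_smul, LinearMap.smul_apply, this i h]

lemma rad_sq (h2 : (2 : K) ≠ 0) (hs : ∀ u v, B u v = B v u)
    (R1 : ∀ a F G, B (D.phi a F) (D.psi a G) = α a F G + β a F G)
    (R2 : ∀ a F G, α a F G + α a G F = B (D.phi a F) (D.phi a G))
    (R3 : ∀ j F G, β j ((X + 1) * F) G + β j ((X + 1) * G) F = B (D.psi j F) (D.psi j G))
    {q : K[X]} {e : V} (h : D.Cls q e) (a : ZMod n) (G : K[X]) :
    α a (q * q) (X * G) = 0 := by
  have e1 : α a (q * q) (X * G) = α a q (G * (X * q)) := by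
    rw [h.move hs R1 R2 R3 q a]
    congr 1; ring
  have e2 := R2 a q (G * (X * q))
  have e3 : D.phi a (G * (X * q)) = 0 := (h.mulX.mul_zero' G).phi a
  rw [e3, map_zero] at e2
  have e4 : α a (G * (X * q)) q = α a q (G * (X * q)) := by
    have := h.move hs R1 R2 R3 (G * X) a q
    rw [mul_assoc] at this
    exact this
  rw [e1]
  rw [e4] at e2
  have : (2 : K) * α a q (G * (X * q)) = 0 := by linear_combination e2
  simpa [h2] using this

lemma rad_z_sq (h2 : (2 : K) ≠ 0) (hs : ∀ u v, B u v = B v u)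
    (R1 : ∀ a F G, B (D.phi a F) (D.psi a G) = α a F G + β a F G)
    (R2 : ∀ a F G, α a F G + α a G F = B (D.phi a F) (D.phi a G))
    (R3 : ∀ j F G, β j ((X + 1) * F) G + β j ((X + 1) * G) F = B (D.psi j F) (D.psi j G))
    {q : K[X]} {e : V} (h : D.Cls ((X + 1) * q) e) (hq : ∀ j, D.psi j q = e)
    (a : ZMod n) (G : K[X]) :
    α a ((X + 1) * (q * q)) (X * G) = 0 := by
  set u : K[X] := (X + 1) * q with hu
  set A := α a u (X * q * G) with hA
  have e1 : α a ((X + 1) * (q * q)) (X * G) = A := by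
    have := h.move hs R1 R2 R3 q a (X * G)
    rw [hA, ← show q * (X * G) = X * q * G by ring, ← this, hu]
    congr 2; ring
  have e2 : α a ((X + 1) * (X * q)) (q * G) = A := by
    have := h.move hs R1 R2 R3 X a (q * G)
    rw [hA, show X * q * G = X * (q * G) by ring, ← this, hu]
    congr 2; ring
  -- the anti-symmetry
  have c0 : D.Cls ((X + 1) * (X * q)) 0 := by
    have := h.mulX
    rwa [hu, show X * ((X + 1) * q) = (X + 1) * (X * q) by ring] at this
  have psinu : D.psi a (X * q) = 0 := by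
    have : X * q = (X + 1) * q - q := by ring
    rw [this, map_sub, ← hu, h.psi, hq, sub_self]
  have e3 : ∀ H, α a ((X + 1) * (X * q)) H = - α a ((X + 1) * H) (X * q) := by
    intro H
    have r1 := R1 a ((X + 1) * (X * q)) H
    rw [c0.phi, map_zero, LinearMap.zero_apply] at r1
    have r2 := R3 a (X * q) H
    rw [psinu, map_zero, LinearMap.zero_apply] at r2
    have r3 := R1 a ((X + 1) * H) (X * q)
    rw [psinu, map_zero] at r3
    linear_combination (-1 : K) * r1 - r2 - r3
  have e4 : α a ((X + 1) * (q * G)) (X * q) = A := by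
    have := h.move hs R1 R2 R3 G a (X * q)
    rw [hu, show G * ((X + 1) * q) = (X + 1) * (q * G) by ring] at this
    rw [this, hA, hu]
    congr 1; ring
  rw [e1]
  have e5 := e3 (q * G)
  rw [e2, e4] at e5
  have : (2 : K) * A = 0 := by linear_combination e5
  simpa [h2] using this

end

end PD

end Pool.Agent.Lib.MP_610b40_an
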