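import Mathlib
import Pool.Agent.Lib.MP_610b40_an.Rad

/-!
The induction: closed form of all rows.
-/

open Polynomial

set_option linter.unusedSectionVars false

namespace Pool.Agent.Lib.MP_610b40_an

variable {K V : Type*} [Field K] [AddCommGroup V] [Module K V]
    {B : LinearMap.BilinForm K V} {n d : ℕ} [NeZero n]

/-- Hypotheses of the inductive part. -/
structure Hyp (B : LinearMap.BilinForm K V) (n d : ℕ) [NeZero n] (T : ℕ)
    (x : ℕ → ZMod n → V) (D : PD K V B n d)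
    (α β : ZMod n → K[X] →ₗ[K] K[X] →ₗ[K] K) : Prop where
  h2 : (2 : K) ≠ 0
  hs : ∀ u v, B u v = B v u
  hd : 1 ≤ d
  R1 : ∀ a j, (a = j + 1 ∨ NAdj d a j) → ∀ F G,
        B (D.phi a F) (D.psi j G) = α a F G + β j F G
  R2 : ∀ a F G, α a F G + α a G F = B (D.phi a F) (D.phi a G)
  R3 : ∀ j F G, β j ((X + 1) * F) G + β j ((X + 1) * G) F = B (D.psi j F) (D.psi j G)
  x0 : ∀ a, x 0 a = D.M
  x1 : ∀ j, x 1 j = D.Xv j
  x2 : ∀ a, ∃ r : K, r ≠ 0 ∧ x 2 a = r • D.LL α a 1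
  null : ∀ t, t ≤ T → ∀ a, B (x t a) (x t a) = 0
  /-- even row `t`, next row -/
  orE : ∀ t, t < T → Even t → ∀ a j, NAdj d a j → B (x t a) (x (t + 1) j) = 0
  orO : ∀ t, t < T → Odd t → ∀ a j, NAdj d a j → B (x t j) (x (t + 1) a) = 0
  ne : ∀ t, t + 2 ≤ T → ∀ a, B (x t a) (x (t + 2) a) ≠ 0
  dist : ∀ t, 1 ≤ t → t < T → ∀ a, ∀ p q : K, p • x t a = q • x t (a + 1) → p = 0 ∧ q = 0
  planeO : ∀ t, t + 2 ≤ T → Odd (t + 1) → ∀ a, ∀ v, (∀ j, NAdj d a j → B v (x (t + 1) j) = 0) →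
    ∃ p q : K, v = p • x t a + q • x (t + 2) a
  planeE : ∀ t, t + 2 ≤ T → Even (t + 1) → ∀ j, ∀ v, (∀ a, NAdj d a j → B v (x (t + 1) a) = 0) →
    ∃ p q : K, v = p • x t j + q • x (t + 2) j

section preds

variable (D : PD K V B n d) (α β : ZMod n → K[X] →ₗ[K] K[X] →ₗ[K] K)

def PA (a : ZMod n) (m : ℕ) (F : K[X]) : Prop :=
  F ∈ degreeLT K (m + 1) ∧ F.coeff m = 1 ∧ ∀ G ∈ degreeLT K m, α a F (X * G) = 0

def PF (j : ZMod n) (m : ℕ) (F : K[X]) : Prop :=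
  F ∈ degreeLT K (m + 1) ∧ F.coeff m = 1 ∧ ∀ H ∈ degreeLT K m, β j (X * H) F = 0

def PG (j : ZMod n) (m : ℕ) (G : K[X]) : Prop :=
  G ∈ degreeLT K m ∧ ∀ H ∈ degreeLT K m, β j (X * H) G = - D.cc j (X * H)

def NDA (a : ZMod n) (m : ℕ) : Prop :=
  ∀ F ∈ degreeLT K m, (∀ G ∈ degreeLT K m, α a F (X * G) = 0) → F = 0

def NDB (j : ZMod n) (m : ℕ) : Prop :=
  ∀ F ∈ degreeLT K m, (∀ H ∈ degreeLT K m, β j (X * H) F = 0) → F = 0

end preds

section algebra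

variable {D : PD K V B n d} {α β : ZMod n → K[X] →ₗ[K] K[X] →ₗ[K] K}

lemma addDivX_mem {m : ℕ} {F : K[X]} (h : F ∈ degreeLT K m) : F + F.divX ∈ degreeLT K m :=
  Submodule.add_mem _ h (divX_mem' h)

lemma addDivX_coeff {m : ℕ} {F : K[X]} (h : F ∈ degreeLT K (m + 1)) :
    (F + F.divX).coeff m = F.coeff m := by
  rw [Polynomial.coeff_add, Polynomial.coeff_divX, mem_lt_iff.1 h (m + 1) le_rfl, add_zero]

/-- top coefficient lemma for `G ↦ α a F (X * G)` -/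
lemma topA {a : ZMod n} {F : K[X]} {m : ℕ} (h : ∀ G ∈ degreeLT K m, α a F (X * G) = 0)
    {G : K[X]} (hG : G ∈ degreeLT K (m + 1)) :
    α a F (X * G) = G.coeff m * α a F (X * X ^ m) :=
  top ((α a F) ∘ₗ mulX K) h hG

lemma topB {j : ZMod n} {F : K[X]} {m : ℕ} (h : ∀ H ∈ degreeLT K m, β j (X * H) F = 0)
    {H : K[X]} (hH : H ∈ degreeLT K (m + 1)) :
    β j (X * H) F = H.coeff m * β j (X * X ^ m) F :=
  top (((β j).flip F) ∘ₗ mulX K) h hH

lemma topG {j : ZMod n} {G : K[X]} {m : ℕ}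
    (h : ∀ H ∈ degreeLT K m, D.cc j (X * H) + β j (X * H) G = 0)
    {H : K[X]} (hH : H ∈ degreeLT K (m + 1)) :
    D.cc j (X * H) + β j (X * H) G = H.coeff m * (D.cc j (X * X ^ m) + β j (X * X ^ m) G) :=
  top ((D.cc j + (β j).flip G) ∘ₗ mulX K) h hH

lemma NDA_succ {a : ZMod n} {m : ℕ} (hn : NDA α a m) {F : K[X]} (hF : PA α a m F)
    (hh : α a F (X * X ^ m) ≠ 0) : NDA α a (m + 1) := by
  intro F' hF' h'
  have h1 : F' - F'.coeff m • F = 0 := by
    apply hn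
    · rw [mem_lt_iff]
      intro i hi
      rw [Polynomial.coeff_sub, Polynomial.coeff_smul, smul_eq_mul]
      rcases eq_or_lt_of_le hi with rfl | hlt
      · rw [hF.2.1]; ring
      · rw [mem_lt_iff.1 hF' i (by omega), mem_lt_iff.1 hF.1 i (by omega)]; ring
    · intro G hG
      rw [map_sub, map_smul, LinearMap.sub_apply, LinearMap.smul_apply, h' G (lt_mono hG),
        hF.2.2 G hG]
      simp
  have h3 := h' (X ^ m) (X_pow_mem m)
  rw [sub_eq_zero] at h1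
  rw [h1, map_smul, LinearMap.smul_apply, smul_eq_mul, mul_eq_zero] at h3
  rcases h3 with h3 | h3
  · rw [h1, h3, zero_smul]
  · exact absurd h3 hh

lemma NDB_succ {j : ZMod n} {m : ℕ} (hn : NDB β j m) {F : K[X]} (hF : PF β j m F)
    (hh : β j (X * X ^ m) F ≠ 0) : NDB β j (m + 1) := by
  intro F' hF' h'
  have h1 : F' - F'.coeff m • F = 0 := by
    apply hn
    · rw [mem_lt_iff]
      intro i hi
      rw [Polynomial.coeff_sub, Polynomial.coeff_smul, smul_eq_mul]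
      rcases eq_or_lt_of_le hi with rfl | hlt
      · rw [hF.2.1]; ring
      · rw [mem_lt_iff.1 hF' i (by omega), mem_lt_iff.1 hF.1 i (by omega)]; ring
    · intro G hG
      rw [map_sub, map_smul, h' G (lt_mono hG), hF.2.2 G hG]
      simp
  have h3 := h' (X ^ m) (X_pow_mem m)
  rw [sub_eq_zero] at h1
  rw [h1, map_smul, smul_eq_mul, mul_eq_zero] at h3
  rcases h3 with h3 | h3
  · rw [h1, h3, zero_smul]
  · exact absurd h3 hh

lemma exists_QA {a : ZMod n} {m : ℕ} (hn : NDA α a m) :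
    ∃ Q : K[X], Q ∈ degreeLT K (m + 2) ∧ Q.coeff (m + 1) = 1 ∧
      ∀ G ∈ degreeLT K m, α a Q (X * G) = 0 := by
  obtain ⟨R, hR, hR'⟩ := solve ((LinearMap.lcomp K K (mulX K)) ∘ₗ (α a)) m
    (fun F hF h => hn F hF (fun G hG => h G hG)) (-((α a (X ^ (m + 1))) ∘ₗ mulX K))
  have hR'' : ∀ G ∈ degreeLT K m, α a R (X * G) = - α a (X ^ (m + 1)) (X * G) := by
    intro G hG
    have := hR' G hG
    simpa using this
  refine ⟨X ^ (m + 1) + R, ?_, ?_, ?_⟩
  · exact Submodule.add_mem _ (X_pow_mem (m + 1)) (lt_mono (lt_mono hR))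
  · rw [Polynomial.coeff_add, mem_lt_iff.1 hR (m + 1) (by omega), Polynomial.coeff_X_pow]
    simp
  · intro G hG
    rw [map_add, LinearMap.add_apply, hR'' G hG]
    ring

lemma exists_QB {j : ZMod n} {m : ℕ} (hn : NDB β j m) :
    ∃ Q : K[X], Q ∈ degreeLT K (m + 2) ∧ Q.coeff (m + 1) = 1 ∧
      ∀ H ∈ degreeLT K m, β j (X * H) Q = 0 := by
  obtain ⟨R, hR, hR'⟩ := solve ((LinearMap.lcomp K K (mulX K)) ∘ₗ (β j).flip) m
    (fun F hF h => hn F hF (fun G hG => h G hG)) (-(((β j).flip (X ^ (m + 1))) ∘ₗ mulX K))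
  have hR'' : ∀ G ∈ degreeLT K m, β j (X * G) R = - β j (X * G) (X ^ (m + 1)) := by
    intro G hG
    have := hR' G hG
    simpa using this
  refine ⟨X ^ (m + 1) + R, ?_, ?_, ?_⟩
  · exact Submodule.add_mem _ (X_pow_mem (m + 1)) (lt_mono (lt_mono hR))
  · rw [Polynomial.coeff_add, mem_lt_iff.1 hR (m + 1) (by omega), Polynomial.coeff_X_pow]
    simp
  · intro G hG
    rw [map_add, hR'' G hG]
    ring

/-- next left polynomial -/
lemma next_PA {a : ZMod n} {m : ℕ} {F Q : K[X]} (hF : PA α a m F)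
    (hQ : Q ∈ degreeLT K (m + 2)) (hQ1 : Q.coeff (m + 1) = 1)
    (hQ2 : ∀ G ∈ degreeLT K m, α a Q (X * G) = 0) (hh : α a F (X * X ^ m) ≠ 0) :
    ∃ F' : K[X], PA α a (m + 1) F' := by
  refine ⟨Q - (α a Q (X * X ^ m) / α a F (X * X ^ m)) • F, ?_, ?_, ?_⟩
  · exact Submodule.sub_mem _ hQ (Submodule.smul_mem _ _ (lt_mono hF.1))
  · rw [Polynomial.coeff_sub, Polynomial.coeff_smul, hQ1, mem_lt_iff.1 hF.1 (m + 1) le_rfl]
    simp
  · intro G hG
    rw [map_sub, map_smul, LinearMap.sub_apply, LinearMap.smul_apply, topA hQ2 hG,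
      topA hF.2.2 hG, smul_eq_mul]
    field_simp
    ring

lemma next_PF {j : ZMod n} {m : ℕ} {F Q : K[X]} (hF : PF β j m F)
    (hQ : Q ∈ degreeLT K (m + 2)) (hQ1 : Q.coeff (m + 1) = 1)
    (hQ2 : ∀ G ∈ degreeLT K m, β j (X * G) Q = 0) (hh : β j (X * X ^ m) F ≠ 0) :
    ∃ F' : K[X], PF β j (m + 1) F' := by
  refine ⟨Q - (β j (X * X ^ m) Q / β j (X * X ^ m) F) • F, ?_, ?_, ?_⟩
  · exact Submodule.sub_mem _ hQ (Submodule.smul_mem _ _ (lt_mono hF.1))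
  · rw [Polynomial.coeff_sub, Polynomial.coeff_smul, hQ1, mem_lt_iff.1 hF.1 (m + 1) le_rfl]
    simp
  · intro G hG
    rw [map_sub, map_smul, topB hQ2 hG, topB hF.2.2 hG, smul_eq_mul]
    field_simp
    ring

/-- next odd-row polynomial -/
lemma next_PG {j : ZMod n} {m : ℕ} {F G : K[X]} (hF : PF β j m F) (hG : PG D β j m G)
    (hh : β j (X * X ^ m) F ≠ 0) :
    PG D β j (m + 1)
      (G + (-(D.cc j (X * X ^ m) + β j (X * X ^ m) G) / β j (X * X ^ m) F) • F) := by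
  constructor
  · exact Submodule.add_mem _ (lt_mono hG.1) (Submodule.smul_mem _ _ hF.1)
  · intro H hH
    have e1 := topG (D := D) (β := β) (j := j) (G := G) (m := m)
      (fun H hH => by rw [hG.2 H hH]; ring) hH
    rw [map_add, map_smul, smul_eq_mul, topB hF.2.2 hH]
    field_simp
    linear_combination e1

end algebra

end Pool.Agent.Lib.MP_610b40_an
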