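import Mathlib
import Pool.Agent.Lib.MP_610b40_an.Ind

/-!
The inductive step for the closed form of the rows.
-/

open Polynomial

set_option linter.unusedSectionVars false

namespace Pool.Agent.Lib.MP_610b40_an

variable {K V : Type*} [Field K] [AddCommGroup V] [Module K V]
    {B : LinearMap.BilinForm K V} {n d : ℕ} [NeZero n]

section inner

variable {T : ℕ} {x : ℕ → ZMod n → V} {D : PD K V B n d}
  {α β : ZMod n → K[X] →ₗ[K] K[X] →ₗ[K] K}

lemma ip_a (h : Hyp B n d T x D α β) {a j : ZMod n} (haj : a = j + 1 ∨ NAdj d a j) {m : ℕ}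
    {F F' : K[X]} (hF : PA α a m F) (hF' : PF β j m F') :
    B (D.LL α a F) (D.RL β j F') = 0 := by
  rw [D.LL_RL h.hs F F' (h.R1 a j haj F F'), hF.2.2 _ (divX_mem hF'.1),
    hF'.2.2 _ (divX_mem hF.1), add_zero]

lemma ip_b (h : Hyp B n d T x D α β) {a j : ZMod n} (haj : a = j + 1 ∨ NAdj d a j) {m : ℕ}
    {F F' : K[X]} (hF : PA α a m F) (hF' : PF β j (m + 1) F') :
    B (D.LL α a F) (D.RL β j F') = α a F (X * X ^ m) := by
  rw [D.LL_RL h.hs F F' (h.R1 a j haj F F'), topA hF.2.2 (divX_mem hF'.1),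
    hF'.2.2 _ (lt_mono (divX_mem hF.1)), Polynomial.coeff_divX, hF'.2.1]
  ring

lemma ip_c (h : Hyp B n d T x D α β) {a j : ZMod n} (haj : a = j + 1 ∨ NAdj d a j) {m : ℕ}
    {Q F' : K[X]} (hQ : Q ∈ degreeLT K (m + 2)) (hQ1 : Q.coeff (m + 1) = 1)
    (hQ2 : ∀ G ∈ degreeLT K m, α a Q (X * G) = 0) (hF' : PF β j m F') :
    B (D.LL α a Q) (D.RL β j F') = β j (X * X ^ m) F' := by
  rw [D.LL_RL h.hs Q F' (h.R1 a j haj Q F'), hQ2 _ (divX_mem hF'.1),
    topB hF'.2.2 (divX_mem hQ), Polynomial.coeff_divX, hQ1]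
  ring

lemma ip_d (h : Hyp B n d T x D α β) {a : ZMod n} {m : ℕ}
    {Q F : K[X]} (hQ : Q ∈ degreeLT K (m + 2)) (hQ1 : Q.coeff (m + 1) = 1)
    (hQ2 : ∀ G ∈ degreeLT K m, α a Q (X * G) = 0) (hF : PA α a m F) :
    B (D.LL α a Q) (D.LL α a F) = α a F (X * X ^ m) := by
  rw [D.LL_LL h.hs Q F (h.R2 a Q F), hQ2 _ (divX_mem hF.1),
    topA hF.2.2 (divX_mem hQ), Polynomial.coeff_divX, hQ1]
  ring

lemma ip_d0 (h : Hyp B n d T x D α β) {a : ZMod n} {m : ℕ} {F : K[X]} (hF : PA α a m F) :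
    B (D.LL α a F) (D.LL α a F) = 0 := by
  rw [D.LL_LL h.hs F F (h.R2 a F F), hF.2.2 _ (divX_mem hF.1), add_zero]

lemma ip_e (h : Hyp B n d T x D α β) {j : ZMod n} {m : ℕ} {F : K[X]} (hF : PF β j m F) :
    B (D.RL β j F) (D.RL β j F) = 2 * β j (X * X ^ m) F := by
  rw [D.RL_RL h.hs F F (h.R3 j F F), topB hF.2.2 (addDivX_mem hF.1),
    addDivX_coeff hF.1, hF.2.1]
  ring

lemma ip_f (h : Hyp B n d T x D α β) {j : ZMod n} {m : ℕ} {G : K[X]} (hG : PG D β j m G) :
    B (D.Xv j + D.RL β j G) (D.Xv j + D.RL β j G) = 0 := by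
  have e1 := D.RL_Xv (β := β) h.hs (j := j) G
  have e2 := D.RL_RL (β := β) h.hs G G (h.R3 j G G)
  rw [hG.2 _ (addDivX_mem hG.1)] at e2
  simp only [map_add, LinearMap.add_apply, D.Xv_Xv h.hs]
  rw [h.hs (D.Xv j) (D.RL β j G), e1, e2]
  ring

lemma ip_g (h : Hyp B n d T x D α β) {a j : ZMod n} (haj : NAdj d a j) {m : ℕ}
    {F G : K[X]} (hF : F ∈ degreeLT K (m + 1)) (hG : PG D β j m G)
    (h0 : α a F (X * G.divX) = 0) :
    B (D.LL α a F) (D.Xv j + D.RL β j G) = 0 := by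
  rw [map_add, D.LL_Xv h.hs haj, D.LL_RL h.hs F G (h.R1 a j (Or.inr haj) F G), h0,
    hG.2 _ (divX_mem hF)]
  ring

lemma ip_h (h : Hyp B n d T x D α β) {j : ZMod n} {m : ℕ}
    {F G : K[X]} (hF : PF β j m F) (hG : PG D β j m G) :
    B (D.Xv j + D.RL β j G) (D.RL β j F) = D.cc j (X * X ^ m) + β j (X * X ^ m) G := by
  have e1 := D.RL_Xv (β := β) h.hs (j := j) F
  have e2 := D.RL_RL (β := β) h.hs F G (h.R3 j F G)
  rw [hF.2.2 _ (addDivX_mem hG.1), add_zero] at e2
  have e3 := topG (D := D) (β := β) (j := j) (G := G) (m := m)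
      (fun H hH => by rw [hG.2 H hH]; ring) (addDivX_mem hF.1)
  rw [addDivX_coeff hF.1, hF.2.1, one_mul] at e3
  simp only [map_add, LinearMap.add_apply]
  rw [h.hs (D.Xv j) (D.RL β j F), h.hs (D.RL β j G) (D.RL β j F), e1, e2, e3]

lemma ip_i (h : Hyp B n d T x D α β) {j : ZMod n} {m : ℕ}
    {G G' : K[X]} (hG : PG D β j m G) (hG' : PG D β j (m + 1) G') :
    B (D.Xv j + D.RL β j G) (D.Xv j + D.RL β j G') =
      G'.coeff m * (D.cc j (X * X ^ m) + β j (X * X ^ m) G) := by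
  have e1 := D.RL_Xv (β := β) h.hs (j := j) G
  have e1' := D.RL_Xv (β := β) h.hs (j := j) G'
  have e2 := D.RL_RL (β := β) h.hs G G' (h.R3 j G G')
  rw [hG'.2 _ (lt_mono (addDivX_mem hG.1))] at e2
  have e3 := topG (D := D) (β := β) (j := j) (G := G) (m := m)
      (fun H hH => by rw [hG.2 H hH]; ring) (addDivX_mem hG'.1)
  rw [addDivX_coeff hG'.1] at e3
  simp only [map_add, LinearMap.add_apply, D.Xv_Xv h.hs]
  rw [h.hs (D.Xv j) (D.RL β j G'), e1, e1', e2]
  linear_combination e3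

end inner

/-- the state of the induction -/
structure Stage {T : ℕ} {x : ℕ → ZMod n → V} {D : PD K V B n d}
    {α β : ZMod n → K[X] →ₗ[K] K[X] →ₗ[K] K} (_h : Hyp B n d T x D α β) (m : ℕ) : Prop where
  nda : ∀ a, NDA α a m
  ndb : ∀ j, NDB β j m
  ra : ∀ a, ∃ F, PA α a m F ∧ ∃ r : K, r ≠ 0 ∧ x (2 * m + 2) a = r • D.LL α a F
  rg : ∀ j, ∃ G, PG D β j m G ∧ ∃ r : K, r ≠ 0 ∧ x (2 * m + 1) j = r • (D.Xv j + D.RL β j G)
  rf : ∀ j, ∃ F, PF β j m F ∧ ∀ a, (a = j + 1 ∨ NAdj d a j) → B (x (2 * m) a) (D.RL β j F) ≠ 0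

section step

variable {T : ℕ} {x : ℕ → ZMod n → V} {D : PD K V B n d}
  {α β : ZMod n → K[X] →ₗ[K] K[X] →ₗ[K] K}

lemma stage_zero (h : Hyp B n d T x D α β) : Stage h 0 := by
  have hz : ∀ F : K[X], F ∈ degreeLT K 0 → F = 0 := by
    intro F hF
    ext i
    exact mem_lt_iff.1 hF i (Nat.zero_le _)
  refine ⟨fun a F hF _ => hz F hF, fun j F hF _ => hz F hF, fun a => ?_, fun j => ?_,
    fun j => ?_⟩
  · refine ⟨1, ⟨?_, by simp, ?_⟩, ?_⟩
    · simpa using X_pow_mem (K := K) 0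
    · intro G hG; rw [hz G hG]; simp
    · simpa using h.x2 a
  · refine ⟨0, ⟨Submodule.zero_mem _, ?_⟩, 1, one_ne_zero, ?_⟩
    · intro H hH; rw [hz H hH]; simp
    · rw [one_smul]
      have : D.RL β j 0 = 0 := by unfold PD.RL; simp
      rw [this, add_zero]
      simpa using h.x1 j
  · refine ⟨1, ⟨?_, by simp, ?_⟩, ?_⟩
    · simpa using X_pow_mem (K := K) 0
    · intro G hG; rw [hz G hG]; simp
    · intro a _
      rw [Nat.mul_zero, h.x0, D.M_RL j h.hs]
      exact one_ne_zero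

lemma stage_succ (h : Hyp B n d T x D α β) {m : ℕ} (hm : 2 * m + 4 ≤ T) (S : Stage h m) :
    Stage h (m + 1) := by
  have hs := h.hs
  choose FA hFA rA hrA hxA using S.ra
  choose G hG rG hrG hxG using S.rg
  choose F hF hxF using S.rf
  have adj0 : ∀ a : ZMod n, NAdj d a a := fun a => ⟨0, h.hd, by simp⟩
  -- the right lift lies in two planes
  have perp : ∀ a j, (a = j + 1 ∨ NAdj d a j) → B (D.RL β j (F j)) (x (2 * m + 2) a) = 0 := by
    intro a j haj
    rw [hxA a, map_smul, hs, ip_a h haj (hFA a) (hF j), smul_zero]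
  have pl1 : ∀ j, ∃ p q : K, D.RL β j (F j) = p • x (2 * m + 1) j + q • x (2 * m + 3) j := by
    intro j
    exact h.planeE (2 * m + 1) (by omega) ⟨m + 1, by ring⟩ j _
      (fun a ha => perp a j (Or.inr ha))
  have pl2 : ∀ j, ∃ p q : K, D.RL β j (F j) =
      p • x (2 * m + 1) (j + 1) + q • x (2 * m + 3) (j + 1) := by
    intro j
    refine h.planeE (2 * m + 1) (by omega) ⟨m + 1, by ring⟩ (j + 1) _ (fun a ha => ?_)
    apply perp
    obtain ⟨i, hi, e⟩ := ha
    rcases i with _ | i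
    · left; simpa using e.symm
    · right
      refine ⟨i, by omega, ?_⟩
      push_cast at e
      linear_combination e
  -- null vectors in planes
  have nul : ∀ t, t + 2 ≤ T → ∀ a, ∀ p q : K, ∀ v, v = p • x t a + q • x (t + 2) a →
      B v v = 2 * (p * q * B (x t a) (x (t + 2) a)) := by
    intro t ht a p q v hv
    rw [hv]
    simp only [map_add, map_smul, LinearMap.add_apply, LinearMap.smul_apply, smul_eq_mul]
    rw [h.null t (by omega), h.null (t + 2) ht, hs (x (t + 2) a) (x t a)]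
    ring
  -- h_j ≠ 0
  have hh : ∀ j, β j (X * X ^ m) (F j) ≠ 0 := by
    intro j h0
    obtain ⟨p, q, e1⟩ := pl1 j
    obtain ⟨p', q', e2⟩ := pl2 j
    have n0 := ip_e h (hF j)
    rw [h0, mul_zero] at n0
    have n1 := nul (2 * m + 1) (by omega) j p q _ e1
    have n2 := nul (2 * m + 1) (by omega) (j + 1) p' q' _ e2
    rw [n0] at n1 n2
    have c1 : q ≠ 0 := by
      intro hq
      have := hxF j j (Or.inr (adj0 j))
      apply this
      rw [e1, hq, zero_smul, add_zero, map_smul,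
        h.orE (2 * m) (by omega) ⟨m, by ring⟩ j j (adj0 j), smul_zero]
    have c2 : q' ≠ 0 := by
      intro hq
      have := hxF j (j + 1) (Or.inl rfl)
      apply this
      rw [e2, hq, zero_smul, add_zero, map_smul,
        h.orE (2 * m) (by omega) ⟨m, by ring⟩ (j + 1) (j + 1) (adj0 _), smul_zero]
    have d1 : p = 0 := by
      have := h.ne (2 * m + 1) (by omega) j
      have n3 := n1.symm
      simp only [mul_eq_zero] at n3
      rcases n3 with n3 | n3
      · exact absurd n3 h.h2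
      · tauto
    have d2 : p' = 0 := by
      have := h.ne (2 * m + 1) (by omega) (j + 1)
      have n3 := n2.symm
      simp only [mul_eq_zero] at n3
      rcases n3 with n3 | n3
      · exact absurd n3 h.h2
      · tauto
    rw [d1, zero_smul, zero_add] at e1
    rw [d2, zero_smul, zero_add] at e2
    exact c1 (h.dist (2 * m + 3) (by omega) (by omega) j q q' (e1 ▸ e2)).1
  -- kappa ≠ 0
  have hk : ∀ j, D.cc j (X * X ^ m) + β j (X * X ^ m) (G j) ≠ 0 := by
    intro j h0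
    obtain ⟨p, q, e1⟩ := pl1 j
    have n1 := nul (2 * m + 1) (by omega) j p q _ e1
    rw [ip_e h (hF j)] at n1
    have c1 : q ≠ 0 := by
      rintro rfl
      apply hh j
      have : (2 : K) * β j (X * X ^ m) (F j) = 0 := by rw [n1]; ring
      simpa [h.h2] using this
    have e3 : B (x (2 * m + 1) j) (D.RL β j (F j)) = 0 := by
      rw [hxG j, map_smul, LinearMap.smul_apply, ip_h h (hF j) (hG j), h0, smul_zero]
    rw [e1] at e3
    simp only [map_add, map_smul, smul_eq_mul] at e3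
    rw [h.null _ (by omega), mul_zero, zero_add, mul_eq_zero] at e3
    rcases e3 with e3 | e3
    · exact c1 e3
    · exact h.ne (2 * m + 1) (by omega) j e3
  -- next odd row
  set g : ZMod n → K := fun j => -(D.cc j (X * X ^ m) + β j (X * X ^ m) (G j)) /
    β j (X * X ^ m) (F j) with hg
  set G' : ZMod n → K[X] := fun j => G j + g j • F j with hG'def
  have hG' : ∀ j, PG D β j (m + 1) (G' j) := fun j => next_PG (hF j) (hG j) (hh j)
  have hG'c : ∀ j, (G' j).coeff m = g j := by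
    intro j
    simp only [hG'def]
    rw [Polynomial.coeff_add, Polynomial.coeff_smul, (hF j).2.1,
      mem_lt_iff.1 (hG j).1 m le_rfl]
    simp
  have hg0 : ∀ j, g j ≠ 0 := by
    intro j
    simp only [hg]
    exact div_ne_zero (neg_ne_zero.2 (hk j)) (hh j)
  have odd' : ∀ j, ∃ r : K, r ≠ 0 ∧ x (2 * m + 3) j = r • (D.Xv j + D.RL β j (G' j)) := by
    intro j
    have pr : ∀ a, NAdj d a j → B (D.Xv j + D.RL β j (G' j)) (x (2 * m + 2) a) = 0 := by
      intro a ha
      rw [hxA a, map_smul, hs, ip_g h ha (lt_mono (hFA a).1) (hG' j)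
        ((hFA a).2.2 _ (divX_mem (hG' j).1)), smul_zero]
    obtain ⟨p, q, e1⟩ := h.planeE (2 * m + 1) (by omega) ⟨m + 1, by ring⟩ j _ pr
    have n1 := nul (2 * m + 1) (by omega) j p q _ e1
    rw [ip_f h (hG' j)] at n1
    have e3 : B (x (2 * m + 1) j) (D.Xv j + D.RL β j (G' j)) ≠ 0 := by
      rw [hxG j, map_smul, LinearMap.smul_apply, ip_i h (hG j) (hG' j), hG'c]
      exact smul_ne_zero (hrG j) (mul_ne_zero (hg0 j) (hk j))
    have c1 : q ≠ 0 := by
      rintro rfl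
      apply e3
      rw [e1, zero_smul, add_zero, map_smul, h.null _ (by omega), smul_zero]
    have d1 : p = 0 := by
      have := h.ne (2 * m + 1) (by omega) j
      have n3 := n1.symm
      simp only [mul_eq_zero] at n3
      rcases n3 with n3 | n3
      · exact absurd n3 h.h2
      · tauto
    refine ⟨q⁻¹, inv_ne_zero c1, ?_⟩
    rw [e1, d1, zero_smul, zero_add, smul_smul, inv_mul_cancel₀ c1, one_smul]
  -- Q for the even row
  have exQ : ∀ a, ∃ Q : K[X], Q ∈ degreeLT K (m + 2) ∧ Q.coeff (m + 1) = 1 ∧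
      ∀ G ∈ degreeLT K m, α a Q (X * G) = 0 := fun a => exists_QA (S.nda a)
  choose Q hQ hQ1 hQ2 using exQ
  choose r3 hr3 hx3 using odd'
  have plQ : ∀ a, ∀ Q : K[X], Q ∈ degreeLT K (m + 2) →
      (∀ G ∈ degreeLT K m, α a Q (X * G) = 0) → ∃ p q : K,
      D.LL α a Q = p • x (2 * m + 2) a + q • x (2 * m + 4) a := by
    intro a Q hQ hQ2
    refine h.planeO (2 * m + 2) (by omega) ⟨m + 1, by ring⟩ a _ (fun j hj => ?_)
    rw [show 2 * m + 2 + 1 = 2 * m + 3 by ring, hx3 j, map_smul,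
      ip_g h hj hQ (hG' j) (hQ2 _ (divX_mem (hG' j).1)), smul_zero]
  have hH : ∀ a, α a (FA a) (X * X ^ m) ≠ 0 := by
    intro a h0
    obtain ⟨p, q, e1⟩ := plQ a (Q a) (hQ a) (hQ2 a)
    have c1 : q ≠ 0 := by
      rintro rfl
      have e2 := ip_c h (Or.inr (adj0 a)) (hQ a) (hQ1 a) (hQ2 a) (hF a)
      apply hh a
      rw [← e2, e1, zero_smul, add_zero, map_smul, LinearMap.smul_apply, hs,
        perp a a (Or.inr (adj0 a)), smul_zero]
    have e3 : B (D.LL α a (Q a)) (x (2 * m + 2) a) = 0 := by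
      rw [hxA a, map_smul, ip_d h (hQ a) (hQ1 a) (hQ2 a) (hFA a), h0, smul_zero]
    rw [e1] at e3
    simp only [map_add, map_smul, LinearMap.add_apply, LinearMap.smul_apply, smul_eq_mul] at e3
    rw [h.null _ (by omega), mul_zero, zero_add, mul_eq_zero] at e3
    rcases e3 with e3 | e3
    · exact c1 e3
    · rw [hs] at e3
      exact h.ne (2 * m + 2) (by omega) a e3
  have exFA' : ∀ a, ∃ F', PA α a (m + 1) F' := fun a =>
    next_PA (hFA a) (hQ a) (hQ1 a) (hQ2 a) (hH a)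
  have exF' : ∀ j, ∃ F', PF β j (m + 1) F' := by
    intro j
    obtain ⟨Q', h1, h2, h3⟩ := exists_QB (S.ndb j)
    exact next_PF (hF j) h1 h2 h3 (hh j)
  refine ⟨fun a => NDA_succ (S.nda a) (hFA a) (hH a), fun j => NDB_succ (S.ndb j) (hF j) (hh j),
    fun a => ?_, fun j => ?_, fun j => ?_⟩
  · obtain ⟨F', hF'⟩ := exFA' a
    refine ⟨F', hF', ?_⟩
    have hF'2 : ∀ G ∈ degreeLT K m, α a F' (X * G) = 0 := fun G hG => hF'.2.2 G (lt_mono hG)
    obtain ⟨p, q, e1⟩ := plQ a F' hF'.1 hF'2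
    have n1 := nul (2 * m + 2) (by omega) a p q _ e1
    rw [ip_d0 h hF'] at n1
    have c1 : q ≠ 0 := by
      rintro rfl
      have e2 := ip_d h hF'.1 hF'.2.1 hF'2 (hFA a)
      apply hH a
      have e4 : B (D.LL α a F') (x (2 * m + 2) a) = 0 := by
        rw [e1, zero_smul, add_zero, map_smul, LinearMap.smul_apply, h.null _ (by omega),
          smul_zero]
      rw [hxA a, map_smul, smul_eq_mul, mul_eq_zero] at e4
      rcases e4 with e4 | e4
      · exact absurd e4 (hrA a)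
      · rw [← e2, e4]
    have d1 : p = 0 := by
      have := h.ne (2 * m + 2) (by omega) a
      have n3 := n1.symm
      simp only [mul_eq_zero] at n3
      rcases n3 with n3 | n3
      · exact absurd n3 h.h2
      · tauto
    refine ⟨q⁻¹, inv_ne_zero c1, ?_⟩
    rw [show 2 * (m + 1) + 2 = 2 * m + 4 by ring, e1, d1, zero_smul, zero_add, smul_smul,
      inv_mul_cancel₀ c1, one_smul]
  · refine ⟨G' j, hG' j, r3 j, hr3 j, ?_⟩
    rw [show 2 * (m + 1) + 1 = 2 * m + 3 by ring]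
    exact hx3 j
  · obtain ⟨F', hF'⟩ := exF' j
    refine ⟨F', hF', fun a ha => ?_⟩
    rw [show 2 * (m + 1) = 2 * m + 2 by ring, hxA a, map_smul, LinearMap.smul_apply,
      ip_b h ha (hFA a) hF']
    exact smul_ne_zero (hrA a) (hH a)

lemma stage_all (h : Hyp B n d T x D α β) (m : ℕ) (hm : 2 * m + 2 ≤ T) : Stage h m := by
  induction m with
  | zero => exact stage_zero h
  | succ m ih => exact stage_succ h (by omega) (ih (by omega))

/-- A monic radical element of degree `m` makes row `2m+2` constant. -/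
lemma row_const (h : Hyp B n d T x D α β) (m : ℕ) (hm : 2 * m + 2 ≤ T) (χ : K[X])
    (hχ : χ ∈ degreeLT K (m + 1)) (hχ1 : χ.coeff m = 1)
    (hrad : ∀ a G, α a χ (X * G) = 0) (a : ZMod n) :
    ∃ r : K, r ≠ 0 ∧ x (2 * m + 2) a = r • D.LL α a χ := by
  have S := stage_all h m hm
  obtain ⟨F, hF, r, hr, hx⟩ := S.ra a
  have : F - χ = 0 := by
    apply S.nda a
    · rw [mem_lt_iff]
      intro i hi
      rw [Polynomial.coeff_sub]
      rcases eq_or_lt_of_le hi with rfl | hlt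
      · rw [hF.2.1, hχ1, sub_self]
      · rw [mem_lt_iff.1 hF.1 i (by omega), mem_lt_iff.1 hχ i (by omega), sub_self]
    · intro G hG
      rw [map_sub, LinearMap.sub_apply, hF.2.2 G hG, hrad, sub_self]
  rw [sub_eq_zero] at this
  exact ⟨r, hr, this ▸ hx⟩

end step

end Pool.Agent.Lib.MP_610b40_an
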