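import Mathlib

set_option autoImplicit false

/-!
The Krylov dimension count.
-/

open Polynomial Module

namespace Pool.Agent.Lib.MP_610b40_an

/-- A linear map on `K[X]` whose range has dimension at most `r` kills a monic polynomial of
degree at most `r`. -/
theorem exists_monic_ker {K W : Type*} [Field K] [AddCommGroup W] [Module K W]
    (f : K[X] →ₗ[K] W) [FiniteDimensional K (LinearMap.range f)] (r : ℕ)
    (hr : finrank K (LinearMap.range f) ≤ r) :
    ∃ μ : K[X], μ.Monic ∧ μ.natDegree ≤ r ∧ f μ = 0 := by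
  let g : Polynomial.degreeLT K (r + 1) →ₗ[K] LinearMap.range f :=
    f.rangeRestrict.comp (Polynomial.degreeLT K (r + 1)).subtype
  have hfin : finrank K (Polynomial.degreeLT K (r + 1)) = r + 1 := by
    rw [(Polynomial.degreeLTEquiv K (r + 1)).finrank_eq, Module.finrank_fin_fun]
  have : FiniteDimensional K (Polynomial.degreeLT K (r + 1)) :=
    FiniteDimensional.of_finrank_pos (by omega)
  obtain ⟨x, hx, hx0⟩ : ∃ x ∈ LinearMap.ker g, x ≠ 0 := by
    rw [← Submodule.ne_bot_iff]
    intro hbot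
    have h1 := LinearMap.finrank_le_finrank_of_injective (f := g) (LinearMap.ker_eq_bot.1 hbot)
    omega
  have hx1 : f x.1 = 0 := congrArg Subtype.val (LinearMap.mem_ker.1 hx)
  have hxne : x.1 ≠ 0 := fun h => hx0 (Subtype.ext h)
  have hlc : x.1.leadingCoeff ≠ 0 := leadingCoeff_ne_zero.2 hxne
  refine ⟨Polynomial.C (x.1.leadingCoeff)⁻¹ * x.1, ?_, ?_, ?_⟩
  · rw [mul_comm]
    exact Polynomial.monic_mul_leadingCoeff_inv hxne
  · rw [Polynomial.natDegree_C_mul (inv_ne_zero hlc)]
    have := Polynomial.mem_degreeLT.1 x.2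
    have h2 := (Polynomial.natDegree_lt_iff_degree_lt hxne).2 this
    omega
  · rw [← Polynomial.smul_eq_C_mul, map_smul, hx1, smul_zero]

/-- Orthogonal subspaces for the dot product. -/
theorem finrank_add_le_of_dot {K : Type*} [Field K] {ι : Type*} [Fintype ι]
    (S R : Submodule K (ι → K)) (h : ∀ s ∈ S, ∀ t ∈ R, ∑ j, s j * t j = 0) :
    finrank K S + finrank K R ≤ Fintype.card ι := by
  classical
  have h1 := Subspace.finrank_add_finrank_dualAnnihilator_eq S
  rw [Module.finrank_pi] at h1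
  have h2 : finrank K R ≤ finrank K S.dualAnnihilator := by
    rw [← LinearEquiv.finrank_map_eq (dotProductEquiv K ι) R]
    apply Submodule.finrank_mono
    rintro _ ⟨t, ht, rfl⟩
    rw [Submodule.mem_dualAnnihilator]
    intro s hs
    have := h s hs t ht
    simp only [LinearEquiv.coe_coe, dotProductEquiv_apply_apply, dotProduct]
    rw [← this]
    exact Finset.sum_congr rfl fun j _ => mul_comm _ _
  omega

/-- module KR (Krylov dimension count), purely linear algebra -/
theorem krylov {K : Type*} [Field K] {ι : Type*} [Fintype ι] (C T : K[X] →ₗ[K] (ι → K))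
    (E : Submodule K (ι → K)) (d k : ℕ) (hE : Module.finrank K E = d)
    (hcard : Fintype.card ι = d + k)
    (hCT : ∀ F G, ∑ j, C F j * T G j = 0) (hET : ∀ e ∈ E, ∀ G, ∑ j, e j * T G j = 0) :
    ∃ μ q : K[X], μ.Monic ∧ q.Monic ∧ μ.natDegree + q.natDegree ≤ k ∧ C μ ∈ E ∧ T q = 0 := by
  have h1 : finrank K ↥(LinearMap.range C ⊔ E) + finrank K (LinearMap.range T) ≤
      Fintype.card ι := by
    apply finrank_add_le_of_dot
    rintro s hs _ ⟨G, rfl⟩
    obtain ⟨_, ⟨F, rfl⟩, e, he, rfl⟩ := Submodule.mem_sup.1 hs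
    simp only [Pi.add_apply, add_mul, Finset.sum_add_distrib]
    rw [hCT, hET e he, add_zero]
  -- the quotient by `E`
  let f : K[X] →ₗ[K] ((ι → K) ⧸ E) := E.mkQ.comp C
  let S := LinearMap.range C ⊔ E
  let g : S →ₗ[K] ((ι → K) ⧸ E) := E.mkQ.comp S.subtype
  have hrange : LinearMap.range f ≤ LinearMap.range g := by
    rintro _ ⟨F, rfl⟩
    exact ⟨⟨C F, Submodule.mem_sup_left ⟨F, rfl⟩⟩, rfl⟩
  have hker : LinearMap.ker g = E.comap S.subtype := by
    rw [LinearMap.ker_comp, Submodule.ker_mkQ]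
  have h2 := LinearMap.finrank_range_add_finrank_ker g
  have h3 : finrank K (LinearMap.ker g) = d := by
    rw [hker, ← hE]
    exact (Submodule.comapSubtypeEquivOfLe (le_sup_right : E ≤ S)).finrank_eq
  have h4 : finrank K (LinearMap.range f) ≤ finrank K (LinearMap.range g) :=
    Submodule.finrank_mono hrange
  obtain ⟨μ, hμ, hμd, hμ0⟩ := exists_monic_ker f _ le_rfl
  obtain ⟨q, hq, hqd, hq0⟩ := exists_monic_ker T _ le_rfl
  refine ⟨μ, q, hμ, hq, ?_, ?_, hq0⟩
  · change finrank K S + _ ≤ _ at h1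
    omega
  · have : E.mkQ (C μ) = 0 := hμ0
    rwa [Submodule.mkQ_apply, Submodule.Quotient.mk_eq_zero] at this

end Pool.Agent.Lib.MP_610b40_an
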