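import Mathlib
import Pool.Agent.Lib.MP_610b40_an.Ind2
import Pool.Agent.Lib.MP_610b40_an.Exist
import Pool.Agent.Lib.MP_610b40_an.Krylov

/-!
The collapse theorem for flips of null vectors in a quadratic space.
-/

open Polynomial

set_option linter.unusedSectionVars false

namespace Pool.Agent.Lib.MP_610b40_an

/-- the orthogonal complement of a window is spanned by the two neighbours -/
lemma plane_of_li {K V : Type*} [Field K] [AddCommGroup V] [Module K V] [FiniteDimensional K V]
    (B : LinearMap.BilinForm K V) (hs : ∀ u v, B u v = B v u)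
    (hnd : ∀ v, (∀ u, B v u = 0) → v = 0) (d : ℕ) (hdim : Module.finrank K V = d + 2)
    (f : Fin d → V) (hf : LinearIndependent K f) (u u' : V) (hu : B u u = 0) (hu' : B u' u' = 0)
    (huu : B u u' ≠ 0) (h1 : ∀ i, B u (f i) = 0) (h2 : ∀ i, B u' (f i) = 0)
    (v : V) (hv : ∀ i, B v (f i) = 0) : ∃ p q : K, v = p • u + q • u' := by
  classical
  -- the linear map `V → K^d`, its kernel has dimension 2
  let Φ : V →ₗ[K] (Fin d → K) := LinearMap.pi fun i => B.flip (f i)
  have hΦ : ∀ v i, Φ v i = B v (f i) := fun v i => rfl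
  have hsurj : Function.Surjective Φ := by
    rw [← LinearMap.range_eq_top]
    by_contra hne
    obtain ⟨g, hg0, hg⟩ := Submodule.exists_le_ker_of_lt_top _ (lt_top_iff_ne_top.2 hne)
    apply hg0
    have hgv : ∀ v, g (Φ v) = 0 := fun v => hg (LinearMap.mem_range_self Φ v)
    have e1 : ∀ y : Fin d → K, g y = ∑ i, y i * g (Pi.single i 1) := by
      intro y
      have hy : y = ∑ i, y i • (Pi.single i 1 : Fin d → K) := by
        funext k
        simp [Finset.sum_apply, Pi.single_apply]
      conv_lhs => rw [hy]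
      rw [map_sum]
      refine Finset.sum_congr rfl fun i _ => ?_
      rw [map_smul, smul_eq_mul]
    have e2 : ∑ i, g (Pi.single i 1) • f i = 0 := by
      apply hnd
      intro w
      have := hgv w
      rw [e1] at this
      rw [map_sum, LinearMap.sum_apply]
      rw [← this]
      refine Finset.sum_congr rfl fun i _ => ?_
      rw [hΦ, map_smul, LinearMap.smul_apply, smul_eq_mul, hs (f i) w, mul_comm]
    have e3 := (Fintype.linearIndependent_iff.1 hf) _ e2
    apply LinearMap.ext
    intro y
    rw [e1]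
    simp [e3]
  have hker : Module.finrank K (LinearMap.ker Φ) = 2 := by
    have := LinearMap.finrank_range_add_finrank_ker Φ
    rw [LinearMap.range_eq_top.2 hsurj, finrank_top, Module.finrank_fin_fun, hdim] at this
    omega
  have hsp : Submodule.span K {u, u'} ≤ LinearMap.ker Φ := by
    rw [Submodule.span_le]
    intro w hw
    simp only [Set.mem_insert_iff, Set.mem_singleton_iff] at hw
    rw [SetLike.mem_coe, LinearMap.mem_ker]
    rcases hw with rfl | rfl
    · funext i; exact h1 i
    · funext i; exact h2 i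
  have hli : LinearIndependent K ![u, u'] := by
    rw [LinearIndependent.pair_iff]
    intro s t hst
    have e1 : B (s • u + t • u') u' = 0 := by rw [hst]; simp
    have e2 : B (s • u + t • u') u = 0 := by rw [hst]; simp
    simp only [map_add, map_smul, LinearMap.add_apply, LinearMap.smul_apply, smul_eq_mul,
      hu, hu', mul_zero, add_zero, zero_add] at e1 e2
    rw [hs u' u] at e2
    exact ⟨(mul_eq_zero.1 e1).resolve_right huu, (mul_eq_zero.1 e2).resolve_right huu⟩
  have hfin : Module.finrank K (Submodule.span K {u, u'}) = 2 := by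
    have h5 := finrank_span_eq_card hli
    have h6 : Set.range ![u, u'] = {u, u'} := by
      rw [Matrix.range_cons, Matrix.range_cons, Matrix.range_empty, Set.union_empty]
      rfl
    rw [h6] at h5
    exact h5
  have heq := Submodule.eq_of_le_of_finrank_eq hsp (by rw [hfin, hker])
  have hvm : v ∈ Submodule.span K {u, u'} := by
    rw [heq, LinearMap.mem_ker]
    funext i; exact hv i
  obtain ⟨p, q, h⟩ := Submodule.mem_span_pair.1 hvm
  exact ⟨p, q, h.symm⟩

theorem core {K V : Type*} [Field K] [AddCommGroup V] [Module K V] [FiniteDimensional K V]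
    (h2 : (2 : K) ≠ 0) (B : LinearMap.BilinForm K V) (hs : ∀ u v, B u v = B v u)
    (hnd : ∀ v, (∀ u, B v u = 0) → v = 0) (d k n : ℕ) [NeZero n] (hd : 2 ≤ d)
    (hdim : Module.finrank K V = d + 2) (hn : n = d + k) (x : ℕ → ZMod n → V) (M : V)
    (h0 : ∀ a, x 0 a = M) (hnull : ∀ t ≤ 2 * k + 2, ∀ a, B (x t a) (x t a) = 0)
    (hE : ∀ t, t < 2 * k + 2 → Even t → ∀ a, ∀ i < d,
      B (x t a) (x (t + 1) (a + (i : ZMod n))) = 0)
    (hO : ∀ t, t < 2 * k + 2 → Odd t → ∀ j, ∀ i < d,
      B (x t j) (x (t + 1) (j - (i : ZMod n))) = 0)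
    (hliE : ∀ t, Even t → 1 ≤ t → t < 2 * k + 2 → ∀ j,
      LinearIndependent K (fun i : Fin d => x t (j - ((i : ℕ) : ZMod n))))
    (hliO : ∀ t, Odd t → t < 2 * k + 2 → ∀ a,
      LinearIndependent K (fun i : Fin d => x t (a + ((i : ℕ) : ZMod n))))
    (hne : ∀ t, t + 2 ≤ 2 * k + 2 → ∀ a, B (x t a) (x (t + 2) a) ≠ 0) :
    ∀ a b, ∃ r : K, r ≠ 0 ∧ x (2 * k + 2) a = r • x (2 * k + 2) b := by
  classical
  -- orthogonality in terms of narrow adjacency
  have orE : ∀ t, t < 2 * k + 2 → Even t → ∀ a j, NAdj d a j → B (x t a) (x (t + 1) j) = 0 := by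
    rintro t ht hev a j ⟨i, hi, rfl⟩
    exact hE t ht hev a i hi
  have orO : ∀ t, t < 2 * k + 2 → Odd t → ∀ a j, NAdj d a j → B (x t j) (x (t + 1) a) = 0 := by
    rintro t ht hev a j ⟨i, hi, rfl⟩
    have := hO t ht hev (a + (i : ZMod n)) i hi
    rwa [add_sub_cancel_right] at this
  -- consecutive vectors are independent
  have dist : ∀ t, 1 ≤ t → t < 2 * k + 2 → ∀ a, ∀ p q : K,
      p • x t a = q • x t (a + 1) → p = 0 ∧ q = 0 := by
    intro t ht1 ht2 a p q hpq
    rcases Nat.even_or_odd t with hev | hod
    · have hl := hliE t hev ht1 ht2 (a + 1)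
      have h3 := hl.comp (Fin.castLE hd) (Fin.castLE_injective hd)
      have h4 : LinearIndependent K ![x t (a + 1), x t a] := by
        convert h3 using 1
        funext i; fin_cases i <;> simp
      rw [LinearIndependent.pair_iff] at h4
      have := h4 q (-p) (by rw [← hpq]; simp)
      exact ⟨by simpa using this.2, this.1⟩
    · have hl := hliO t hod ht2 a
      have h3 := hl.comp (Fin.castLE hd) (Fin.castLE_injective hd)
      have h4 : LinearIndependent K ![x t a, x t (a + 1)] := by
        convert h3 using 1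
        funext i; fin_cases i <;> simp
      rw [LinearIndependent.pair_iff] at h4
      have := h4 p (-q) (by rw [hpq]; simp)
      exact ⟨this.1, by simpa using this.2⟩
  -- planes
  have planeO : ∀ t, t + 2 ≤ 2 * k + 2 → Odd (t + 1) → ∀ a, ∀ v,
      (∀ j, NAdj d a j → B v (x (t + 1) j) = 0) → ∃ p q : K, v = p • x t a + q • x (t + 2) a := by
    intro t ht hod a v hv
    have hev : Even t := by
      rcases Nat.even_or_odd t with h | h
      · exact h
      · exact absurd hod (by rw [Nat.not_odd_iff_even]; exact h.add_one)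
    refine plane_of_li B hs hnd d hdim _ (hliO (t + 1) hod (by omega) a) _ _
      (hnull t (by omega) a) (hnull (t + 2) ht a) (hne t ht a) (fun i => ?_) (fun i => ?_) v
      (fun i => hv _ ⟨i, i.2, rfl⟩)
    · exact orE t (by omega) hev a _ ⟨i, i.2, rfl⟩
    · rw [hs]
      exact orO (t + 1) (by omega) hod a _ ⟨i, i.2, rfl⟩
  have planeE : ∀ t, t + 2 ≤ 2 * k + 2 → Even (t + 1) → ∀ j, ∀ v,
      (∀ a, NAdj d a j → B v (x (t + 1) a) = 0) → ∃ p q : K, v = p • x t j + q • x (t + 2) j := by
    intro t ht hev j v hv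
    have hod : Odd t := by
      rcases Nat.even_or_odd t with h | h
      · exact absurd hev (by rw [Nat.not_even_iff_odd]; exact h.add_one)
      · exact h
    have nadj : ∀ i : Fin d, NAdj d (j - ((i : ℕ) : ZMod n)) j := fun i => ⟨i, i.2, by ring⟩
    refine plane_of_li B hs hnd d hdim _ (hliE (t + 1) hev (by omega) (by omega) j) _ _
      (hnull t (by omega) j) (hnull (t + 2) ht j) (hne t ht j) (fun i => ?_) (fun i => ?_) v
      (fun i => hv _ (nadj i))
    · exact orO t (by omega) hod _ _ (nadj i)
    · rw [hs]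
      exact orE (t + 1) (by omega) hev _ _ (nadj i)
  -- polynomial data
  have hM : B M M = 0 := by
    have := hnull 0 (by omega) 0
    rwa [h0] at this
  rcases Nat.eq_zero_or_pos k with hk0 | hkpos
  · -- the trivial case `k = 0`
    subst hk0
    intro a b
    have all : ∀ a j : ZMod n, NAdj d a j := by
      intro a j
      refine ⟨(j - a).val, ?_, ?_⟩
      · have := ZMod.val_lt (j - a); omega
      · rw [ZMod.natCast_zmod_val]; ring
    obtain ⟨p, q, e1⟩ := planeO 0 (by omega) (by simp) b (x 2 a) (fun j _ => by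
      rw [hs]; exact orO 1 (by omega) (by simp) a j (all a j))
    have n1 := hnull 2 (by omega) a
    have e2 := hne 0 (by omega) a
    have e3 := hne 0 (by omega) b
    have e4 : B (x 0 a) (x (0 + 2) a) = q * B (x 0 b) (x (0 + 2) b) := by
      rw [h0 a, ← h0 b]
      have : x (0 + 2) a = p • x 0 b + q • x (0 + 2) b := e1
      rw [this, map_add, map_smul, map_smul, hnull 0 (by omega)]
      simp
    have hq : q ≠ 0 := by
      rintro rfl
      rw [zero_mul] at e4
      exact e2 e4
    have hp : p = 0 := by
      have e5 : B (x 2 a) (x 2 a) = 2 * (p * q * B (x 0 b) (x (0 + 2) b)) := by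
        conv_lhs => rw [e1]
        simp only [map_add, map_smul, LinearMap.add_apply, LinearMap.smul_apply, smul_eq_mul]
        rw [hnull 0 (by omega), hnull (0 + 2) (by omega), hs (x (0 + 2) b) (x 0 b)]
        ring
      rw [n1] at e5
      have e6 := e5.symm
      simp only [mul_eq_zero] at e6
      rcases e6 with e6 | (e6 | e6) | e6
      · exact absurd e6 h2
      · exact e6
      · exact absurd e6 hq
      · exact absurd e6 e3
    refine ⟨q, hq, ?_⟩
    have : x 2 a = q • x 2 b := by rw [e1, hp]; simp
    simpa using this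
  obtain ⟨D, hDM, hD1, hD2⟩ := exists_PD h2 B hs hnd d n hd hdim M hM (x 1) (x 2)
    (hnull 1 (by omega)) (hnull 2 (by omega))
    (fun j => by
      have := orE 0 (by omega) (by simp) j j ⟨0, by omega, by simp⟩
      rw [h0, hs] at this
      exact this)
    (fun a i hi => by
      rw [hs]
      exact orO 1 (by omega) (by simp) a _ ⟨i, hi, rfl⟩)
    (hliO 1 (by simp) (by omega))
    (fun a => by
      have := hne 0 (by omega) a
      rwa [h0] at this)
    (fun a ⟨r, hr⟩ => by
      have := dist 2 (by omega) (by omega) a r 1 (by rw [one_smul, hr])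
      exact one_ne_zero this.2)
  obtain ⟨α, β, R1, R2, R3, -⟩ := exists_ab h2 hs (by omega) D
  have H : Hyp B n d (2 * k + 2) x D α β :=
    { h2 := h2
      hs := hs
      hd := by omega
      R1 := R1
      R2 := R2
      R3 := R3
      x0 := fun a => by rw [h0, hDM]
      x1 := fun j => by rw [hD1 j, PD.Xv, hDM]
      x2 := fun a => by
        obtain ⟨r, hr, e⟩ := hD2 a
        refine ⟨r, hr, ?_⟩
        have e1 : α a 1 1 = B (D.phi a 1) (D.phi a 1) / 2 := by
          have := R2 a 1 1
          rw [← this]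
          field_simp
          ring
        rw [e, PD.LL, e1, hDM]
        simp
      null := hnull
      orE := orE
      orO := orO
      ne := hne
      dist := dist
      planeO := planeO
      planeE := planeE }
  -- Krylov count
  obtain ⟨μ, q, hμ, hq, hdeg, hμE, hqT⟩ := krylov (LinearMap.pi D.cc) (LinearMap.pi D.th) D.E d k
    D.finrankE (by rw [ZMod.card, hn]) (fun F G => D.orth F G) (fun e he G => D.orthE e he G)
  have R1' : ∀ a F G, B (D.phi a F) (D.psi a G) = α a F G + β a F G :=
    fun a F G => R1 a a (Or.inr ⟨0, by omega, by simp⟩) F G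
  -- the monic radical element
  have key : ∃ χ : K[X], ∃ e : V, χ.Monic ∧ χ.natDegree ≤ k ∧ D.Cls χ e ∧
      ∀ a G, α a χ (X * G) = 0 := by
    by_cases hc : 2 * μ.natDegree ≤ k
    · obtain ⟨e, he1, he2, he3⟩ := (D.memE _).1 hμE
      have cl : D.Cls μ e := ⟨he1, he2, fun j => he3 j⟩
      obtain ⟨e', he'⟩ := cl.mul μ
      refine ⟨μ * μ, e', hμ.mul hμ, ?_, he', fun a G => PD.rad_sq h2 hs R1' R2 R3 cl a G⟩
      rw [hμ.natDegree_mul hμ]; omega
    · have hth : ∀ j, D.th j q = 0 := fun j => congrFun hqT j
      have hstep : ∀ j, D.psi j q = D.psi (j - 1) q := by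
        intro j
        rw [D.psi_edge j q, hth j, zero_smul, add_zero]
      have hcon : ∀ j, D.psi j q = D.psi 0 q := by
        have : ∀ i : ℕ, D.psi (i : ZMod n) q = D.psi 0 q := by
          intro i
          induction i with
          | zero => simp
          | succ i ih => rw [hstep, ← ih]; congr 2; push_cast; ring
        intro j
        have h3 := this j.val
        rwa [ZMod.natCast_zmod_val] at h3
      have cl : D.Cls ((X + 1) * q) (D.psi 0 q) := by
        refine ⟨D.psiM 0 q, D.psiM0 0 q, fun j => ?_⟩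
        rw [← D.psi_w, hcon]
      obtain ⟨e', he'⟩ := cl.mul q
      have e1 : q * ((X + 1) * q) = (X + 1) * (q * q) := by ring
      rw [e1] at he'
      have mX : (X + 1 : K[X]).Monic := by
        have := Polynomial.monic_X_add_C (1 : K)
        simpa using this
      have dX : (X + 1 : K[X]).natDegree = 1 := by
        have := Polynomial.natDegree_X_add_C (1 : K)
        simpa using this
      refine ⟨(X + 1) * (q * q), e', mX.mul (hq.mul hq), ?_, he',
        fun a G => PD.rad_z_sq h2 hs R1' R2 R3 cl hcon a G⟩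
      rw [mX.natDegree_mul (hq.mul hq), hq.natDegree_mul hq, dX]
      omega
  obtain ⟨χ, e, hχ, hχd, hcl, hrad⟩ := key
  -- its lifts coincide
  have hL : ∀ a, D.LL α a χ = D.LL α 0 χ := by
    have st : ∀ a, D.LL α (a + 1) χ = D.LL α a χ := by
      intro a
      have r1 := R1 (a + 1) a (Or.inl rfl) χ 1
      have r2 := R1' a χ 1
      rw [hcl.phi] at r1 r2
      have r3 : α (a + 1) χ 1 = α a χ 1 := by linear_combination r2 - r1
      rw [PD.LL, PD.LL, hcl.phi, hcl.phi, r3]
    have : ∀ i : ℕ, D.LL α (i : ZMod n) χ = D.LL α 0 χ := by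
      intro i
      induction i with
      | zero => simp
      | succ i ih => rw [Nat.cast_succ, st, ih]
    intro j
    have h3 := this j.val
    rwa [ZMod.natCast_zmod_val] at h3
  have mem : χ ∈ degreeLT K (χ.natDegree + 1) := by
    rw [mem_lt_iff]
    intro i hi
    exact Polynomial.coeff_eq_zero_of_natDegree_lt (by omega)
  have row := row_const H χ.natDegree (by omega) χ mem hχ.coeff_natDegree hrad
  -- the degree is exactly `k`
  have hdk : χ.natDegree = k := by
    by_contra hne'
    obtain ⟨r, hr, e1⟩ := row 0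
    obtain ⟨r', hr', e2⟩ := row (0 + 1)
    rw [hL] at e1 e2
    have := dist (2 * χ.natDegree + 2) (by omega) (by omega) 0 r' r (by
      rw [e1, e2, smul_smul, smul_smul, mul_comm])
    exact hr this.2
  rw [hdk] at row
  intro a b
  obtain ⟨r, hr, e1⟩ := row a
  obtain ⟨r', hr', e2⟩ := row b
  rw [hL] at e1 e2
  refine ⟨r * r'⁻¹, mul_ne_zero hr (inv_ne_zero hr'), ?_⟩
  rw [e1, e2, smul_smul, mul_assoc, inv_mul_cancel₀ hr', mul_one]

end Pool.Agent.Lib.MP_610b40_an
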