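import Mathlib

/-!
# Schubert flips: the abstract lift structure

`V` is the quadratic space of the problem (dimension `d + 2`, form `C`), the rows of the
configuration are `x, y : ZMod n → V`, with `x a` orthogonal to `y a, ..., y (a + d - 1)`.
`U` is the big quadratic space (form `B`) in which everything is lifted.
-/

namespace Pool.Agent.Lib.MP_610b40_an

open Module

universe u

variable {F : Type u} [Field F]

/-- The lift data: windows `W a`, `W' b` (totally isotropic), and the spaces `X`, `Y`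
(orthogonal to all `W a`, resp. all `W' b`), paired perfectly by `B`. -/
structure LiftData {U : Type u} [AddCommGroup U] [Module F U] (B : LinearMap.BilinForm F U)
    (n d m0 m1 : ℕ) (W W' : ZMod n → Submodule F U) (X Y : Submodule F U) : Prop where
  symm : ∀ u v, B u v = B v u
  isoW : ∀ a, ∀ u ∈ W a, ∀ v ∈ W a, B u v = 0
  isoW' : ∀ b, ∀ u ∈ W' b, ∀ v ∈ W' b, B u v = 0
  orth : ∀ a, ∀ j : ℕ, j < d → ∀ u ∈ W a, ∀ v ∈ W' (a + (j : ZMod n)), B u v = 0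
  orthX : ∀ a, ∀ u ∈ W a, ∀ v ∈ X, B u v = 0
  orthY : ∀ b, ∀ u ∈ W' b, ∀ v ∈ Y, B u v = 0
  rankW : ∀ a, m0 + 1 ≤ finrank F (W a)
  rankW' : ∀ b, m1 + 1 ≤ finrank F (W' b)
  rankX : finrank F X = m0 + m1 + 1
  rankY : finrank F Y = m0 + m1 + 1
  sepX : ∀ u ∈ X, (∀ v ∈ Y, B u v = 0) → u = 0
  sepY : ∀ v ∈ Y, (∀ u ∈ X, B u v = 0) → v = 0
  capW : ∀ a, m0 ≤ finrank F ↥(W a ⊓ W (a + 1))
  capW' : ∀ b, m1 ≤ finrank F ↥(W' b ⊓ W' (b + 1))
  botW : ∀ z, (∀ a, z ∈ W a) → z = 0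
  botW' : ∀ z, (∀ b, z ∈ W' b) → z = 0

/-- A state: totally isotropic `P0 ≤ Y`, `P1 ≤ X` (dimensions `m0`, `m1`), an isometric embedding
`Ψ` of `V` orthogonal to `P0 ⊔ P1` (so `V ≃ (P0 ⊔ P1)ᗮ / (P0 ⊔ P1)`), such that the rows `x`, `y`
are represented by vectors of the windows. -/
structure State {U V : Type u} [AddCommGroup U] [Module F U] [AddCommGroup V] [Module F V]
    (B : LinearMap.BilinForm F U) (C : LinearMap.BilinForm F V)
    (n m0 m1 : ℕ) (W W' : ZMod n → Submodule F U) (X Y P0 P1 : Submodule F U)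
    (Ψ : V →ₗ[F] U) (x y : ZMod n → V) : Prop where
  P0Y : P0 ≤ Y
  P1X : P1 ≤ X
  rank0 : finrank F P0 = m0
  rank1 : finrank F P1 = m1
  iso00 : ∀ u ∈ P0, ∀ v ∈ P0, B u v = 0
  iso11 : ∀ u ∈ P1, ∀ v ∈ P1, B u v = 0
  iso01 : ∀ u ∈ P0, ∀ v ∈ P1, B u v = 0
  isom : ∀ u v, B (Ψ u) (Ψ v) = C u v
  orth0 : ∀ v, ∀ p ∈ P0, B (Ψ v) p = 0
  orth1 : ∀ v, ∀ p ∈ P1, B (Ψ v) p = 0
  full : ∀ u, (∀ p ∈ P0, B u p = 0) → (∀ p ∈ P1, B u p = 0) →
    ∃ v, ∃ p ∈ P0, ∃ q ∈ P1, u = Ψ v + p + q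
  hx : ∀ a, ∃ u ∈ W a, ∃ p ∈ P0, ∃ q ∈ P1, u = Ψ (x a) + p + q
  hy : ∀ b, ∃ u ∈ W' b, ∃ p ∈ P0, ∃ q ∈ P1, u = Ψ (y b) + p + q
  trivW : ∀ a, ∀ u ∈ W a, ∀ p ∈ P0, ∀ q ∈ P1, u = p + q → u = 0
  trivW' : ∀ b, ∀ u ∈ W' b, ∀ p ∈ P0, ∀ q ∈ P1, u = p + q → u = 0

/-- `y' ` is obtained from `y` by flipping all its vectors, the row `x` being fixed: `y b` and
`y' b` span the orthogonal complement of `x (b - d + 1), ..., x b`, a hyperbolic plane. -/
structure FlipY {V : Type u} [AddCommGroup V] [Module F V] (C : LinearMap.BilinForm F V)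
    (n d : ℕ) (x y y' : ZMod n → V) : Prop where
  perp : ∀ b v, (∀ j : ℕ, j < d → C v (x (b - (j : ZMod n))) = 0) →
    ∃ α β : F, v = α • y b + β • y' b
  isoy : ∀ b, C (y b) (y b) = 0
  isoy' : ∀ b, C (y' b) (y' b) = 0
  yy' : ∀ b, C (y b) (y' b) ≠ 0
  orthy : ∀ b, ∀ j : ℕ, j < d → C (y b) (x (b - (j : ZMod n))) = 0
  orthy' : ∀ b, ∀ j : ℕ, j < d → C (y' b) (x (b - (j : ZMod n))) = 0

/-- The standard quadratic space `E ⊕ hyperbolic plane`: vectors `(e, α, β)` stand for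
`e + α N + β M` with `M, N` isotropic, `⟨M, N⟩ = 1`. -/
def stdForm {E : Type u} [AddCommGroup E] [Module F E] (BE : LinearMap.BilinForm F E) :
    LinearMap.BilinForm F (E × F × F) :=
  LinearMap.mk₂ F (fun u v => BE u.1 v.1 + u.2.1 * v.2.2 + u.2.2 * v.2.1)
    (by intro a b c; simp; ring) (by intro a b c; simp; ring)
    (by intro a b c; simp; ring) (by intro a b c; simp; ring)

end Pool.Agent.Lib.MP_610b40_an
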