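import Pool.Agent.Lib.MP_610b40_an.Defs

/-! # Duality: exchanging the two families of rows -/

namespace Pool.Agent.Lib.MP_610b40_an

open Module

universe u

variable {F : Type u} [Field F]

theorem LiftData.dual {U : Type u} [AddCommGroup U] [Module F U]
    {B : LinearMap.BilinForm F U} {n d m0 m1 : ℕ} {W W' : ZMod n → Submodule F U}
    {X Y : Submodule F U} (L : LiftData B n d m0 m1 W W' X Y) :
    LiftData B n d m1 m0 (fun i => W' (-i)) (fun i => W (-i)) Y X where
  symm := L.symm
  isoW a := L.isoW' (-a)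
  isoW' b := L.isoW (-b)
  orth a j hj u hu v hv := by
    rw [L.symm]
    have h := L.orth (-(a + (j : ZMod n))) j hj v hv u
    apply h
    have e : -(a + (j : ZMod n)) + (j : ZMod n) = -a := by ring
    rw [e]
    exact hu
  orthX a := L.orthY (-a)
  orthY b := L.orthX (-b)
  rankW a := L.rankW' (-a)
  rankW' b := L.rankW (-b)
  rankX := by rw [L.rankY]; ring
  rankY := by rw [L.rankX]; ring
  sepX u hu h := L.sepY u hu (fun v hv => by rw [L.symm]; exact h v hv)
  sepY v hv h := L.sepX v hv (fun u hu => by rw [L.symm]; exact h u hu)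
  capW a := by
    have h := L.capW' (-(a + 1))
    have e : -(a + 1) + 1 = -a := by ring
    rw [e, inf_comm] at h
    exact h
  capW' b := by
    have h := L.capW (-(b + 1))
    have e : -(b + 1) + 1 = -b := by ring
    rw [e, inf_comm] at h
    exact h
  botW z h := L.botW' z (fun b => by simpa using h (-b))
  botW' z h := L.botW z (fun b => by simpa using h (-b))

theorem State.dual {U V : Type u} [AddCommGroup U] [Module F U] [AddCommGroup V] [Module F V]
    {B : LinearMap.BilinForm F U} {C : LinearMap.BilinForm F V}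
    (hB : ∀ u v, B u v = B v u)
    {n m0 m1 : ℕ} {W W' : ZMod n → Submodule F U} {X Y P0 P1 : Submodule F U}
    {Ψ : V →ₗ[F] U} {x y : ZMod n → V} (S : State B C n m0 m1 W W' X Y P0 P1 Ψ x y) :
    State B C n m1 m0 (fun i => W' (-i)) (fun i => W (-i)) Y X P1 P0 Ψ
      (fun i => y (-i)) (fun i => x (-i)) where
  P0Y := S.P1X
  P1X := S.P0Y
  rank0 := S.rank1
  rank1 := S.rank0
  iso00 := S.iso11
  iso11 := S.iso00
  iso01 u hu v hv := by rw [hB]; exact S.iso01 v hv u hu
  isom := S.isom
  orth0 := S.orth1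
  orth1 := S.orth0
  full u h0 h1 := by
    obtain ⟨v, p, hp, q, hq, e⟩ := S.full u h1 h0
    exact ⟨v, q, hq, p, hp, by rw [e]; abel⟩
  hx a := by
    obtain ⟨u, hu, p, hp, q, hq, e⟩ := S.hy (-a)
    exact ⟨u, hu, q, hq, p, hp, by rw [e]; abel⟩
  hy a := by
    obtain ⟨u, hu, p, hp, q, hq, e⟩ := S.hx (-a)
    exact ⟨u, hu, q, hq, p, hp, by rw [e]; abel⟩
  trivW a u hu p hp q hq e := S.trivW' (-a) u hu q hq p hp (by rw [e]; abel)
  trivW' a u hu p hp q hq e := S.trivW (-a) u hu q hq p hp (by rw [e]; abel)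

end Pool.Agent.Lib.MP_610b40_an
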