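import Pool.Agent.Lib.MP_610b40_an.Defs

/-! # Orthogonal complements and dimension counts -/

namespace Pool.Agent.Lib.MP_610b40_an

open Module

universe u

variable {F : Type u} [Field F] {U : Type u} [AddCommGroup U] [Module F U]

/-- the orthogonal complement of `P`. -/
def oc (B : LinearMap.BilinForm F U) (P : Submodule F U) : Submodule F U where
  carrier := {u | ∀ p ∈ P, B u p = 0}
  add_mem' := by
    intro a b ha hb p hp
    simp [ha p hp, hb p hp]
  zero_mem' := by
    intro p _
    simp
  smul_mem' := by
    intro c a ha p hp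
    simp [ha p hp]

theorem mem_oc {B : LinearMap.BilinForm F U} {P : Submodule F U} {u : U} :
    u ∈ oc B P ↔ ∀ p ∈ P, B u p = 0 := Iff.rfl

variable [FiniteDimensional F U]

/-- The pairing of `A` with `P`. -/
noncomputable def pairMap (B : LinearMap.BilinForm F U) (A P : Submodule F U) :
    A →ₗ[F] Dual F P :=
  LinearMap.mk₂ F (fun a p => B a p) (by intro a b c; simp) (by intro a b c; simp)
    (by intro a b c; simp) (by intro a b c; simp)

omit [FiniteDimensional F U] in
theorem pairMap_apply (B : LinearMap.BilinForm F U) (A P : Submodule F U) (a : A) (p : P) :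
    pairMap B A P a p = B a p := rfl

omit [FiniteDimensional F U] in
theorem ker_pairMap (B : LinearMap.BilinForm F U) (A P : Submodule F U) :
    (LinearMap.ker (pairMap B A P)).map A.subtype = A ⊓ oc B P := by
  ext u
  constructor
  · rintro ⟨a, ha, rfl⟩
    refine ⟨a.2, ?_⟩
    intro p hp
    have h : pairMap B A P a = 0 := ha
    have := congrArg (fun f => f ⟨p, hp⟩) h
    simpa [pairMap_apply] using this
  · rintro ⟨hu, hu'⟩
    refine ⟨⟨u, hu⟩, ?_, rfl⟩
    show pairMap B A P ⟨u, hu⟩ = 0
    ext p
    exact hu' p.1 p.2

theorem finrank_inf_oc_aux (B : LinearMap.BilinForm F U) (A P : Submodule F U) :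
    finrank F ↥(A ⊓ oc B P) + finrank F (LinearMap.range (pairMap B A P)) = finrank F A := by
  rw [← ker_pairMap, Submodule.finrank_map_subtype_eq, add_comm]
  exact LinearMap.finrank_range_add_finrank_ker _

theorem finrank_inf_oc {B : LinearMap.BilinForm F U} (hB : ∀ u v, B u v = B v u)
    (A P : Submodule F U) :
    finrank F ↥(A ⊓ oc B P) + finrank F P = finrank F A + finrank F ↥(P ⊓ oc B A) := by
  have h1 := finrank_inf_oc_aux B A P
  have h2 := finrank_inf_oc_aux B P A
  have h3 : finrank F (LinearMap.range (pairMap B A P)) =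
      finrank F (LinearMap.range (pairMap B P A)) := by
    rw [← LinearMap.finrank_range_dualMap_eq_finrank_range (pairMap B A P)]
    have : LinearMap.range (pairMap B P A) = LinearMap.range (pairMap B A P).dualMap := by
      ext φ
      constructor
      · rintro ⟨p, rfl⟩
        refine ⟨Dual.eval F P p, ?_⟩
        ext a
        simp [pairMap_apply, hB]
      · rintro ⟨ψ, rfl⟩
        obtain ⟨p, rfl⟩ := (evalEquiv F P).surjective ψ
        refine ⟨p, ?_⟩
        ext a
        simp [pairMap_apply, hB]
    rw [this]
  omega

/-- induction around the cycle -/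
theorem zmod_induct {n : ℕ} [NeZero n] {P : ZMod n → Prop} (b0 : ZMod n) (h0 : P b0)
    (hs : ∀ b, P b → P (b + 1)) : ∀ b, P b := by
  have key : ∀ k : ℕ, P (b0 + (k : ZMod n)) := by
    intro k
    induction k with
    | zero => simpa using h0
    | succ k ih =>
      have := hs _ ih
      rw [add_assoc] at this
      simpa using this
  intro b
  have h := key (b - b0).val
  rw [ZMod.natCast_zmod_val] at h
  simpa using h

end Pool.Agent.Lib.MP_610b40_an
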