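import Pool.Agent.Lib.MP_610b40_an.Oc

/-! # The step lemma: a flip of the row `y` in the lifted space -/

namespace Pool.Agent.Lib.MP_610b40_an

open Module

universe u

variable {F : Type u} [Field F]

section
variable {U V : Type u} [AddCommGroup U] [Module F U] [AddCommGroup V] [Module F V]
  {B : LinearMap.BilinForm F U} {C : LinearMap.BilinForm F V}
  {n d m0 m1 : ℕ} {W W' : ZMod n → Submodule F U} {X Y P0 P1 : Submodule F U}
  {Ψ : V →ₗ[F] U} {x y : ZMod n → V}

theorem State.pair (hB : ∀ u v, B u v = B v u)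
    (S : State B C n m0 m1 W W' X Y P0 P1 Ψ x y) {v w : V} {p q p' q' : U}
    (hp : p ∈ P0) (hq : q ∈ P1) (hp' : p' ∈ P0) (hq' : q' ∈ P1) :
    B (Ψ v + p + q) (Ψ w + p' + q') = C v w := by
  have e1 := S.orth0 v p' hp'
  have e2 := S.orth1 v q' hq'
  have e3 := S.orth0 w p hp
  have e4 := S.orth1 w q hq
  have e5 := S.iso00 p hp p' hp'
  have e6 := S.iso01 p hp q' hq'
  have e7 := S.iso01 p' hp' q hq
  have e8 := S.iso11 q hq q' hq'
  have e9 := S.isom v w
  rw [hB] at e3 e4 e7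
  simp only [map_add, LinearMap.add_apply]
  rw [e1, e2, e3, e4, e5, e6, e7, e8, e9]
  ring

theorem escape [FiniteDimensional F U] (L : LiftData B n d m0 m1 W W' X Y)
    (S : State B C n m0 m1 W W' X Y P0 P1 Ψ x y)
    (hno : ∀ a, ∀ v w : V, C v v = 0 → C w w = 0 → C v w = 0 →
      (∀ j : ℕ, j < d → C v (y (a + (j : ZMod n))) = 0) →
      (∀ j : ℕ, j < d → C w (y (a + (j : ZMod n))) = 0) →
      ∃ α β : F, (α ≠ 0 ∨ β ≠ 0) ∧ α • v + β • w = 0)
    {u : U} (hu : u ∈ X) (hu1 : u ∉ P1) (hu0 : ∀ p ∈ P0, B u p = 0) (hu2 : ∀ p ∈ P1, B u p = 0) :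
    ∃ v : V, v ≠ 0 ∧ (∃ p ∈ P0, ∃ q ∈ P1, u = Ψ v + p + q) ∧ (∀ a, C v (x a) = 0) ∧
      C v v = B u u := by
  obtain ⟨v, p, hp, q, hq, e⟩ := S.full u hu0 hu2
  refine ⟨v, ?_, ⟨p, hp, q, hq, e⟩, ?_, ?_⟩
  · rintro rfl
    have e' : p = u - q := by rw [e]; simp
    have hpX : p ∈ X := by rw [e']; exact X.sub_mem hu (S.P1X hq)
    have hp0 : p ≠ 0 := by
      rintro rfl
      apply hu1
      rw [sub_eq_zero.mp e'.symm]
      exact hq
    -- a window
    have h1 := finrank_inf_oc L.symm (W 0) P0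
    have h2 : 1 ≤ finrank F ↥(P0 ⊓ oc B (W 0)) := by
      rw [Nat.one_le_iff_ne_zero]
      intro h0
      rw [Submodule.finrank_eq_zero] at h0
      have : p ∈ P0 ⊓ oc B (W 0) := by
        refine ⟨hp, ?_⟩
        intro w hw
        rw [L.symm]
        exact L.orthX 0 w hw p hpX
      rw [h0] at this
      exact hp0 this
    have h3 := L.rankW 0
    rw [S.rank0] at h1
    have h4 : 1 < finrank F ↥(W 0 ⊓ oc B P0) := by omega
    -- two independent vectors
    obtain ⟨w1, hw1, hw1'⟩ : ∃ w : U, w ∈ W 0 ⊓ oc B P0 ∧ w ≠ 0 := by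
      have : (W 0 ⊓ oc B P0) ≠ ⊥ := by
        intro h
        rw [h, finrank_bot] at h4
        omega
      exact (Submodule.ne_bot_iff _).mp this
    obtain ⟨w2, hw2, hw2'⟩ : ∃ w : U, w ∈ W 0 ⊓ oc B P0 ∧ w ∉ Submodule.span F {w1} := by
      by_contra hcon
      push Not at hcon
      have hle : (W 0 ⊓ oc B P0) ≤ Submodule.span F {w1} := hcon
      have := Submodule.finrank_mono hle
      have h5 := finrank_span_singleton (K := F) hw1'
      omega
    obtain ⟨v1, p1, hp1, q1, hq1, e1⟩ := S.full w1 hw1.2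
      (fun r hr => L.orthX 0 w1 hw1.1 r (S.P1X hr))
    obtain ⟨v2, p2, hp2, q2, hq2, e2⟩ := S.full w2 hw2.2
      (fun r hr => L.orthX 0 w2 hw2.1 r (S.P1X hr))
    have c11 : C v1 v1 = 0 := by
      rw [← S.pair L.symm hp1 hq1 hp1 hq1, ← e1]
      exact L.isoW 0 _ hw1.1 _ hw1.1
    have c22 : C v2 v2 = 0 := by
      rw [← S.pair L.symm hp2 hq2 hp2 hq2, ← e2]
      exact L.isoW 0 _ hw2.1 _ hw2.1
    have c12 : C v1 v2 = 0 := by
      rw [← S.pair L.symm hp1 hq1 hp2 hq2, ← e1, ← e2]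
      exact L.isoW 0 _ hw1.1 _ hw2.1
    have o1 : ∀ j : ℕ, j < d → C v1 (y (0 + (j : ZMod n))) = 0 := by
      intro j hj
      obtain ⟨z, hz, p', hp', q', hq', e'⟩ := S.hy (0 + (j : ZMod n))
      rw [← S.pair L.symm hp1 hq1 hp' hq', ← e1, ← e']
      exact L.orth 0 j hj _ hw1.1 _ hz
    have o2 : ∀ j : ℕ, j < d → C v2 (y (0 + (j : ZMod n))) = 0 := by
      intro j hj
      obtain ⟨z, hz, p', hp', q', hq', e'⟩ := S.hy (0 + (j : ZMod n))
      rw [← S.pair L.symm hp2 hq2 hp' hq', ← e2, ← e']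
      exact L.orth 0 j hj _ hw2.1 _ hz
    obtain ⟨α, β, hαβ, h0⟩ := hno 0 v1 v2 c11 c22 c12 o1 o2
    have h6 : α • w1 + β • w2 = 0 := by
      apply S.trivW 0 _ ((W 0).add_mem ((W 0).smul_mem _ hw1.1) ((W 0).smul_mem _ hw2.1))
        (α • p1 + β • p2) (P0.add_mem (P0.smul_mem _ hp1) (P0.smul_mem _ hp2))
        (α • q1 + β • q2) (P1.add_mem (P1.smul_mem _ hq1) (P1.smul_mem _ hq2))
      have : Ψ (α • v1 + β • v2) = 0 := by rw [h0]; simp
      rw [e1, e2]
      calc α • (Ψ v1 + p1 + q1) + β • (Ψ v2 + p2 + q2)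
          = Ψ (α • v1 + β • v2) + ((α • p1 + β • p2) + (α • q1 + β • q2)) := by
            simp only [map_add, map_smul, smul_add]; abel
        _ = _ := by rw [this, zero_add]
    by_cases hβ : β = 0
    · subst hβ
      rcases hαβ with h | h
      · rw [zero_smul, add_zero] at h6
        rcases smul_eq_zero.mp h6 with h' | h'
        · exact h h'
        · exact hw1' h'
      · exact h rfl
    · apply hw2'
      rw [Submodule.mem_span_singleton]
      refine ⟨-(β⁻¹ * α), ?_⟩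
      have : β • w2 = -(α • w1) := by
        rw [eq_neg_iff_add_eq_zero, add_comm]; exact h6
      calc (-(β⁻¹ * α)) • w1 = β⁻¹ • (-(α • w1)) := by
            rw [smul_neg, smul_smul, neg_smul]
        _ = w2 := by rw [← this, smul_smul, inv_mul_cancel₀ hβ, one_smul]
  · intro a
    obtain ⟨z, hz, p', hp', q', hq', e'⟩ := S.hx a
    rw [← S.pair L.symm hp hq hp' hq', ← e, ← e', L.symm]
    exact L.orthX a _ hz _ hu
  · rw [← S.pair L.symm hp hq hp hq, ← e]


theorem collapse [FiniteDimensional F U]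
    (h2 : (2 : F) ≠ 0)
    (hC : ∀ u v, C u v = C v u) {y' : ZMod n → V} (L : LiftData B n d m0 m1 W W' X Y)
    (S : State B C n m0 m1 W W' X Y P0 P1 Ψ x y) (H : FlipY C n d x y y')
    (hext : ∀ b, C (y b) (x (b + 1)) ≠ 0)
    (hno : ∀ a, ∀ v w : V, C v v = 0 → C w w = 0 → C v w = 0 →
      (∀ j : ℕ, j < d → C v (y (a + (j : ZMod n))) = 0) →
      (∀ j : ℕ, j < d → C w (y (a + (j : ZMod n))) = 0) →
      ∃ α β : F, (α ≠ 0 ∨ β ≠ 0) ∧ α • v + β • w = 0)
    {u : U} (hu : u ∈ X) (hu1 : u ∉ P1) (hu0 : ∀ p ∈ P0, B u p = 0) (hu2 : ∀ p ∈ P1, B u p = 0)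
    (huu : B u u = 0) :
    ∃ v : V, v ≠ 0 ∧ ∀ b, ∃ c : F, v = c • y' b := by
  obtain ⟨v, hv0, _, hvx, hvv⟩ := escape L S hno hu hu1 hu0 hu2
  refine ⟨v, hv0, ?_⟩
  intro b
  obtain ⟨α, β, e⟩ := H.perp b v (fun j _ => hvx _)
  rw [huu] at hvv
  have h1 : 2 * (α * β * C (y b) (y' b)) = 0 := by
    have : C v v = 2 * (α * β * C (y b) (y' b)) := by
      rw [e]
      simp only [map_add, map_smul, LinearMap.add_apply, LinearMap.smul_apply, smul_eq_mul]
      rw [H.isoy, H.isoy', hC (y' b) (y b)]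
      ring
    rw [← this, hvv]
  have h3 : α = 0 ∨ β = 0 := by
    rcases mul_eq_zero.mp h1 with h | h
    · exact absurd h h2
    rcases mul_eq_zero.mp h with h | h
    · exact mul_eq_zero.mp h
    · exact absurd h (H.yy' b)
  rcases h3 with rfl | rfl
  · exact ⟨β, by simpa using e⟩
  · exfalso
    rw [zero_smul, add_zero] at e
    have := hvx (b + 1)
    rw [e] at this hv0
    simp only [map_smul, LinearMap.smul_apply, smul_eq_mul] at this
    rcases mul_eq_zero.mp this with h | h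
    · rw [h] at hv0; simp at hv0
    · exact hext b h

/-- the reflection case: `P1` does not move -/
theorem step_reflect
    (hB : ∀ u v, B u v = B v u)
    (hC : ∀ u v, C u v = C v u) (hd : 1 ≤ d) {y' : ZMod n → V} 
    (S : State B C n m0 m1 W W' X Y P0 P1 Ψ x y) (H : FlipY C n d x y y')
    {v : V} (hvv : C v v ≠ 0) (hvx : ∀ a, C v (x a) = 0) :
    ∃ (Ψ' : V →ₗ[F] U), State B C n m0 m1 W W' X Y P0 P1 Ψ' x y' := by
  -- the reflection
  let R : V →ₗ[F] V := LinearMap.id - (2 / C v v) • (C v).smulRight v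
  have hR : ∀ w, R w = w - (2 / C v v * C v w) • v := by
    intro w
    simp [R, smul_smul]
  have hRR : ∀ w w', C (R w) (R w') = C w w' := by
    intro w w'
    rw [hR, hR]
    simp only [map_sub, map_smul, LinearMap.sub_apply, LinearMap.smul_apply, smul_eq_mul]
    rw [hC w v]
    field_simp
    ring
  have hRinv : ∀ w, R (R w) = w := by
    intro w
    rw [hR, hR]
    simp only [map_sub, map_smul, smul_eq_mul]
    rw [sub_sub, ← add_smul]
    have : (2 / C v v * C v w + 2 / C v v * (C v w - 2 / C v v * C v w * C v v)) = 0 := by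
      field_simp
      ring
    rw [this]
    simp
  refine ⟨Ψ.comp R, ?_⟩
  refine ⟨S.P0Y, S.P1X, S.rank0, S.rank1, S.iso00, S.iso11, S.iso01, ?_, ?_, ?_, ?_, ?_, ?_,
    S.trivW, S.trivW'⟩
  · intro u w
    rw [LinearMap.comp_apply, LinearMap.comp_apply, S.isom, hRR]
  · intro w p hp
    exact S.orth0 _ p hp
  · intro w p hp
    exact S.orth1 _ p hp
  · intro u h0 h1
    obtain ⟨w, p, hp, q, hq, e⟩ := S.full u h0 h1
    refine ⟨R w, p, hp, q, hq, ?_⟩
    rw [LinearMap.comp_apply, hRinv, e]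
  · intro a
    obtain ⟨u, hu, p, hp, q, hq, e⟩ := S.hx a
    refine ⟨u, hu, p, hp, q, hq, ?_⟩
    rw [LinearMap.comp_apply, hR, hvx a]
    simpa using e
  · intro b
    -- `R (y' b)` is proportional to `y b`
    have hperp : ∀ j : ℕ, j < d → C (R (y' b)) (x (b - (j : ZMod n))) = 0 := by
      intro j hj
      rw [hR]
      simp only [map_sub, map_smul, LinearMap.sub_apply, LinearMap.smul_apply, smul_eq_mul]
      rw [H.orthy' b j hj, hvx]
      ring
    obtain ⟨α, β, e⟩ := H.perp b _ hperp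
    obtain ⟨α', β', e'⟩ := H.perp b v (fun j _ => hvx _)
    have hiso : C (R (y' b)) (R (y' b)) = 0 := by rw [hRR]; exact H.isoy' b
    have hvv' : C v v = 2 * (α' * β' * C (y b) (y' b)) := by
      conv_lhs => rw [e']
      simp only [map_add, map_smul, LinearMap.add_apply, LinearMap.smul_apply, smul_eq_mul]
      rw [H.isoy, H.isoy', hC (y' b) (y b)]
      ring
    have hα' : α' ≠ 0 := by
      rintro rfl
      apply hvv
      rw [hvv']; ring
    have hβ' : β' ≠ 0 := by
      rintro rfl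
      apply hvv
      rw [hvv']; ring
    have h2' : (2 : F) ≠ 0 := by
      intro h
      apply hvv
      rw [hvv', h]; ring
    have hyy' := H.yy' b
    -- coefficient of `y' b`
    have hvy' : C v (y' b) = α' * C (y b) (y' b) := by
      conv_lhs => rw [e']
      simp only [map_add, map_smul, LinearMap.add_apply, LinearMap.smul_apply, smul_eq_mul]
      rw [H.isoy']; ring
    have hkey : ∀ k : F, k * β' = 1 → y' b - k • v = (-k * α') • y b := by
      intro k hk
      have : k • v = (k * α') • y b + y' b := by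
        conv_lhs => rw [e']
        rw [smul_add, smul_smul, smul_smul, hk, one_smul]
      rw [this, neg_mul, neg_smul]
      abel
    have hRy : R (y' b) = (-(2 / C v v * C v (y' b)) * α') • y b := by
      rw [hR]
      apply hkey
      rw [hvy', hvv']
      field_simp
    obtain ⟨u, hu, p, hp, q, hq, eu⟩ := S.hy b
    set c := (-(2 / C v v * C v (y' b)) * α') with hc
    refine ⟨c • u, (W' b).smul_mem _ hu, c • p, P0.smul_mem _ hp, c • q, P1.smul_mem _ hq, ?_⟩
    rw [LinearMap.comp_apply, hRy, eu]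
    simp only [map_smul, smul_add]

end

end Pool.Agent.Lib.MP_610b40_an
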