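import Pool.Agent.Lib.MP_610b40_an.AffLines

set_option autoImplicit false

/-!
# Families of lines with exactly two common transversals
-/

namespace Pool.Agent.MP610b40

open Matrix Filter Topology

variable {ι : Type} [Finite ι]

theorem eventually_third (L : ι → Line) (T1 T2 : Line)
    (h : ∀ T : Line, (∀ i, Meets T (L i)) → T = T1 ∨ T = T2) (x : ℝ → PV)
    (hx : Continuous x) (hx0 : x 0 = T1.pl) (iso : ∀ s, pB (x s) (x s) = 0)
    (orth : ∀ s i, pB (x s) (L i).pl = 0)
    (hpar : ∀ i, ∀ᶠ s in 𝓝[≠] (0 : ℝ), (x s).1 ⨯₃ (L i).dir ≠ 0) :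
    ∀ᶠ s in 𝓝[≠] (0 : ℝ), ∃ c : ℝ, x s = c • T1.pl ∨ x s = c • T2.pl := by
  have h1 : ∀ᶠ s in 𝓝[≠] (0 : ℝ), (x s).1 ≠ 0 := by
    have hc : ContinuousAt (fun s => (x s).1) 0 := (continuous_fst.comp hx).continuousAt
    have : (fun s => (x s).1) 0 ≠ 0 := by
      simp only [hx0]; exact T1.dir_ne
    exact (hc.eventually_ne this).filter_mono nhdsWithin_le_nhds
  have h2 : ∀ᶠ s in 𝓝[≠] (0 : ℝ), ∀ i, (x s).1 ⨯₃ (L i).dir ≠ 0 := eventually_all.2 hpar
  filter_upwards [h1, h2] with s hs1 hs2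
  obtain ⟨ℓ, c, hc0, hc⟩ := exists_line hs1 (iso s)
  have hm : ∀ i, Meets ℓ (L i) := by
    intro i
    apply meets_of_pB_eq_zero
    · have := orth s i
      rw [hc, pB_smul_left] at this
      exact (mul_eq_zero.1 this).resolve_left hc0
    · intro h0
      apply hs2 i
      rw [hc]
      show (c • ℓ.dir) ⨯₃ _ = 0
      rw [map_smul, LinearMap.smul_apply, h0, smul_zero]
  rcases h ℓ hm with rfl | rfl
  · exact ⟨c, Or.inl hc⟩
  · exact ⟨c, Or.inr hc⟩

/-- The two common transversals are not orthogonal. -/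
theorem pB_ne_zero_of_two (L : ι → Line) (T1 T2 : Line) (hne : T1 ≠ T2)
    (h1 : ∀ i, Meets T1 (L i)) (h2 : ∀ i, Meets T2 (L i))
    (h : ∀ T : Line, (∀ i, Meets T (L i)) → T = T1 ∨ T = T2) :
    pB T1.pl T2.pl ≠ 0 := by
  intro h0
  have hind : ∀ c : ℝ, T2.pl ≠ c • T1.pl := fun c hc => hne (eq_of_pl_smul hc)
  have key := eventually_third L T1 T2 h (fun s => T1.pl + s • T2.pl) (by fun_prop) (by simp)
    (fun s => by
      rw [pB_add_left, pB_add_right, pB_add_right, pB_smul_left, pB_smul_left, pB_smul_right,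
        pB_smul_right, T1.pl_isotropic, T2.pl_isotropic, pB_comm T2.pl, h0]
      ring)
    (fun s i => by
      rw [pB_add_left, pB_smul_left, pB_eq_zero_of_meets (h1 i), pB_eq_zero_of_meets (h2 i)]
      ring)
    (fun i => ?_)
  · have h3 : ∀ᶠ s in 𝓝[≠] (0 : ℝ), s ≠ 0 := eventually_mem_nhdsWithin
    obtain ⟨s, ⟨c, hc⟩, hs⟩ := (key.and h3).exists
    rcases hc with hc | hc
    · apply hind (s⁻¹ * (c - 1))
      have : s • T2.pl = (c - 1) • T1.pl := by
        rw [sub_smul, one_smul, ← hc]; abel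
      rw [mul_smul, ← this, smul_smul, inv_mul_cancel₀ hs, one_smul]
    · have : T1.pl = (c - s) • T2.pl := by
        rw [sub_smul, ← hc]; abel
      exact hne (eq_of_pl_smul this).symm
  · by_cases hp : T1.dir ⨯₃ (L i).dir = 0
    · have e1 : T1 = L i := eq_of_cross_eq_zero hp (h1 i)
      have hp2 : T2.dir ⨯₃ (L i).dir ≠ 0 := fun h0 =>
        hne (e1.trans (eq_of_cross_eq_zero h0 (h2 i)).symm)
      have h3 : ∀ᶠ s in 𝓝[≠] (0 : ℝ), s ≠ 0 := eventually_mem_nhdsWithin
      filter_upwards [h3] with s hs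
      show (T1.dir + s • T2.dir) ⨯₃ _ ≠ 0
      rw [map_add, LinearMap.add_apply, hp, zero_add, map_smul, LinearMap.smul_apply]
      exact smul_ne_zero hs hp2
    · have hc : ContinuousAt (fun s : ℝ => (T1.dir + s • T2.dir) ⨯₃ (L i).dir) 0 := by
        apply Continuous.continuousAt
        have : (fun s : ℝ => (T1.dir + s • T2.dir) ⨯₃ (L i).dir) =
            fun s : ℝ => T1.dir ⨯₃ (L i).dir + s • (T2.dir ⨯₃ (L i).dir) := by
          funext s
          rw [map_add, LinearMap.add_apply, map_smul, LinearMap.smul_apply]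
        rw [this]
        fun_prop
      exact (hc.eventually_ne (by simpa using hp)).filter_mono nhdsWithin_le_nhds

/-- The orthogonal complement of the lines is spanned by the two common transversals. -/
theorem exists_combination_of_two (L : ι → Line) (T1 T2 : Line) (hne : T1 ≠ T2)
    (h1 : ∀ i, Meets T1 (L i)) (h2 : ∀ i, Meets T2 (L i))
    (h : ∀ T : Line, (∀ i, Meets T (L i)) → T = T1 ∨ T = T2)
    (v : PV) (hv : ∀ i, pB v (L i).pl = 0) :
    ∃ a b : ℝ, v = a • T1.pl + b • T2.pl := by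
  have hβ := pB_ne_zero_of_two L T1 T2 hne h1 h2 h
  set β := pB T1.pl T2.pl with hβdef
  set w : PV := v - (pB v T2.pl / β) • T1.pl - (pB v T1.pl / β) • T2.pl with hw
  have hsub : ∀ a b c : PV, pB (a - b) c = pB a c - pB b c := by
    intro a b c
    rw [sub_eq_add_neg, ← neg_one_smul ℝ b, pB_add_left, pB_smul_left]; ring
  have hw1 : pB w T1.pl = 0 := by
    rw [hw, hsub, hsub, pB_smul_left, pB_smul_left, T1.pl_isotropic, pB_comm T2.pl, ← hβdef]
    field_simp
    ring
  have hw2 : pB w T2.pl = 0 := by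
    rw [hw, hsub, hsub, pB_smul_left, pB_smul_left, T2.pl_isotropic, ← hβdef]
    field_simp
    ring
  have hwL : ∀ i, pB w (L i).pl = 0 := by
    intro i
    rw [hw, hsub, hsub, pB_smul_left, pB_smul_left, hv, pB_eq_zero_of_meets (h1 i),
      pB_eq_zero_of_meets (h2 i)]
    ring
  by_cases hw0 : w = 0
  · refine ⟨pB v T2.pl / β, pB v T1.pl / β, ?_⟩
    rw [hw] at hw0
    rw [sub_sub, sub_eq_zero] at hw0
    exact hw0
  exfalso
  set q := pB w w with hq
  have key := eventually_third L T1 T2 h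
    (fun s => T1.pl + s • w + (-(s ^ 2 * q / (2 * β))) • T2.pl) (by fun_prop) (by simp)
    (fun s => by
      simp only [pB_add_left, pB_add_right, pB_smul_left, pB_smul_right]
      rw [T1.pl_isotropic, T2.pl_isotropic, hw1, hw2, pB_comm T1.pl w, hw1, pB_comm T2.pl w, hw2,
        pB_comm T2.pl T1.pl, ← hβdef, ← hq]
      field_simp
      ring)
    (fun s i => by
      simp only [pB_add_left, pB_smul_left]
      rw [hwL, pB_eq_zero_of_meets (h1 i), pB_eq_zero_of_meets (h2 i)]
      ring)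
    (fun i => ?_)
  · have h3 : ∀ᶠ s in 𝓝[≠] (0 : ℝ), s ≠ 0 := eventually_mem_nhdsWithin
    obtain ⟨s, ⟨c, hc⟩, hs⟩ := (key.and h3).exists
    have e2 : pB (T1.pl + s • w + (-(s ^ 2 * q / (2 * β))) • T2.pl) T2.pl = β := by
      simp only [pB_add_left, pB_smul_left]
      rw [hw2, T2.pl_isotropic]
      ring
    rcases hc with hc | hc
    · have c1 : c = 1 := by
        rw [hc, pB_smul_left, ← hβdef] at e2
        exact mul_right_cancel₀ hβ (by rw [e2, one_mul])
      rw [c1, one_smul] at hc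
      have e1 : pB (T1.pl + s • w + (-(s ^ 2 * q / (2 * β))) • T2.pl) T1.pl =
          -(s ^ 2 * q / 2) := by
        simp only [pB_add_left, pB_smul_left]
        rw [hw1, T1.pl_isotropic, pB_comm T2.pl T1.pl, ← hβdef]
        field_simp
        ring
      rw [hc, T1.pl_isotropic] at e1
      have hq0 : q = 0 := by
        have : s ^ 2 * q = 0 := by linarith
        exact (mul_eq_zero.1 this).resolve_left (pow_ne_zero 2 hs)
      rw [hq0] at hc
      simp only [mul_zero, zero_div, neg_zero, zero_smul, add_zero] at hc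
      have : s • w = 0 := by
        have := hc
        rwa [add_eq_left] at this
      exact hw0 ((smul_eq_zero.1 this).resolve_left hs)
    · rw [hc, pB_smul_left, T2.pl_isotropic, mul_zero] at e2
      exact hβ e2.symm
  · have hp : T1.dir ⨯₃ (L i).dir ≠ 0 := by
      intro h0
      have e1 : T1 = L i := eq_of_cross_eq_zero h0 (h1 i)
      apply hβ
      rw [hβdef, pB_comm, e1]
      exact pB_eq_zero_of_meets (h2 i)
    have hc : ContinuousAt
        (fun s : ℝ => (T1.pl + s • w + (-(s ^ 2 * q / (2 * β))) • T2.pl).1 ⨯₃ (L i).dir) 0 := by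
      apply Continuous.continuousAt
      have : (fun s : ℝ => (T1.pl + s • w + (-(s ^ 2 * q / (2 * β))) • T2.pl).1 ⨯₃ (L i).dir) =
          fun s : ℝ => T1.dir ⨯₃ (L i).dir + s • (w.1 ⨯₃ (L i).dir) +
            (-(s ^ 2 * q / (2 * β))) • (T2.dir ⨯₃ (L i).dir) := by
        funext s
        show (T1.dir + s • w.1 + (-(s ^ 2 * q / (2 * β))) • T2.dir) ⨯₃ (L i).dir = _
        simp only [map_add, LinearMap.add_apply, map_smul, LinearMap.smul_apply]
      rw [this]
      fun_prop
    refine (hc.eventually_ne ?_).filter_mono nhdsWithin_le_nhds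
    show (T1.pl + (0 : ℝ) • w + (-((0 : ℝ) ^ 2 * q / (2 * β))) • T2.pl).1 ⨯₃ (L i).dir ≠ 0
    have : T1.pl + (0 : ℝ) • w + (-((0 : ℝ) ^ 2 * q / (2 * β))) • T2.pl = T1.pl := by simp
    rw [this]
    exact hp

end Pool.Agent.MP610b40
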